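import Pool.Agent.Y883.T6.Fin6

set_option autoImplicit false

/-!
# Large constants

The density of the triples for which the theorem of the starting file `ThreeLargeCoefficients` holds for all `d` (adapted from its
proof, `Pool.Agent.Y883.T6.dens6`; here the bounds for `|a| p`, `|b| q`, `|c| r` are kept).
-/

namespace Pool.Agent.Q236.BK

open Finset
open Pool.Agent.Y883.T3 (ev_log_rpow)
open Pool.Agent.Y883.T5 (Admissible Adm no_common)
open Pool.Agent.Y883.T6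

/-- large coefficients and a solution with small terms -/
def SB (X A : ℕ) (a b c d : ℤ) : Prop :=
  (X : ℝ) ≤ a.natAbs * Real.log X ^ (A + 1) ∧ (X : ℝ) ≤ b.natAbs * Real.log X ^ (A + 1) ∧
    (X : ℝ) ≤ c.natAbs * Real.log X ^ (A + 1) ∧ Sol6 2 (max (a * b).natAbs (max (b * c).natAbs (c * a).natAbs)) a b c d

open Classical in
/-- solutions for all `d`, for almost all triples, with the bounds for `|a| p`, `|b| q`, `|c| r` -/
theorem dens7 (A : ℕ) : ∃ X₀ : ℕ, ∀ X : ℕ, X₀ ≤ X →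
      (((Icc 1 X ×ˢ Icc 1 X ×ˢ Icc 1 X).filter (fun t : ℕ × ℕ × ℕ => ¬ ∀ a b c d : ℤ, Admissible a b c d →
        a.natAbs = t.1 → b.natAbs = t.2.1 → c.natAbs = t.2.2 → SB X A a b c d)).card : ℝ) ≤
        (X : ℝ) ^ 3 / Real.log X ^ A := by
  obtain ⟨D, hD, _, hmain⟩ := main6
  obtain ⟨C₁, hC₁, hp1⟩ := pair_sparse hD
  obtain ⟨Δ₀, F, _, hF0, hF3⟩ := hmain 2 (by norm_num) 1 (by norm_num) (4 * (A + 2))
  have hF0 := hF0 (by norm_num)
  obtain ⟨N₁, h1⟩ := ev_log_rpow (2 * A + 2) 1 1 (by norm_num)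
  obtain ⟨N₃, h3⟩ := exists_nat_ge (Real.exp (C₁ + 12))
  refine ⟨Δ₀ + N₁ + N₃ + 3, fun X hX => ?_⟩
  have hX1n : 1 ≤ X := by omega
  have hX0 : (0 : ℝ) < X := by exact_mod_cast hX1n
  have hX1 : (1 : ℝ) ≤ X := by exact_mod_cast hX1n
  obtain ⟨L, hL⟩ : ∃ L, L = Real.log X := ⟨_, rfl⟩
  have hLC : C₁ + 12 ≤ L := by
    rw [hL, Real.le_log_iff_exp_le hX0]
    exact h3.trans (by exact_mod_cast (by omega : N₃ ≤ X))
  have hL0 : 0 < L := by linarith
  have hL1 : 1 ≤ L := by linarith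
  have hL2 : L ^ (2 * A + 2) ≤ X := by
    have := h1 X (by omega)
    rwa [one_mul, Real.rpow_one, ← hL] at this
  rw [← hL]
  obtain ⟨P, hP⟩ : ∃ P : ℕ → ℕ → Prop, P = fun (u v : ℕ) => (u : ℝ) * L ^ (A + 1) < X ∨ L ^ (4 * (A + 2)) < (Nat.gcd u v : ℕ) ∨
    (∃ e ∈ D, L ^ (4 * (A + 2)) < (e : ℝ) ∧ e ∣ u * v) ∨ u * v ∈ F := ⟨_, rfl⟩
  -- the number of the exceptional pairs
  obtain ⟨Z, hZ⟩ : ∃ Z : ℝ, Z = (X : ℝ) ^ 2 / L ^ (A + 1) := ⟨_, rfl⟩
  have hpairs : (((Icc 1 X ×ˢ Icc 1 X).filter (fun s : ℕ × ℕ => P s.1 s.2)).card : ℝ) ≤ 4 * Z := by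
    obtain ⟨P1, hP1⟩ : ∃ P1, P1 = (Icc 1 X ×ˢ Icc 1 X).filter (fun s : ℕ × ℕ => (s.1 : ℝ) * L ^ (A + 1) < X) := ⟨_, rfl⟩
    obtain ⟨P2, hP2⟩ : ∃ P2, P2 = (Icc 1 X ×ˢ Icc 1 X).filter
      (fun s : ℕ × ℕ => L ^ (4 * (A + 2)) < (Nat.gcd s.1 s.2 : ℕ)) := ⟨_, rfl⟩
    obtain ⟨P3, hP3⟩ : ∃ P3, P3 = (Icc 1 X ×ˢ Icc 1 X).filter
      (fun s : ℕ × ℕ => ∃ e ∈ D, L ^ (4 * (A + 2)) < (e : ℝ) ∧ e ∣ s.1 * s.2) := ⟨_, rfl⟩
    obtain ⟨P4, hP4⟩ : ∃ P4, P4 = (Icc 1 X ×ˢ Icc 1 X).filter (fun s : ℕ × ℕ => s.1 * s.2 ∈ F) := ⟨_, rfl⟩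
    have hsub : (Icc 1 X ×ˢ Icc 1 X).filter (fun s : ℕ × ℕ => P s.1 s.2) ⊆ P1 ∪ (P2 ∪ (P3 ∪ P4)) := by
      intro s hs
      rw [mem_filter, hP] at hs
      rw [mem_union, mem_union, mem_union, hP1, hP2, hP3, hP4, mem_filter, mem_filter, mem_filter, mem_filter]
      obtain ⟨g0, g | g | g | g⟩ := hs
      · exact Or.inl ⟨g0, g⟩
      · exact Or.inr (Or.inl ⟨g0, g⟩)
      · exact Or.inr (Or.inr (Or.inl ⟨g0, g⟩))
      · exact Or.inr (Or.inr (Or.inr ⟨g0, g⟩))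
    have hc : ((Icc 1 X ×ˢ Icc 1 X).filter (fun s : ℕ × ℕ => P s.1 s.2)).card ≤
        P1.card + (P2.card + (P3.card + P4.card)) :=
      (card_le_card hsub).trans ((card_union_le _ _).trans (Nat.add_le_add_left
        ((card_union_le _ _).trans (Nat.add_le_add_left (card_union_le _ _) _)) _))
    have hcr : (((Icc 1 X ×ˢ Icc 1 X).filter (fun s : ℕ × ℕ => P s.1 s.2)).card : ℝ) ≤
        P1.card + (P2.card + (P3.card + P4.card)) := by exact_mod_cast hc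
    have hLp : 0 < L ^ (A + 1) := by positivity
    have b1 : (P1.card : ℝ) ≤ Z := by
      have hsub1 : P1 ⊆ Icc 1 ⌊(X : ℝ) / L ^ (A + 1)⌋₊ ×ˢ Icc 1 X := by
        intro s hs
        rw [hP1, mem_filter, mem_product, mem_Icc, mem_Icc] at hs
        rw [mem_product, mem_Icc, mem_Icc]
        refine ⟨⟨hs.1.1.1, Nat.le_floor ?_⟩, hs.1.2⟩
        rw [le_div_iff₀ hLp]
        exact hs.2.le
      have e1 := card_le_card hsub1
      rw [card_product, Nat.card_Icc, Nat.card_Icc, Nat.add_sub_cancel, Nat.add_sub_cancel] at e1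
      have e2 : (P1.card : ℝ) ≤ (⌊(X : ℝ) / L ^ (A + 1)⌋₊ : ℕ) * X := by exact_mod_cast e1
      refine e2.trans ?_
      calc ((⌊(X : ℝ) / L ^ (A + 1)⌋₊ : ℕ) : ℝ) * X ≤ ((X : ℝ) / L ^ (A + 1)) * X :=
            mul_le_mul_of_nonneg_right (Nat.floor_le (by positivity)) hX0.le
        _ = Z := by rw [hZ]; ring
    have hLL : ∀ K : ℝ, K ≤ L → K * ((X : ℝ) ^ 2 / L ^ (A + 2)) ≤ Z := by
      intro K hK
      rw [hZ]
      calc K * ((X : ℝ) ^ 2 / L ^ (A + 2)) ≤ L * ((X : ℝ) ^ 2 / L ^ (A + 2)) :=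
            mul_le_mul_of_nonneg_right hK (by positivity)
        _ = (X : ℝ) ^ 2 / L ^ (A + 1) := by
            rw [pow_succ L (A + 1)]
            field_simp
    have b2 : (P2.card : ℝ) ≤ Z := by
      have e1 := pair_gcd X (L ^ (4 * (A + 2))) (by positivity)
      rw [← hP2] at e1
      refine e1.trans ((mul_le_mul_of_nonneg_left ?_ (by norm_num)).trans (hLL 2 (by linarith)))
      apply div_le_div_of_nonneg_left (by positivity) (by positivity)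
      exact pow_le_pow_right₀ hL1 (by omega)
    have b3 : (P3.card : ℝ) ≤ Z := by
      have e1 := hp1 X (L ^ (4 * (A + 2))) (by positivity)
      rw [← hP3] at e1
      have e2 : (L ^ (4 * (A + 2))) ^ (1 / 4 : ℝ) = L ^ (A + 2) := by
        rw [← Real.rpow_natCast, ← Real.rpow_natCast, ← Real.rpow_mul hL0.le]
        congr 1
        push_cast
        ring
      rw [e2] at e1
      exact e1.trans (hLL C₁ (by linarith))
    have b4 : (P4.card : ℝ) ≤ Z := by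
      have e1 : P4 = ∅ := by
        apply eq_empty_of_forall_notMem
        intro s hs
        rw [hP4, mem_filter, hF0] at hs
        exact hs.2
      rw [e1, card_empty, hZ]
      push_cast
      positivity
    linarith
  -- a triple without exceptional pairs
  have hgood : ∀ u v w : ℕ, 1 ≤ u → 1 ≤ v → 1 ≤ w → ¬ P u v → ¬ P v w → ¬ P w u → ∀ a b c d : ℤ, Admissible a b c d →
      a.natAbs = u → b.natAbs = v → c.natAbs = w → SB X A a b c d := by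
    intro u v w hu hv hw huv hvw hwu a b c d hadm ea eb ec
    obtain ⟨Δ, hΔ⟩ : ∃ Δ, Δ = max (a * b).natAbs (max (b * c).natAbs (c * a).natAbs) := ⟨_, rfl⟩
    have hΔ' : Δ = max (u * v) (max (v * w) (w * u)) := by
      rw [hΔ, Int.natAbs_mul, Int.natAbs_mul, Int.natAbs_mul, ea, eb, ec]
    have hu' : (X : ℝ) ≤ u * L ^ (A + 1) := by
      rw [hP] at huv
      push Not at huv
      exact huv.1
    have hv' : (X : ℝ) ≤ v * L ^ (A + 1) := by
      rw [hP] at hvw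
      push Not at hvw
      exact hvw.1
    have hXΔ : X ≤ Δ := by
      have e1 : (X : ℝ) * X ≤ (u * L ^ (A + 1)) * (v * L ^ (A + 1)) := mul_le_mul hu' hv' hX0.le (by positivity)
      have e2 : (u * L ^ (A + 1)) * (v * L ^ (A + 1)) = ((u * v : ℕ) : ℝ) * L ^ (2 * A + 2) := by
        have : L ^ (2 * A + 2) = L ^ (A + 1) * L ^ (A + 1) := by rw [← pow_add]; congr 1; ring
        rw [this]
        push_cast
        ring
      have e3 : ((u * v : ℕ) : ℝ) * L ^ (2 * A + 2) ≤ ((u * v : ℕ) : ℝ) * X :=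
        mul_le_mul_of_nonneg_left hL2 (Nat.cast_nonneg _)
      have e4 : (X : ℝ) * X ≤ ((u * v : ℕ) : ℝ) * X := by linarith
      have e5 : (X : ℝ) ≤ ((u * v : ℕ) : ℝ) := le_of_mul_le_mul_right e4 hX0
      have e6 : X ≤ u * v := by exact_mod_cast e5
      rw [hΔ']
      exact e6.trans (le_max_left _ _)
    have hΔ0 : (0 : ℝ) < Δ := by exact_mod_cast (by omega : 0 < Δ)
    have hLΔ : L ^ (4 * (A + 2)) ≤ Real.log Δ ^ (4 * (A + 2)) := by
      apply pow_le_pow_left₀ hL0.le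
      rw [hL]
      exact Real.log_le_log hX0 (by exact_mod_cast hXΔ)
    have hpair : ∀ s t : ℤ, ¬ P s.natAbs t.natAbs → GoodPair (4 * (A + 2)) D F Δ s t := by
      intro s t hst
      rw [hP] at hst
      push Not at hst
      obtain ⟨-, g1, g2, g3⟩ := hst
      refine ⟨?_, ?_, ?_⟩
      · exact g1.trans hLΔ
      · intro e he g4 g5
        rw [Int.natCast_dvd, Int.natAbs_mul] at g5
        exact g2 e he (hLΔ.trans_lt g4) g5
      · intro _
        rw [Int.natAbs_mul]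
        exact g3
    have hsol := hF3 a b c d hadm Δ hΔ (by omega) (hpair a b (by rw [ea, eb]; exact huv))
      (hpair b c (by rw [eb, ec]; exact hvw)) (hpair c a (by rw [ec, ea]; exact hwu))
    have hw' : (X : ℝ) ≤ w * L ^ (A + 1) := by
      rw [hP] at hwu
      push Not at hwu
      exact hwu.1
    rw [hΔ] at hsol
    unfold SB
    rw [ea, eb, ec, ← hL]
    rw [ea, eb, ec] at *
    exact ⟨hu', hv', hw', hsol⟩
  -- the number of the exceptional triples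
  obtain ⟨B, hB⟩ : ∃ B, B = Icc 1 X ×ˢ Icc 1 X ×ˢ Icc 1 X := ⟨_, rfl⟩
  obtain ⟨c₁, hc₁⟩ : ∃ c₁ : Finset (ℕ × ℕ × ℕ), c₁ = B.filter (fun t => P t.1 t.2.1) := ⟨_, rfl⟩
  obtain ⟨c₂, hc₂⟩ : ∃ c₂ : Finset (ℕ × ℕ × ℕ), c₂ = B.filter (fun t => P t.2.1 t.2.2) := ⟨_, rfl⟩
  obtain ⟨c₃, hc₃⟩ : ∃ c₃ : Finset (ℕ × ℕ × ℕ), c₃ = B.filter (fun t => P t.2.2 t.1) := ⟨_, rfl⟩
  have hsub : (B.filter (fun t : ℕ × ℕ × ℕ => ¬ ∀ a b c d : ℤ, Admissible a b c d →
        a.natAbs = t.1 → b.natAbs = t.2.1 → c.natAbs = t.2.2 → SB X A a b c d)) ⊆ c₁ ∪ (c₂ ∪ c₃) := by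
    rintro ⟨u, v, w⟩ ht
    rw [mem_filter] at ht
    obtain ⟨ht1, ht2⟩ := ht
    rw [mem_union, mem_union, hc₁, hc₂, hc₃, mem_filter, mem_filter, mem_filter]
    by_contra hcon
    push Not at hcon
    apply ht2
    have ht1' := ht1
    rw [hB, mem_product, mem_product, mem_Icc, mem_Icc, mem_Icc] at ht1'
    exact hgood u v w ht1'.1.1 ht1'.2.1.1 ht1'.2.2.1 (hcon.1 ht1) (hcon.2.1 ht1) (hcon.2.2 ht1)
  have hc : (B.filter (fun t : ℕ × ℕ × ℕ => ¬ ∀ a b c d : ℤ, Admissible a b c d →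
        a.natAbs = t.1 → b.natAbs = t.2.1 → c.natAbs = t.2.2 → SB X A a b c d)).card ≤
      c₁.card + (c₂.card + c₃.card) :=
    (card_le_card hsub).trans ((card_union_le _ _).trans (Nat.add_le_add_left (card_union_le _ _) _))
  have hcr : ((B.filter (fun t : ℕ × ℕ × ℕ => ¬ ∀ a b c d : ℤ, Admissible a b c d →
        a.natAbs = t.1 → b.natAbs = t.2.1 → c.natAbs = t.2.2 → SB X A a b c d)).card : ℝ) ≤
      c₁.card + (c₂.card + c₃.card) := by exact_mod_cast hc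
  have hmem : ∀ t : ℕ × ℕ × ℕ, t ∈ Icc 1 X ×ˢ Icc 1 X ×ˢ Icc 1 X → t.1 ∈ Icc 1 X ∧ t.2.1 ∈ Icc 1 X ∧ t.2.2 ∈ Icc 1 X := by
    intro t ht
    rw [mem_product, mem_product] at ht
    exact ht
  have t1 := triple_cnt X P (fun t => ((t.1, t.2.1), t.2.2)) (by
      rintro ⟨u, v, w⟩ ⟨u', v', w'⟩ h
      simp only [Prod.mk.injEq] at h
      obtain ⟨⟨h1, h2⟩, h3⟩ := h
      rw [h1, h2, h3]) (by
      intro t ht
      obtain ⟨g1, g2, g3⟩ := hmem t ht
      rw [mem_product, mem_product]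
      exact ⟨⟨g1, g2⟩, g3⟩)
  have t2 := triple_cnt X P (fun t => ((t.2.1, t.2.2), t.1)) (by
      rintro ⟨u, v, w⟩ ⟨u', v', w'⟩ h
      simp only [Prod.mk.injEq] at h
      obtain ⟨⟨h1, h2⟩, h3⟩ := h
      rw [h1, h2, h3]) (by
      intro t ht
      obtain ⟨g1, g2, g3⟩ := hmem t ht
      rw [mem_product, mem_product]
      exact ⟨⟨g2, g3⟩, g1⟩)
  have t3 := triple_cnt X P (fun t => ((t.2.2, t.1), t.2.1)) (by
      rintro ⟨u, v, w⟩ ⟨u', v', w'⟩ h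
      simp only [Prod.mk.injEq] at h
      obtain ⟨⟨h1, h2⟩, h3⟩ := h
      rw [h1, h2, h3]) (by
      intro t ht
      obtain ⟨g1, g2, g3⟩ := hmem t ht
      rw [mem_product, mem_product]
      exact ⟨⟨g3, g1⟩, g2⟩)
  simp only at t1 t2 t3
  rw [← hB, ← hc₁] at t1
  rw [← hB, ← hc₂] at t2
  rw [← hB, ← hc₃] at t3
  have hn : ∀ c : Finset (ℕ × ℕ × ℕ), c.card ≤ ((Icc 1 X ×ˢ Icc 1 X).filter (fun s : ℕ × ℕ => P s.1 s.2)).card * X →
      (c.card : ℝ) ≤ 4 * Z * X := by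
    intro c hc
    have e1 : (c.card : ℝ) ≤ (((Icc 1 X ×ˢ Icc 1 X).filter (fun s : ℕ × ℕ => P s.1 s.2)).card : ℝ) * X := by
      exact_mod_cast hc
    exact e1.trans (mul_le_mul_of_nonneg_right hpairs hX0.le)
  have n1 := hn c₁ t1
  have n2 := hn c₂ t2
  have n3 := hn c₃ t3
  rw [← hB]
  refine hcr.trans ?_
  have hfin : 12 * (Z * X) ≤ (X : ℝ) ^ 3 / L ^ A := by
    have e1 : (X : ℝ) ^ 3 / L ^ A = L * (Z * X) := by
      rw [hZ, pow_succ L A]
      field_simp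
    rw [e1]
    have : 0 ≤ Z * X := by
      rw [hZ]
      positivity
    exact mul_le_mul_of_nonneg_right (by linarith) this
  linarith

end Pool.Agent.Q236.BK
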