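import Pool.Agent.Q236.BK.Num
import Pool.Agent.Q236.BK.Dens

/-!
# Exponent one for almost all coefficients and every constant
-/

set_option autoImplicit false

namespace Pool.Agent.Q236.BK

open Finset Filter
open Pool.Agent.Q236.RP
open Pool.Agent.Y883.T5 (Admissible)
open Pool.Agent.Y883.T6 (Sol6)

/-- `m = max(3, |a|, |b|, |c|)` -/
def mx (a b c : ℤ) : ℤ := max 3 (max |a| (max |b| |c|))

/-- a solution in primes with `max(p, q, r) ≤ (|d| / m + m) (log m)^B` -/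
def Small (B : ℕ) (a b c d : ℤ) : Prop :=
  ∃ p q r : ℕ, p.Prime ∧ q.Prime ∧ r.Prime ∧ a * p + b * q + c * r = d ∧
    ((max p (max q r) : ℕ) : ℝ) ≤ (|(d : ℝ)| / (mx a b c : ℝ) + (mx a b c : ℝ)) * Real.log (mx a b c : ℝ) ^ B

lemma small_a (A : ℕ) (s : ℝ) (hs : 1 ≤ s) : (((Cube A).filter (fun t => |(t.1 : ℝ)| < s)).card : ℝ) ≤ 27 * (s * (A : ℝ) ^ 2) ∨ A = 0 := by
  by_cases hA : A = 0
  · exact Or.inr hA
  left
  have hA1 : 1 ≤ A := Nat.one_le_iff_ne_zero.2 hA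
  have hAr : (1 : ℝ) ≤ A := by exact_mod_cast hA1
  have hsub : (Cube A).filter (fun t => |(t.1 : ℝ)| < s) ⊆
      (Icc (-(⌊s⌋₊ : ℤ)) ⌊s⌋₊) ×ˢ (Icc (-(A : ℤ)) A ×ˢ Icc (-(A : ℤ)) A) := by
    intro t ht
    rw [mem_filter] at ht
    unfold Cube at ht
    rw [mem_product] at ht
    rw [mem_product]
    refine ⟨?_, ht.1.2⟩
    have h1 := ht.2
    have h2 : ((t.1.natAbs : ℕ) : ℝ) < s := by
      rw [Nat.cast_natAbs, Int.cast_abs]
      exact h1
    have h3 : t.1.natAbs ≤ ⌊s⌋₊ := Nat.le_floor h2.le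
    rw [mem_Icc]
    omega
  have h1 := card_le_card hsub
  rw [card_product, card_product, Int.card_Icc, Int.card_Icc] at h1
  have h2 : ((A : ℤ) + 1 - -(A : ℤ)).toNat = 2 * A + 1 := by omega
  have h3 : ((⌊s⌋₊ : ℤ) + 1 - -(⌊s⌋₊ : ℤ)).toNat = 2 * ⌊s⌋₊ + 1 := by omega
  rw [h2, h3] at h1
  have h4 : (((Cube A).filter (fun t => |(t.1 : ℝ)| < s)).card : ℝ) ≤ (2 * (⌊s⌋₊ : ℝ) + 1) * ((2 * A + 1) * (2 * A + 1)) := by
    exact_mod_cast h1
  have h5 : (⌊s⌋₊ : ℝ) ≤ s := Nat.floor_le (by linarith)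
  calc (((Cube A).filter (fun t => |(t.1 : ℝ)| < s)).card : ℝ) ≤ (2 * (⌊s⌋₊ : ℝ) + 1) * ((2 * A + 1) * (2 * A + 1)) := h4
    _ ≤ (3 * s) * ((3 * A) * (3 * A)) := by
        apply mul_le_mul (by linarith) _ (by positivity) (by positivity)
        apply mul_le_mul (by linarith) (by linarith) (by positivity) (by positivity)
    _ = 27 * (s * (A : ℝ) ^ 2) := by ring

open Classical in
lemma abs_card (A : ℕ) (T : Finset (ℕ × ℕ × ℕ)) :
    ((Cube A).filter (fun t => (t.1.natAbs, t.2.1.natAbs, t.2.2.natAbs) ∈ T)).card ≤ 8 * T.card := by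
  obtain ⟨F, hF⟩ : ∃ F, F = (Cube A).filter (fun t => (t.1.natAbs, t.2.1.natAbs, t.2.2.natAbs) ∈ T) := ⟨_, rfl⟩
  rw [← hF]
  have h1 : F.card ≤ 8 * (F.image (fun t => (t.1.natAbs, t.2.1.natAbs, t.2.2.natAbs))).card := by
    apply card_le_mul_card_image
    intro x _
    have hsub : F.filter (fun t => (t.1.natAbs, t.2.1.natAbs, t.2.2.natAbs) = x) ⊆
        ({(x.1 : ℤ), -(x.1 : ℤ)} : Finset ℤ) ×ˢ (({(x.2.1 : ℤ), -(x.2.1 : ℤ)} : Finset ℤ) ×ˢ ({(x.2.2 : ℤ), -(x.2.2 : ℤ)} : Finset ℤ)) := by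
      intro t ht
      rw [mem_filter] at ht
      have h2 := ht.2
      rw [← h2]
      simp only [mem_product, mem_insert, mem_singleton]
      refine ⟨by omega, by omega, by omega⟩
    refine (card_le_card hsub).trans ?_
    rw [card_product, card_product]
    have h2 : ∀ u v : ℤ, ({u, v} : Finset ℤ).card ≤ 2 := fun u v => card_le_two
    calc _ ≤ 2 * (2 * 2) := Nat.mul_le_mul (h2 _ _) (Nat.mul_le_mul (h2 _ _) (h2 _ _))
      _ = 8 := by norm_num
  refine h1.trans (Nat.mul_le_mul_left 8 (card_le_card ?_))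
  intro x hx
  rw [mem_image] at hx
  obtain ⟨t, ht, rfl⟩ := hx
  rw [hF, mem_filter] at ht
  exact ht.2

/-- the bounds for `|a| p`, `|b| q`, `|c| r` give bounds for `p`, `q`, `r` -/
lemma sol6_bound {A : ℕ} {a b c d : ℤ} {s : ℝ} (hs : 1 ≤ s) (hA : (A : ℝ) ≤ a.natAbs * s) (hB : (A : ℝ) ≤ b.natAbs * s)
    (hC : (A : ℝ) ≤ c.natAbs * s) (ha0 : a ≠ 0) (hb0 : b ≠ 0) (hc0 : c ≠ 0) (hA1 : 1 ≤ A)
    (haA : a.natAbs ≤ A) (hbA : b.natAbs ≤ A) (hcA : c.natAbs ≤ A)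
    (h : Sol6 2 (max (a * b).natAbs (max (b * c).natAbs (c * a).natAbs)) a b c d) :
    ∃ p q r : ℕ, p.Prime ∧ q.Prime ∧ r.Prime ∧ a * p + b * q + c * r = d ∧
      ((max p (max q r) : ℕ) : ℝ) ≤ 3 * |(d : ℝ)| / A * s + (A : ℝ) ^ 4 := by
  obtain ⟨p, q, r, h1, h2, h3, h4, h5⟩ := h
  refine ⟨p, q, r, h1, h2, h3, h4, ?_⟩
  obtain ⟨Δ, hΔ⟩ : ∃ Δ, Δ = max (a * b).natAbs (max (b * c).natAbs (c * a).natAbs) := ⟨_, rfl⟩
  rw [← hΔ] at h5
  have hΔA : (Δ : ℝ) ≤ (A : ℝ) ^ 2 := by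
    have : Δ ≤ A ^ 2 := by
      rw [hΔ, Int.natAbs_mul, Int.natAbs_mul, Int.natAbs_mul, pow_two]
      exact max_le (Nat.mul_le_mul haA hbA) (max_le (Nat.mul_le_mul hbA hcA) (Nat.mul_le_mul hcA haA))
    exact_mod_cast this
  have hΔ4 : (Δ : ℝ) ^ (2 : ℝ) ≤ (A : ℝ) ^ 4 := by
    rw [Real.rpow_two]
    calc (Δ : ℝ) ^ 2 ≤ ((A : ℝ) ^ 2) ^ 2 := pow_le_pow_left₀ (Nat.cast_nonneg _) hΔA 2
      _ = (A : ℝ) ^ 4 := by ring
  have hAr : (0 : ℝ) < A := by exact_mod_cast hA1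
  have hkey : ∀ u x : ℕ, 1 ≤ u → (A : ℝ) ≤ u * s → min a.natAbs (min b.natAbs c.natAbs) ≤ u →
      u * x ≤ max (a.natAbs * p) (max (b.natAbs * q) (c.natAbs * r)) → (x : ℝ) ≤ 3 * |(d : ℝ)| / A * s + (A : ℝ) ^ 4 := by
    intro u x hu hus hmu hux
    have hu1 : (1 : ℝ) ≤ u := by exact_mod_cast hu
    have hu0 : (0 : ℝ) < u := by linarith
    have hΔ0 : 0 ≤ (Δ : ℝ) ^ (2 : ℝ) := by positivity
    have e1 : (u : ℝ) * x ≤ 3 * |(d : ℝ)| + (min a.natAbs (min b.natAbs c.natAbs) : ℕ) * (Δ : ℝ) ^ (2 : ℝ) := by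
      refine le_trans ?_ h5
      exact_mod_cast hux
    have e2 : ((min a.natAbs (min b.natAbs c.natAbs) : ℕ) : ℝ) * (Δ : ℝ) ^ (2 : ℝ) ≤ u * (A : ℝ) ^ 4 :=
      mul_le_mul (by exact_mod_cast hmu) hΔ4 hΔ0 hu0.le
    have e3 : 3 * |(d : ℝ)| ≤ u * (3 * |(d : ℝ)| / A * s) := by
      have e4 : 3 * |(d : ℝ)| = 3 * |(d : ℝ)| / A * A := by field_simp
      calc 3 * |(d : ℝ)| = 3 * |(d : ℝ)| / A * A := e4
        _ ≤ 3 * |(d : ℝ)| / A * (u * s) := mul_le_mul_of_nonneg_left hus (by positivity)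
        _ = u * (3 * |(d : ℝ)| / A * s) := by ring
    have e4 : (u : ℝ) * x ≤ u * (3 * |(d : ℝ)| / A * s + (A : ℝ) ^ 4) := by
      rw [mul_add]
      linarith
    exact le_of_mul_le_mul_left e4 hu0
  have f1 := hkey a.natAbs p (Int.natAbs_pos.2 ha0) hA (min_le_left _ _) (le_max_left _ _)
  have f2 := hkey b.natAbs q (Int.natAbs_pos.2 hb0) hB ((min_le_right _ _).trans (min_le_left _ _))
    ((le_max_left _ _).trans (le_max_right _ _))
  have f3 := hkey c.natAbs r (Int.natAbs_pos.2 hc0) hC ((min_le_right _ _).trans (min_le_right _ _))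
    ((le_max_right _ _).trans (le_max_right _ _))
  rw [Nat.cast_max, Nat.cast_max]
  exact max_le f1 (max_le f2 f3)

open Classical in
theorem baker (U : ℕ) : ∃ B A0 : ℕ, ∀ A : ℕ, A0 ≤ A → ∀ D : Finset ℤ, (D.card : ℝ) ≤ Real.log A ^ U →
    (((Cube A).filter (fun t => ∃ d ∈ D, Admissible t.1 t.2.1 t.2.2 d ∧ ¬ Small B t.1 t.2.1 t.2.2 d)).card : ℝ) ≤
        (A : ℝ) ^ 3 / Real.log A ^ U := by
  obtain ⟨B1, X0, hmain⟩ := main (2 * U + 2)
  obtain ⟨A1, hlen⟩ := len B1 X0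
  obtain ⟨A2, hcmp⟩ := cmp (B1 + 1) (U + 1)
  obtain ⟨A2', hcmp'⟩ := cmp (U + 3) (U + 1)
  obtain ⟨A3, h3l⟩ := dens7 (U + 1)
  obtain ⟨B, hB⟩ : ∃ B, B = B1 + 2 * U + 12 := ⟨_, rfl⟩
  have hev := (ev_log_ge (200 : ℝ)).and ((ev_pow_log (U + 2)).and (eventually_ge_atTop (max (max A1 A2) (max A3 (max A2' 3)))))
  obtain ⟨A0, hA0⟩ := eventually_atTop.1 hev
  refine ⟨B, A0, fun A hA D hDc => ?_⟩
  obtain ⟨hl2, h2', h3⟩ := hA0 A hA
  have hA1 : A1 ≤ A := ((le_max_left _ _).trans (le_max_left _ _)).trans h3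
  have hA2 : A2 ≤ A := ((le_max_right _ _).trans (le_max_left _ _)).trans h3
  have hA3 : A3 ≤ A := ((le_max_left _ _).trans (le_max_right _ _)).trans h3
  have hA2' : A2' ≤ A := (((le_max_left _ _).trans (le_max_right _ _)).trans (le_max_right _ _)).trans h3
  have hA4 : 3 ≤ A := (((le_max_right _ _).trans (le_max_right _ _)).trans (le_max_right _ _)).trans h3
  have hAr : (3 : ℝ) ≤ A := by exact_mod_cast hA4
  obtain ⟨l, hl⟩ : ∃ l, l = Real.log (A : ℝ) := ⟨_, rfl⟩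
  rw [← hl] at hl2 h2' hDc ⊢
  have hl0 : 0 < l := by linarith
  have hp : ∀ i : ℕ, 0 < l ^ i := fun i => by positivity
  obtain ⟨V, hV⟩ : ∃ V : ℝ, V = (A : ℝ) ^ 3 / l ^ (U + 1) := ⟨_, rfl⟩
  have hV0 : 0 ≤ V := by rw [hV]; positivity
  -- the three exceptional sets
  obtain ⟨T1, hT1⟩ : ∃ T1, T1 = (Cube A).filter (fun t => |(t.1 : ℝ)| < A / l ^ (U + 2)) := ⟨_, rfl⟩
  have hT1c : (T1.card : ℝ) ≤ 27 * V := by
    rcases small_a A (A / l ^ (U + 2)) (by rw [one_le_div (hp _)]; exact h2') with h4 | h4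
    · rw [hT1]
      refine h4.trans ?_
      rw [hV]
      have e : (A : ℝ) / l ^ (U + 2) * (A : ℝ) ^ 2 = (A : ℝ) ^ 3 / l ^ (U + 2) := by ring
      rw [e]
      apply mul_le_mul_of_nonneg_left _ (by norm_num)
      apply div_le_div_of_nonneg_left (by positivity) (hp _)
      exact pow_le_pow_right₀ (by linarith) (by omega)
    · omega
  obtain ⟨T, hT⟩ : ∃ T, T = (Icc 1 A ×ˢ Icc 1 A ×ˢ Icc 1 A).filter (fun t : ℕ × ℕ × ℕ => ¬ ∀ a b c d : ℤ, Admissible a b c d →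
        a.natAbs = t.1 → b.natAbs = t.2.1 → c.natAbs = t.2.2 → SB A (U + 1) a b c d) := ⟨_, rfl⟩
  have hTc : (T.card : ℝ) ≤ V := by
    have h4 := h3l A hA3
    rw [← hl, ← hV] at h4
    rw [hT]
    exact h4
  obtain ⟨T2, hT2⟩ : ∃ T2, T2 = (Cube A).filter (fun t => (t.1.natAbs, t.2.1.natAbs, t.2.2.natAbs) ∈ T) := ⟨_, rfl⟩
  have hT2c : (T2.card : ℝ) ≤ 8 * V := by
    have h4 := abs_card A T
    rw [← hT2] at h4
    have h5 : (T2.card : ℝ) ≤ 8 * T.card := by exact_mod_cast h4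
    linarith
  have hX : ∀ d : ℤ, ∃ X : ℕ, |(d : ℝ)| ≤ (A : ℝ) ^ 5 → X0 ≤ X ∧ A ≤ X ∧ (A : ℝ) * Real.log X ^ B1 ≤ X ∧
      |(d : ℝ)| * Real.log X ^ B1 ≤ A * X ∧ (X : ℝ) ≤ (|(d : ℝ)| / A + A) * l ^ (B1 + 1) + 1 := by
    intro d
    by_cases h4 : |(d : ℝ)| ≤ (A : ℝ) ^ 5
    · obtain ⟨X, h5⟩ := hlen A hA1 d h4
      rw [← hl] at h5
      exact ⟨X, fun _ => h5⟩
    · exact ⟨0, fun h5 => absurd h5 h4⟩
  choose X hX using hX
  obtain ⟨D', hD'⟩ : ∃ D', D' = D.filter (fun d : ℤ => |(d : ℝ)| ≤ (A : ℝ) ^ 5) := ⟨_, rfl⟩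
  obtain ⟨T3, hT3⟩ : ∃ T3, T3 = D'.biUnion (fun d : ℤ => (Cube A).filter (fun t => Admissible t.1 t.2.1 t.2.2 d ∧ ¬ SolX (X d) t.1 t.2.1 t.2.2 d)) := ⟨_, rfl⟩
  have hT3c : (T3.card : ℝ) ≤ 16 * V := by
    have h4 : (T3.card : ℝ) ≤ ∑ d ∈ D', 16 * ((A : ℝ) ^ 3 * (1 / l ^ (2 * U + 2))) := by
      have h5 : (T3.card : ℝ) ≤ ∑ d ∈ D', (((Cube A).filter (fun t => Admissible t.1 t.2.1 t.2.2 d ∧ ¬ SolX (X d) t.1 t.2.1 t.2.2 d)).card : ℝ) := by
        rw [hT3]
        exact_mod_cast card_biUnion_le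
      refine h5.trans (sum_le_sum fun d hd => ?_)
      rw [hD', mem_filter] at hd
      obtain ⟨k1, k2, k3, k4, _⟩ := hX d hd.2
      obtain ⟨E, hE1, hE2, hE3⟩ := hmain (X d) k1 A (by omega) k3
      have hlX : l ≤ Real.log (X d) := by
        rw [hl]
        exact Real.log_le_log (by linarith) (by exact_mod_cast k2)
      have hpow : (1 : ℝ) / Real.log (X d) ^ (2 * U + 2) ≤ 1 / l ^ (2 * U + 2) := by
        apply one_div_le_one_div_of_le (hp _)
        exact pow_le_pow_left₀ hl0.le hlX _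
      have hXd0 : (0 : ℝ) < X d := by
        have : A ≤ X d := k2
        have : (A : ℝ) ≤ X d := by exact_mod_cast this
        linarith
      have hLX0 : 0 < Real.log (X d) := by linarith
      have h6 := BT_card (X d) A d E (1 / l ^ (2 * U + 2)) ((X d : ℝ) ^ 2 / (A * Real.log (X d) ^ B1)) (by omega) (by positivity)
        (by positivity) hE1 (by
          refine hE2.trans ?_
          rw [div_eq_mul_one_div]
          exact mul_le_mul_of_nonneg_left hpow (by positivity)) (by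
          intro a b hab hab2
          refine (hE3 a b hab hab2 d k4).trans ?_
          rw [div_eq_mul_one_div]
          exact mul_le_mul_of_nonneg_left hpow (by positivity))
      have h7 := ex_card (X d) A d
      have h8 : (((Cube A).filter (fun t => Admissible t.1 t.2.1 t.2.2 d ∧ ¬ SolX (X d) t.1 t.2.1 t.2.2 d)).card : ℝ) ≤
          4 * (BT (X d) A d).card := by exact_mod_cast h7
      linarith
    refine h4.trans ?_
    rw [sum_const, nsmul_eq_mul]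
    have h5 : (D'.card : ℝ) ≤ l ^ U := by
      refine le_trans ?_ hDc
      rw [hD']
      exact_mod_cast card_filter_le _ _
    calc (D'.card : ℝ) * (16 * ((A : ℝ) ^ 3 * (1 / l ^ (2 * U + 2)))) ≤ l ^ U * (16 * ((A : ℝ) ^ 3 * (1 / l ^ (2 * U + 2)))) :=
          mul_le_mul_of_nonneg_right h5 (by positivity)
      _ = 16 * ((A : ℝ) ^ 3 / l ^ (U + 2)) := by
          rw [show 2 * U + 2 = U + (U + 2) by ring, pow_add]
          field_simp
      _ ≤ 16 * V := by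
          rw [hV]
          apply mul_le_mul_of_nonneg_left _ (by norm_num)
          apply div_le_div_of_nonneg_left (by positivity) (hp _)
          exact pow_le_pow_right₀ (by linarith) (by omega)
  have hsub : (Cube A).filter (fun t => ∃ d ∈ D, Admissible t.1 t.2.1 t.2.2 d ∧ ¬ Small B t.1 t.2.1 t.2.2 d) ⊆ T1 ∪ (T2 ∪ T3) := by
    intro t ht
    rw [mem_filter] at ht
    obtain ⟨htc, d, hd, hadm, hno⟩ := ht
    rw [mem_union, mem_union]
    by_contra hcon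
    push Not at hcon
    obtain ⟨hn1, hn2, hn3⟩ := hcon
    apply hno
    have htc' := htc
    unfold Cube at htc'
    rw [mem_product, mem_product, mem_Icc, mem_Icc, mem_Icc] at htc'
    obtain ⟨⟨a1, a2⟩, ⟨b1, b2⟩, c1, c2⟩ := htc'
    obtain ⟨m, hm⟩ : ∃ m : ℝ, m = (mx t.1 t.2.1 t.2.2 : ℝ) := ⟨_, rfl⟩
    have hm3 : 3 ≤ m := by
      rw [hm]
      have : (3 : ℤ) ≤ mx t.1 t.2.1 t.2.2 := le_max_left _ _
      exact_mod_cast this
    have hmA : m ≤ A := by
      rw [hm]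
      have : mx t.1 t.2.1 t.2.2 ≤ (A : ℤ) := by
        unfold mx
        rw [max_le_iff, max_le_iff, max_le_iff, abs_le, abs_le, abs_le]
        omega
      exact_mod_cast this
    have ham : |(t.1 : ℝ)| ≤ m := by
      rw [hm, ← Int.cast_abs]
      have : |t.1| ≤ mx t.1 t.2.1 t.2.2 := (le_max_left _ _).trans (le_max_right _ _)
      exact_mod_cast this
    have hlm : 1 ≤ Real.log m := by
      rw [Real.le_log_iff_exp_le (by linarith)]
      have := Real.exp_one_lt_d9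
      linarith
    have hmlow : (A : ℝ) / l ^ (U + 2) ≤ m := by
      rw [hT1, mem_filter, not_and] at hn1
      have := hn1 htc
      rw [not_lt] at this
      linarith
    have hm0 : 0 < m := by linarith
    have hd0 : 0 ≤ |(d : ℝ)| := abs_nonneg _
    have hdm : |(d : ℝ)| / A ≤ |(d : ℝ)| / m := div_le_div_of_nonneg_left hd0 hm0 hmA
    by_cases hcase : |(d : ℝ)| ≤ (A : ℝ) ^ 5
    · -- moderate constants
      have hAm : (A : ℝ) * l ^ (B1 + 1) + 1 ≤ m * Real.log m ^ B := by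
        have h4 := hcmp A hA2 m (by rw [← hl]; exact hmlow)
        rw [← hl] at h4
        refine h4.trans ?_
        apply mul_le_mul_of_nonneg_left _ (by linarith)
        exact pow_le_pow_right₀ hlm (by omega)
      have hlB : l ^ (B1 + 1) ≤ Real.log m ^ B := by
        have h4 : (A : ℝ) * l ^ (B1 + 1) ≤ A * Real.log m ^ B := by
          have h5 : m * Real.log m ^ B ≤ A * Real.log m ^ B := mul_le_mul_of_nonneg_right hmA (by positivity)
          linarith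
        exact le_of_mul_le_mul_left h4 (by linarith)
      have hsol : SolX (X d) t.1 t.2.1 t.2.2 d := by
        by_contra h5
        apply hn3
        rw [hT3, mem_biUnion]
        refine ⟨d, ?_, ?_⟩
        · rw [hD', mem_filter]
          exact ⟨hd, hcase⟩
        · rw [mem_filter]
          exact ⟨htc, hadm, h5⟩
      obtain ⟨p, q, r, hp1, hq1, hr1, heq, hpX, hqX, hrX⟩ := hsol
      have hXd := (hX d hcase).2.2.2.2
      have hmax : ((max p (max q r) : ℕ) : ℝ) ≤ X d := by exact_mod_cast (max_le hpX (max_le hqX hrX))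
      refine ⟨p, q, r, hp1, hq1, hr1, heq, ?_⟩
      rw [← hm]
      have h6 : |(d : ℝ)| / A * l ^ (B1 + 1) ≤ |(d : ℝ)| / m * Real.log m ^ B :=
        mul_le_mul hdm hlB (by positivity) (by positivity)
      calc ((max p (max q r) : ℕ) : ℝ) ≤ (|(d : ℝ)| / A + A) * l ^ (B1 + 1) + 1 := hmax.trans hXd
        _ = |(d : ℝ)| / A * l ^ (B1 + 1) + (A * l ^ (B1 + 1) + 1) := by ring
        _ ≤ |(d : ℝ)| / m * Real.log m ^ B + m * Real.log m ^ B := add_le_add h6 hAm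
        _ = (|(d : ℝ)| / m + m) * Real.log m ^ B := by ring
    · -- large constants
      push Not at hcase
      have hss : SB A (U + 1) t.1 t.2.1 t.2.2 d := by
        by_contra h5
        apply hn2
        rw [hT2, mem_filter]
        refine ⟨htc, ?_⟩
        rw [hT, mem_filter, mem_product, mem_product, mem_Icc, mem_Icc, mem_Icc]
        have k1 := Int.natAbs_pos.2 hadm.a_ne
        have k2 := Int.natAbs_pos.2 hadm.b_ne
        have k3 := Int.natAbs_pos.2 hadm.c_ne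
        simp only
        refine ⟨⟨⟨by omega, by omega⟩, ⟨by omega, by omega⟩, by omega, by omega⟩, ?_⟩
        intro h6
        exact h5 (h6 t.1 t.2.1 t.2.2 d hadm rfl rfl rfl)
      obtain ⟨s1, s2, s3, hsol⟩ := hss
      rw [← hl] at s1 s2 s3
      obtain ⟨p, q, r, hp1, hq1, hr1, heq, hmax⟩ := sol6_bound (one_le_pow₀ (by linarith)) s1 s2 s3 hadm.a_ne hadm.b_ne hadm.c_ne
        (by omega) (by omega) (by omega) (by omega) hsol
      refine ⟨p, q, r, hp1, hq1, hr1, heq, hmax.trans ?_⟩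
      rw [← hm]
      have hlB : l ^ (U + 3) ≤ Real.log m ^ B := by
        have h4 := hcmp' A hA2' m (by rw [← hl]; exact hmlow)
        rw [← hl] at h4
        have h5 : m * Real.log m ^ (U + 3 + (U + 1) + 3) ≤ A * Real.log m ^ B := by
          apply mul_le_mul hmA _ (by positivity) (by linarith)
          exact pow_le_pow_right₀ hlm (by omega)
        have h6 : (A : ℝ) * l ^ (U + 3) ≤ A * Real.log m ^ B := by linarith
        exact le_of_mul_le_mul_left h6 (by linarith)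
      have h4 : (A : ℝ) ^ 4 ≤ |(d : ℝ)| / A := by
        rw [le_div_iff₀ (by linarith)]
        calc (A : ℝ) ^ 4 * A = (A : ℝ) ^ 5 := by ring
          _ ≤ |(d : ℝ)| := hcase.le
      have h5 : 3 * l ^ (U + 2) + 1 ≤ l ^ (U + 3) := by
        have e : l ^ (U + 3) = l * l ^ (U + 2) := by ring
        rw [e]
        have : 1 ≤ l ^ (U + 2) := one_le_pow₀ (by linarith)
        nlinarith
      have hda : 0 ≤ |(d : ℝ)| / A := by positivity
      calc 3 * |(d : ℝ)| / A * l ^ (U + 1 + 1) + (A : ℝ) ^ 4 ≤ |(d : ℝ)| / A * (3 * l ^ (U + 2) + 1) := by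
            have e : 3 * |(d : ℝ)| / A * l ^ (U + 1 + 1) = |(d : ℝ)| / A * (3 * l ^ (U + 2)) := by ring
            rw [e]
            linarith
        _ ≤ |(d : ℝ)| / m * Real.log m ^ B := mul_le_mul hdm (h5.trans hlB) (by positivity) (by positivity)
        _ ≤ (|(d : ℝ)| / m + m) * Real.log m ^ B := by
            apply mul_le_mul_of_nonneg_right _ (by positivity)
            linarith
  have h4 := (card_le_card hsub).trans (card_union_le _ _)
  have h5 := card_union_le T2 T3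
  have h6 : (((Cube A).filter (fun t => ∃ d ∈ D, Admissible t.1 t.2.1 t.2.2 d ∧ ¬ Small B t.1 t.2.1 t.2.2 d)).card : ℝ) ≤
      T1.card + (T2.card + T3.card) := by
    exact_mod_cast (by omega : ((Cube A).filter (fun t => ∃ d ∈ D, Admissible t.1 t.2.1 t.2.2 d ∧
      ¬ Small B t.1 t.2.1 t.2.2 d)).card ≤ T1.card + (T2.card + T3.card))
  refine h6.trans ?_
  have h7 : (T1.card : ℝ) + (T2.card + T3.card) ≤ 51 * V := by linarith
  refine h7.trans ?_
  rw [hV, mul_div_assoc', div_le_div_iff₀ (hp _) (hp _)]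
  have h8 : 51 * l ^ U ≤ l ^ (U + 1) := by
    rw [pow_succ, mul_comm]
    exact mul_le_mul_of_nonneg_left (by linarith) (hp U).le
  calc 51 * (A : ℝ) ^ 3 * l ^ U = (A : ℝ) ^ 3 * (51 * l ^ U) := by ring
    _ ≤ (A : ℝ) ^ 3 * l ^ (U + 1) := mul_le_mul_of_nonneg_left h8 (by positivity)

end Pool.Agent.Q236.BK
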