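import Pool.Agent.Q236.RP.PrimeArgs

/-!
# Primes in a residue class which avoid one class for every prime factor of `n`
-/

set_option autoImplicit false

namespace Pool.Agent.Q236.BK

open Finset Filter
open Pool.Agent.Q236.RP
open H343E (piAP pi1)

/-- the sum of the reciprocals of the prime factors `> w` of `n` -/
noncomputable def sq (w n : ℕ) : ℝ := ∑ p ∈ n.primeFactors.filter (fun p => w < p), 1 / (p : ℝ)

lemma class_card (R m : ℕ) (hm : 1 ≤ m) (s : Finset ℕ) (hs : ∀ r ∈ s, r ≤ R) (v : ℕ)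
    (hv : ∀ r ∈ s, r ≡ v [MOD m]) : (s.card : ℝ) ≤ R / m + 1 := by
  have h1 : s.card ≤ (range (R / m + 1)).card := by
    apply card_le_card_of_injOn (fun r => r / m)
    · intro r hr
      rw [mem_coe, mem_range]
      have := Nat.div_le_div_right (c := m) (hs r hr)
      simp only
      omega
    · intro r hr r' hr' h
      simp only at h
      have h2 : r % m = r' % m := (hv r hr).trans (hv r' hr').symm
      rw [← Nat.div_add_mod r m, ← Nat.div_add_mod r' m, h, h2]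
  rw [card_range] at h1
  have h2 : ((R / m : ℕ) : ℝ) ≤ R / m := Nat.cast_div_le
  have h3 : (s.card : ℝ) ≤ ((R / m + 1 : ℕ) : ℝ) := by exact_mod_cast h1
  push_cast at h3
  linarith

lemma omega_le (n : ℕ) (hn : n ≠ 0) : (n.primeFactors.card : ℝ) ≤ 2 * Real.log n := by
  have h1 : 2 ^ n.primeFactors.card ≤ n := by
    have h2 : 2 ^ n.primeFactors.card ≤ ∏ p ∈ n.primeFactors, p :=
      pow_card_le_prod _ _ _ (fun p hp => (Nat.prime_of_mem_primeFactors hp).two_le)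
    exact h2.trans (Nat.le_of_dvd (Nat.pos_of_ne_zero hn) (Nat.prod_primeFactors_dvd n))
  have h2 : (2 : ℝ) ^ n.primeFactors.card ≤ n := by exact_mod_cast h1
  have h3 := Real.log_le_log (by positivity) h2
  rw [Real.log_pow] at h3
  have h4 : (0.5 : ℝ) ≤ Real.log 2 := by
    have := Real.log_two_gt_d9
    linarith
  have h5 : (0 : ℝ) ≤ (n.primeFactors.card : ℝ) := Nat.cast_nonneg _
  nlinarith

/-- the primes `r ≤ R` of the class `u` modulo `Q` with `l ∣ d - c r` -/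
lemma one_bad (R Q u l : ℕ) (c d : ℤ) (hQ : 1 ≤ Q) (hl : l.Prime) (hlQ : ¬ l ∣ Q) (hlc : ¬ (l : ℤ) ∣ c) (hR : 4 ≤ R) :
    ((((Icc 1 R).filter (fun r => r.Prime ∧ r ≡ u [MOD Q])).filter (fun r : ℕ => (l : ℤ) ∣ d - c * (r : ℤ))).card : ℝ) ≤
      176 * R / (Real.log R * (Nat.totient Q : ℝ)) * (1 / l) + (Real.sqrt R + 1) := by
  obtain ⟨s, hs⟩ : ∃ s, s = ((Icc 1 R).filter (fun r => r.Prime ∧ r ≡ u [MOD Q])).filter (fun r : ℕ => (l : ℤ) ∣ d - c * (r : ℤ)) := ⟨_, rfl⟩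
  rw [← hs]
  have hRr : (4 : ℝ) ≤ R := by exact_mod_cast hR
  have hL0 : 0 < Real.log R := Real.log_pos (by linarith)
  have hφ0 : (0 : ℝ) < Nat.totient Q := by exact_mod_cast Nat.totient_pos.2 hQ
  have hlr : (2 : ℝ) ≤ l := by exact_mod_cast hl.two_le
  have hmem : ∀ r ∈ s, (1 ≤ r ∧ r ≤ R) ∧ r.Prime ∧ r ≡ u [MOD Q] ∧ (l : ℤ) ∣ d - c * (r : ℤ) := by
    intro r hr
    rw [hs, mem_filter, mem_filter, mem_Icc] at hr
    exact ⟨hr.1.1, hr.1.2.1, hr.1.2.2, hr.2⟩
  have hpos : 0 ≤ 176 * R / (Real.log R * (Nat.totient Q : ℝ)) * (1 / l) := by positivity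
  have hsq : 0 ≤ Real.sqrt R := Real.sqrt_nonneg _
  rcases s.eq_empty_or_nonempty with h0 | ⟨v, hv⟩
  · rw [h0, card_empty]
    push_cast
    linarith
  have hvm := hmem v hv
  have hcop : Q.Coprime l := ((Nat.Prime.coprime_iff_not_dvd hl).2 hlQ).symm
  have hlp : Prime (l : ℤ) := Nat.prime_iff_prime_int.1 hl
  have hcl : ∀ r ∈ s, r ≡ v [MOD Q * l] := by
    intro r hr
    have h1 := hmem r hr
    rw [← Nat.modEq_and_modEq_iff_modEq_mul hcop]
    refine ⟨h1.2.2.1.trans hvm.2.2.1.symm, ?_⟩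
    have h2 : (l : ℤ) ∣ c * ((v : ℤ) - r) := by
      have e : c * ((v : ℤ) - r) = (d - c * r) - (d - c * v) := by ring
      rw [e]
      exact dvd_sub h1.2.2.2 hvm.2.2.2
    exact Nat.modEq_iff_dvd.2 ((hlp.dvd_or_dvd h2).resolve_left hlc)
  have hQl1 : 1 ≤ Q * l := Nat.mul_pos hQ hl.pos
  by_cases hcase : (Q * l) ^ 2 ≤ R
  · have h1 := bt_int 0 R (Q * l) v hQl1 hcase hR
    rw [zero_add] at h1
    have h2 : s.card ≤ (((Ioc 0 R).filter Nat.Prime).filter (fun k => k ≡ v [MOD Q * l])).card := by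
      apply card_le_card
      intro r hr
      have h3 := hmem r hr
      rw [mem_filter, mem_filter, mem_Ioc]
      exact ⟨⟨⟨h3.1.1, h3.1.2⟩, h3.2.1⟩, hcl r hr⟩
    have h2r : (s.card : ℝ) ≤ ((((Ioc 0 R).filter Nat.Prime).filter (fun k => k ≡ v [MOD Q * l])).card : ℝ) := by exact_mod_cast h2
    have h3 : ((Nat.totient (Q * l) : ℕ) : ℝ) = Nat.totient Q * ((l : ℝ) - 1) := by
      rw [Nat.totient_mul hcop, Nat.totient_prime hl]
      push_cast [Nat.cast_sub hl.one_lt.le]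
      ring
    rw [h3] at h1
    have h4 : (s.card : ℝ) * (Nat.totient Q * ((l : ℝ) / 2)) ≤ 88 * R / Real.log R := by
      refine le_trans ?_ h1
      apply mul_le_mul h2r _ (by positivity) (Nat.cast_nonneg _)
      apply mul_le_mul_of_nonneg_left _ hφ0.le
      linarith
    have h5 : (s.card : ℝ) ≤ 176 * R / (Real.log R * (Nat.totient Q : ℝ)) * (1 / l) := by
      have hx : 0 < (Nat.totient Q : ℝ) * ((l : ℝ) / 2) := by positivity
      rw [← le_div_iff₀ hx] at h4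
      refine h4.trans (le_of_eq ?_)
      field_simp
      norm_num
    linarith
  · push Not at hcase
    have h1 := class_card R (Q * l) hQl1 s (fun r hr => (hmem r hr).1.2) v hcl
    have h2 : (R : ℝ) / ((Q * l : ℕ) : ℝ) ≤ Real.sqrt R := by
      have h3 : Real.sqrt R ≤ ((Q * l : ℕ) : ℝ) := by
        apply Real.sqrt_le_iff.2
        refine ⟨Nat.cast_nonneg _, ?_⟩
        exact_mod_cast hcase.le
      have h4 : 0 < ((Q * l : ℕ) : ℝ) := by exact_mod_cast hQl1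
      rw [div_le_iff₀ h4]
      calc (R : ℝ) = Real.sqrt R * Real.sqrt R := (Real.mul_self_sqrt (by linarith)).symm
        _ ≤ Real.sqrt R * ((Q * l : ℕ) : ℝ) := mul_le_mul_of_nonneg_left h3 hsq
    linarith

open Classical in
/-- the good primes of a residue class -/
noncomputable def Gr (R Q u z n : ℕ) (c d : ℤ) : Finset ℕ :=
  (Icc 1 R).filter (fun r => r.Prime ∧ z < r ∧ r ≡ u [MOD Q] ∧ ∀ l : ℕ, l.Prime → l ∣ n → ¬ l ∣ Q → ¬ (l : ℤ) ∣ d - c * (r : ℤ))

open Classical in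
lemma mem_Gr {R Q u z n : ℕ} {c d : ℤ} {r : ℕ} : r ∈ Gr R Q u z n c d ↔ (1 ≤ r ∧ r ≤ R) ∧ r.Prime ∧ z < r ∧ r ≡ u [MOD Q] ∧
    ∀ l : ℕ, l.Prime → l ∣ n → ¬ l ∣ Q → ¬ (l : ℤ) ∣ d - c * (r : ℤ) := by
  unfold Gr
  rw [mem_filter, mem_Icc]

theorem cnt (C : ℕ) : ∃ R0 : ℕ, 4 ≤ R0 ∧ ∀ R : ℕ, R0 ≤ R → ∀ Q u n w z : ℕ, ∀ c d : ℤ, 1 ≤ Q → (Q : ℝ) ≤ Real.log R ^ C →
    u.Coprime Q → n ≠ 0 → (n : ℝ) ≤ (R : ℝ) ^ 4 → sq w n ≤ 1 / 1000 → (∀ l : ℕ, l.Prime → l ∣ n → l ≤ w → l ∣ Q) →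
    (∀ l : ℕ, l.Prime → l ∣ n → (l : ℤ) ∣ c → ¬ (l : ℤ) ∣ d) → 100 * (z : ℝ) * (Q * Real.log R) ≤ R →
    (R : ℝ) / (8 * (Q * Real.log R)) ≤ (Gr R Q u z n c d).card := by
  obtain ⟨x0, hsw⟩ := sw_pow C (C + 3)
  obtain ⟨y1, hy12, hy1⟩ := pi_lower
  have hev := (ev_log_ge 10).and (ev_pow_log (2 * (2 * C + 6)))
  obtain ⟨y2, hy2⟩ := eventually_atTop.1 hev
  refine ⟨max (max x0 4) (max y1 y2), (le_max_right _ _).trans (le_max_left _ _), ?_⟩
  intro R hR Q u n w z c d hQ hQL hu hn hnR hsn hw hcd hz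
  have hRx : x0 ≤ R := ((le_max_left _ _).trans (le_max_left _ _)).trans hR
  have hR4 : 4 ≤ R := ((le_max_right _ _).trans (le_max_left _ _)).trans hR
  have hRy : y1 ≤ R := ((le_max_left _ _).trans (le_max_right _ _)).trans hR
  obtain ⟨hL10, hLR⟩ := hy2 R (((le_max_right _ _).trans (le_max_right _ _)).trans hR)
  have hS := hsw R hRx Q u hQ hQL hu
  have hpi := hy1 R hRy
  obtain ⟨L, hL⟩ : ∃ L, L = Real.log (R : ℝ) := ⟨_, rfl⟩
  rw [← hL] at hL10 hLR hS hpi hQL hz ⊢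
  have hL0 : 0 < L := by linarith
  have hR0 : (0 : ℝ) < R := by exact_mod_cast (by omega : 0 < R)
  have hRr4 : (4 : ℝ) ≤ R := by exact_mod_cast hR4
  obtain ⟨φ, hφ⟩ : ∃ φ : ℝ, φ = (Nat.totient Q : ℝ) := ⟨_, rfl⟩
  have hφ1 : 1 ≤ φ := by rw [hφ]; exact_mod_cast Nat.totient_pos.2 hQ
  have hφQ : φ ≤ Q := by rw [hφ]; exact_mod_cast Nat.totient_le Q
  have hQ1 : (1 : ℝ) ≤ Q := by exact_mod_cast hQ
  rw [← hφ] at hS
  -- the unit
  obtain ⟨E, hE⟩ : ∃ E : ℝ, E = R / (L * φ) := ⟨_, rfl⟩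
  have hE0 : 0 < E := by rw [hE]; positivity
  -- the primes of the class
  obtain ⟨N0, hN0⟩ : ∃ N0, N0 = (Icc 1 R).filter (fun r => r.Prime ∧ r ≡ u [MOD Q]) := ⟨_, rfl⟩
  have hN0c : (49 : ℝ) / 100 * E ≤ N0.card := by
    have h1 : piAP R Q u = (N0.card : ℝ) := by rw [hN0]; rfl
    rw [h1] at hS
    have h2 := (abs_le.1 hS).1
    have h3 : (1 : ℝ) / 2 * E ≤ pi1 R / φ := by
      rw [le_div_iff₀ (by linarith)]
      refine le_trans (le_of_eq ?_) hpi
      rw [hE]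
      field_simp
    have h4 : (R : ℝ) / L ^ (C + 3) ≤ 1 / 100 * E := by
      rw [hE]
      have h5 : 100 * (L * φ) ≤ L ^ (C + 3) := by
        have h6 : φ ≤ L ^ C := hφQ.trans hQL
        have h7 : 100 * L ≤ L ^ 3 := by nlinarith [mul_nonneg hL0.le (by nlinarith : (0 : ℝ) ≤ L ^ 2 - 100)]
        calc 100 * (L * φ) = (100 * L) * φ := by ring
          _ ≤ L ^ 3 * L ^ C := mul_le_mul h7 h6 (by linarith) (by positivity)
          _ = L ^ (C + 3) := by rw [pow_add]; ring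
      calc (R : ℝ) / L ^ (C + 3) ≤ R / (100 * (L * φ)) := by
            apply div_le_div_of_nonneg_left hR0.le (by positivity) h5
        _ = 1 / 100 * (R / (L * φ)) := by field_simp
    linarith
  -- the prime factors of `n` to be avoided
  obtain ⟨F, hF⟩ : ∃ F, F = n.primeFactors.filter (fun l => ¬ l ∣ Q ∧ ¬ (l : ℤ) ∣ c) := ⟨_, rfl⟩
  have hsub : N0 ⊆ Gr R Q u z n c d ∪ (Icc 1 z ∪ F.biUnion (fun l => N0.filter (fun r : ℕ => (l : ℤ) ∣ d - c * (r : ℤ)))) := by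
    intro r hr
    by_cases h1 : r ∈ Gr R Q u z n c d
    · exact mem_union_left _ h1
    · apply mem_union_right
      have hr' := hr
      rw [hN0, mem_filter, mem_Icc] at hr
      by_cases h2 : z < r
      · apply mem_union_right
        rw [mem_biUnion]
        rw [mem_Gr] at h1
        have h3 : ¬ ∀ l : ℕ, l.Prime → l ∣ n → ¬ l ∣ Q → ¬ (l : ℤ) ∣ d - c * (r : ℤ) :=
          fun h4 => h1 ⟨hr.1, hr.2.1, h2, hr.2.2, h4⟩
        push Not at h3
        obtain ⟨l, hl, hln, hlQ, hld⟩ := h3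
        have hlc : ¬ (l : ℤ) ∣ c := by
          intro h4
          apply hcd l hl hln h4
          have := dvd_add hld (h4.mul_right (r : ℤ))
          rwa [sub_add_cancel] at this
        refine ⟨l, ?_, ?_⟩
        · rw [hF, mem_filter]
          exact ⟨Nat.mem_primeFactors.2 ⟨hl, hln, hn⟩, hlQ, hlc⟩
        · rw [mem_filter]
          exact ⟨hr', hld⟩
      · apply mem_union_left
        rw [mem_Icc]
        omega
  have hcard : (N0.card : ℝ) ≤ (Gr R Q u z n c d).card + (z + ∑ l ∈ F, ((N0.filter (fun r : ℕ => (l : ℤ) ∣ d - c * (r : ℤ))).card : ℝ)) := by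
    have h1 := (card_le_card hsub).trans (card_union_le _ _)
    have h2 := card_union_le (Icc 1 z) (F.biUnion (fun l => N0.filter (fun r : ℕ => (l : ℤ) ∣ d - c * (r : ℤ))))
    have h3 : (F.biUnion (fun l => N0.filter (fun r : ℕ => (l : ℤ) ∣ d - c * (r : ℤ)))).card ≤ ∑ l ∈ F, (N0.filter (fun r : ℕ => (l : ℤ) ∣ d - c * (r : ℤ))).card := card_biUnion_le
    rw [Nat.card_Icc, Nat.add_sub_cancel] at h2
    have h4 : N0.card ≤ (Gr R Q u z n c d).card + (z + ∑ l ∈ F, (N0.filter (fun r : ℕ => (l : ℤ) ∣ d - c * (r : ℤ))).card) := by omega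
    exact_mod_cast h4
  have hFc : (F.card : ℝ) ≤ 8 * L := by
    have h1 : (F.card : ℝ) ≤ n.primeFactors.card := by
      rw [hF]
      exact_mod_cast card_filter_le _ _
    have h2 := omega_le n hn
    have hn0 : (0 : ℝ) < n := by exact_mod_cast Nat.pos_of_ne_zero hn
    have h3 := Real.log_le_log hn0 hnR
    rw [Real.log_pow, ← hL] at h3
    push_cast at h3
    linarith
  have hFsum : ∑ l ∈ F, (1 : ℝ) / l ≤ 1 / 1000 := by
    refine le_trans ?_ hsn
    unfold sq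
    apply sum_le_sum_of_subset_of_nonneg
    · intro l hl
      rw [hF, mem_filter] at hl
      rw [mem_filter]
      refine ⟨hl.1, ?_⟩
      by_contra hcon
      push Not at hcon
      exact hl.2.1 (hw l (Nat.prime_of_mem_primeFactors hl.1) (Nat.dvd_of_mem_primeFactors hl.1) hcon)
    · intro l _ _
      positivity
  have hbad : ∑ l ∈ F, ((N0.filter (fun r : ℕ => (l : ℤ) ∣ d - c * (r : ℤ))).card : ℝ) ≤ 176 / 1000 * E + 8 * L * (Real.sqrt R + 1) := by
    calc ∑ l ∈ F, ((N0.filter (fun r : ℕ => (l : ℤ) ∣ d - c * (r : ℤ))).card : ℝ) ≤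
        ∑ l ∈ F, (176 * E * (1 / l) + (Real.sqrt R + 1)) := by
          refine sum_le_sum fun l hl => ?_
          rw [hF, mem_filter] at hl
          have h1 := one_bad R Q u l c d hQ (Nat.prime_of_mem_primeFactors hl.1) hl.2.1 hl.2.2 hR4
          rw [← hN0, ← hL, ← hφ] at h1
          refine h1.trans (le_of_eq ?_)
          rw [hE]
          ring
      _ = 176 * E * ∑ l ∈ F, (1 : ℝ) / l + F.card * (Real.sqrt R + 1) := by
          rw [sum_add_distrib, ← mul_sum, sum_const, nsmul_eq_mul]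
      _ ≤ 176 * E * (1 / 1000) + 8 * L * (Real.sqrt R + 1) := by
          have h1 : 0 ≤ Real.sqrt R + 1 := by positivity
          exact add_le_add (mul_le_mul_of_nonneg_left hFsum (by positivity)) (mul_le_mul_of_nonneg_right hFc h1)
      _ = _ := by ring
  -- the square root is small
  have hsq : 8 * L * (Real.sqrt R + 1) ≤ 1 / 100 * E := by
    have hs1 : 1 ≤ Real.sqrt R := Real.one_le_sqrt.2 (by linarith)
    have h1 : L ^ (2 * C + 6) ≤ Real.sqrt R := by
      apply Real.le_sqrt_of_sq_le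
      rw [← pow_mul, mul_comm (2 * C + 6) 2]
      exact hLR
    have h2 : 1600 * (L ^ 2 * φ) ≤ L ^ (2 * C + 6) := by
      have h6 : φ ≤ L ^ C := hφQ.trans hQL
      have h7 : (1600 : ℝ) ≤ L ^ 4 := by
        have : (10 : ℝ) ^ 4 ≤ L ^ 4 := pow_le_pow_left₀ (by norm_num) hL10 4
        linarith [this, show (10 : ℝ) ^ 4 = 10000 by norm_num]
      have h8 : L ^ C ≤ L ^ (2 * C) := pow_le_pow_right₀ (by linarith) (by omega)
      calc 1600 * (L ^ 2 * φ) ≤ L ^ 4 * (L ^ 2 * L ^ (2 * C)) := by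
            apply mul_le_mul h7 _ (by positivity) (by positivity)
            exact mul_le_mul_of_nonneg_left (h6.trans h8) (by positivity)
        _ = L ^ (2 * C + 6) := by rw [← pow_add, ← pow_add]; ring_nf
    have h3 : Real.sqrt R * Real.sqrt R = R := Real.mul_self_sqrt hR0.le
    have h4 : 8 * L * (Real.sqrt R + 1) * (100 * (L * φ)) ≤ R := by
      calc 8 * L * (Real.sqrt R + 1) * (100 * (L * φ)) = 800 * (L ^ 2 * φ) * (Real.sqrt R + 1) := by ring
        _ ≤ 800 * (L ^ 2 * φ) * (2 * Real.sqrt R) := by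
            apply mul_le_mul_of_nonneg_left _ (by positivity)
            linarith
        _ = (1600 * (L ^ 2 * φ)) * Real.sqrt R := by ring
        _ ≤ Real.sqrt R * Real.sqrt R := mul_le_mul_of_nonneg_right (h2.trans h1) (Real.sqrt_nonneg _)
        _ = R := h3
    rw [hE]
    have h5 : 0 < L * φ := by positivity
    rw [show (1 : ℝ) / 100 * (R / (L * φ)) = R / (100 * (L * φ)) by field_simp, le_div_iff₀ (by positivity)]
    exact h4
  have hzE : (z : ℝ) ≤ 1 / 100 * E := by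
    rw [hE, show (1 : ℝ) / 100 * (R / (L * φ)) = R / (100 * (L * φ)) by field_simp, le_div_iff₀ (by positivity)]
    refine le_trans ?_ hz
    have h1 : L * φ ≤ Q * L := by nlinarith
    have h2 : (0 : ℝ) ≤ z := Nat.cast_nonneg _
    nlinarith
  have hfin : (1 : ℝ) / 4 * E ≤ (Gr R Q u z n c d).card := by linarith
  refine le_trans ?_ hfin
  rw [hE]
  have h1 : (R : ℝ) / (Q * L) ≤ R / (L * φ) := by
    apply div_le_div_of_nonneg_left hR0.le (by positivity)
    nlinarith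
  have h2 : (R : ℝ) / (8 * (Q * L)) = 1 / 8 * (R / (Q * L)) := by field_simp
  rw [h2]
  have h3 : 0 < (R : ℝ) / (Q * L) := by positivity
  linarith

end Pool.Agent.Q236.BK
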