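import Pool.Agent.Q236.BK.Cnt

/-!
# Exceptional pairs of coefficients
-/

set_option autoImplicit false

namespace Pool.Agent.Q236.BK

open Finset Filter
open Pool.Agent.Q236.RP

/-- pairs with a large common divisor -/
lemma e1 (A : ℕ) (G : ℝ) (hG : 0 < G) :
    (((Icc 1 A ×ˢ Icc 1 A).filter (fun t : ℕ × ℕ => G < (Nat.gcd t.1 t.2 : ℝ))).card : ℝ) ≤ 2 * (A : ℝ) ^ 2 / G := by
  have hsub : (Icc 1 A ×ˢ Icc 1 A).filter (fun t : ℕ × ℕ => G < (Nat.gcd t.1 t.2 : ℝ)) ⊆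
      (Ioo ⌊G⌋₊ (A + 1)).biUnion (fun g => ((Ioc 0 A).filter (fun x => g ∣ x)) ×ˢ ((Ioc 0 A).filter (fun x => g ∣ x))) := by
    intro t ht
    rw [mem_filter, mem_product, mem_Icc, mem_Icc] at ht
    rw [mem_biUnion]
    refine ⟨Nat.gcd t.1 t.2, ?_, ?_⟩
    · rw [mem_Ioo]
      constructor
      · exact (Nat.floor_lt hG.le).2 ht.2
      · have := Nat.le_of_dvd (by omega) (Nat.gcd_dvd_left t.1 t.2)
        omega
    · rw [mem_product, mem_filter, mem_filter, mem_Ioc, mem_Ioc]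
      exact ⟨⟨⟨by omega, by omega⟩, Nat.gcd_dvd_left _ _⟩, ⟨⟨by omega, by omega⟩, Nat.gcd_dvd_right _ _⟩⟩
  have h1 : (((Icc 1 A ×ˢ Icc 1 A).filter (fun t : ℕ × ℕ => G < (Nat.gcd t.1 t.2 : ℝ))).card : ℝ) ≤
      ∑ g ∈ Ioo ⌊G⌋₊ (A + 1), ((A / g : ℕ) : ℝ) ^ 2 := by
    have h2 := (card_le_card hsub).trans card_biUnion_le
    have h3 : ∑ g ∈ Ioo ⌊G⌋₊ (A + 1), (((Ioc 0 A).filter (fun x => g ∣ x)) ×ˢ ((Ioc 0 A).filter (fun x => g ∣ x))).card =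
        ∑ g ∈ Ioo ⌊G⌋₊ (A + 1), (A / g) ^ 2 := by
      refine sum_congr rfl fun g _ => ?_
      rw [card_product, Nat.Ioc_filter_dvd_card_eq_div, pow_two]
    rw [h3] at h2
    exact_mod_cast h2
  refine h1.trans ?_
  calc ∑ g ∈ Ioo ⌊G⌋₊ (A + 1), ((A / g : ℕ) : ℝ) ^ 2 ≤ ∑ g ∈ Ioo ⌊G⌋₊ (A + 1), (A : ℝ) ^ 2 * ((g : ℝ) ^ 2)⁻¹ := by
        refine sum_le_sum fun g _ => ?_
        have h2 : ((A / g : ℕ) : ℝ) ≤ A / g := Nat.cast_div_le
        calc ((A / g : ℕ) : ℝ) ^ 2 ≤ (A / g : ℝ) ^ 2 := pow_le_pow_left₀ (Nat.cast_nonneg _) h2 2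
          _ = (A : ℝ) ^ 2 * ((g : ℝ) ^ 2)⁻¹ := by rw [div_pow, div_eq_mul_inv]
    _ = (A : ℝ) ^ 2 * ∑ g ∈ Ioo ⌊G⌋₊ (A + 1), ((g : ℝ) ^ 2)⁻¹ := by rw [mul_sum]
    _ ≤ (A : ℝ) ^ 2 * (2 / ((⌊G⌋₊ : ℝ) + 1)) := by
        apply mul_le_mul_of_nonneg_left _ (by positivity)
        exact sum_Ioo_inv_sq_le _ _
    _ ≤ (A : ℝ) ^ 2 * (2 / G) := by
        apply mul_le_mul_of_nonneg_left _ (by positivity)
        apply div_le_div_of_nonneg_left (by norm_num) hG (Nat.lt_floor_add_one G).le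
    _ = 2 * (A : ℝ) ^ 2 / G := by ring

/-- a condition on one coordinate -/
lemma pair_card (A : ℕ) (P : ℕ → Prop) [DecidablePred P] (s : ℝ) (h : (((Icc 1 A).filter P).card : ℝ) ≤ s) :
    (((Icc 1 A ×ˢ Icc 1 A).filter (fun t : ℕ × ℕ => P t.1 ∨ P t.2)).card : ℝ) ≤ 2 * (A * s) := by
  have hsub : (Icc 1 A ×ˢ Icc 1 A).filter (fun t : ℕ × ℕ => P t.1 ∨ P t.2) ⊆
      (((Icc 1 A).filter P) ×ˢ Icc 1 A) ∪ (Icc 1 A ×ˢ ((Icc 1 A).filter P)) := by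
    intro t ht
    rw [mem_filter, mem_product] at ht
    rw [mem_union, mem_product, mem_product, mem_filter, mem_filter]
    rcases ht.2 with h1 | h1
    · exact Or.inl ⟨⟨ht.1.1, h1⟩, ht.1.2⟩
    · exact Or.inr ⟨ht.1.1, ⟨ht.1.2, h1⟩⟩
  have h1 := (card_le_card hsub).trans (card_union_le _ _)
  rw [card_product, card_product, Nat.card_Icc, Nat.add_sub_cancel] at h1
  have h2 : (((Icc 1 A ×ˢ Icc 1 A).filter (fun t : ℕ × ℕ => P t.1 ∨ P t.2)).card : ℝ) ≤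
      (((Icc 1 A).filter P).card : ℝ) * A + A * ((Icc 1 A).filter P).card := by exact_mod_cast h1
  have h3 : (0 : ℝ) ≤ A := Nat.cast_nonneg _
  nlinarith

/-- small coefficients -/
lemma e2 (A : ℕ) (s : ℝ) (hs : 0 ≤ s) : (((Icc 1 A).filter (fun a : ℕ => (a : ℝ) < s)).card : ℝ) ≤ s := by
  have h1 : ((Icc 1 A).filter (fun a : ℕ => (a : ℝ) < s)).card ≤ (Icc 1 ⌊s⌋₊).card := by
    apply card_le_card
    intro a ha
    rw [mem_filter, mem_Icc] at ha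
    rw [mem_Icc]
    exact ⟨ha.1.1, Nat.le_floor ha.2.le⟩
  rw [Nat.card_Icc, Nat.add_sub_cancel] at h1
  calc (((Icc 1 A).filter (fun a : ℕ => (a : ℝ) < s)).card : ℝ) ≤ (⌊s⌋₊ : ℝ) := by exact_mod_cast h1
    _ ≤ s := Nat.floor_le hs

lemma exp_sq_le (w n : ℕ) : Real.exp (w * sq w n) ≤ Eh (2 * w) w n := by
  unfold sq Eh
  rw [mul_sum, Real.exp_sum]
  apply Finset.prod_le_prod
  · intro p _
    exact (Real.exp_pos _).le
  · intro p hp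
    rw [mem_filter] at hp
    have hp0 : (0 : ℝ) < p := by exact_mod_cast (Nat.prime_of_mem_primeFactors hp.1).pos
    have hw : (w : ℝ) ≤ p := by exact_mod_cast hp.2.le
    obtain ⟨x, hx⟩ : ∃ x : ℝ, x = w * (1 / (p : ℝ)) := ⟨_, rfl⟩
    have hx0 : 0 ≤ x := by rw [hx]; positivity
    have hx1 : x ≤ 1 := by
      rw [hx, mul_one_div, div_le_one hp0]
      exact hw
    have h1 := Real.abs_exp_sub_one_sub_id_le (x := x) (by rw [abs_of_nonneg hx0]; exact hx1)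
    have h2 := (abs_le.1 h1).2
    have e : (1 : ℝ) + ((2 * w : ℕ) : ℝ) / p = 1 + 2 * x := by
      rw [hx]
      push_cast
      ring
    rw [e, ← hx]
    nlinarith

/-- coefficients with many prime factors `> w` -/
lemma e3 (A w : ℕ) (hw : 1 ≤ w) (δ : ℝ) :
    (((Icc 1 A).filter (fun a : ℕ => δ < sq w a)).card : ℝ) ≤ A * (Real.exp 2 * Real.exp (-(w * δ))) := by
  have h1 : ∑ a ∈ Icc 1 A, Real.exp (w * sq w a) ≤ A * Real.exp 2 := by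
    have h2 := Eh_avg (2 * w) w A hw
    have hw0 : (w : ℝ) ≠ 0 := by exact_mod_cast (by omega : w ≠ 0)
    have e : ((2 * w : ℕ) : ℝ) / w = 2 := by
      push_cast
      field_simp
    rw [e, sum_sub_distrib, sum_const, Nat.card_Icc, Nat.add_sub_cancel, nsmul_eq_mul, mul_one] at h2
    have h3 : ∑ a ∈ Icc 1 A, Real.exp (w * sq w a) ≤ ∑ a ∈ Icc 1 A, Eh (2 * w) w a := sum_le_sum fun a _ => exp_sq_le w a
    have h4 : (A : ℝ) * (Real.exp 2 - 1) = A * Real.exp 2 - A := by ring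
    linarith
  have h2 : (((Icc 1 A).filter (fun a : ℕ => δ < sq w a)).card : ℝ) * Real.exp (w * δ) ≤ ∑ a ∈ Icc 1 A, Real.exp (w * sq w a) := by
    calc (((Icc 1 A).filter (fun a : ℕ => δ < sq w a)).card : ℝ) * Real.exp (w * δ) =
        ∑ a ∈ (Icc 1 A).filter (fun a : ℕ => δ < sq w a), Real.exp (w * δ) := by rw [sum_const, nsmul_eq_mul]
      _ ≤ ∑ a ∈ (Icc 1 A).filter (fun a : ℕ => δ < sq w a), Real.exp (w * sq w a) := by
          refine sum_le_sum fun a ha => ?_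
          rw [mem_filter] at ha
          exact Real.exp_le_exp.2 (mul_le_mul_of_nonneg_left ha.2.le (Nat.cast_nonneg _))
      _ ≤ _ := sum_le_sum_of_subset_of_nonneg (filter_subset _ _) (fun a _ _ => (Real.exp_pos _).le)
  rw [Real.exp_neg]
  have h3 : 0 < Real.exp (w * δ) := Real.exp_pos _
  have h4 := h2.trans h1
  rw [← le_div_iff₀ h3] at h4
  refine h4.trans (le_of_eq ?_)
  rw [div_eq_mul_inv, mul_assoc]

/-- the members of `Bad g` over a pair of greatest common divisor `g` -/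
noncomputable def Fib (Bad : ℕ → Finset (ℕ × ℕ × ℤ)) (a b : ℕ) : Finset (ℕ × ℕ × ℤ) :=
  (Bad (Nat.gcd a b)).filter (fun t => Nat.gcd a b * t.1 = a ∧ Nat.gcd a b * t.2.1 = b)

lemma fib_sum (Bad : ℕ → Finset (ℕ × ℕ × ℤ)) (g : ℕ) (P : Finset (ℕ × ℕ)) (hP : ∀ t ∈ P, Nat.gcd t.1 t.2 = g) :
    ∑ t ∈ P, (Fib Bad t.1 t.2).card ≤ (Bad g).card := by
  have h1 : ∀ t ∈ P, (Fib Bad t.1 t.2).card =
      (((Bad g).filter (fun x => (g * x.1, g * x.2.1) ∈ P)).filter (fun x => (g * x.1, g * x.2.1) = t)).card := by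
    intro t ht
    unfold Fib
    rw [hP t ht]
    congr 1
    ext x
    rw [mem_filter, mem_filter, mem_filter]
    constructor
    · rintro ⟨h2, h3, h4⟩
      have e : ((g * x.1, g * x.2.1) : ℕ × ℕ) = t := Prod.ext h3 h4
      exact ⟨⟨h2, by rw [e]; exact ht⟩, e⟩
    · rintro ⟨⟨h2, _⟩, h3⟩
      rw [← h3]
      exact ⟨h2, rfl, rfl⟩
  rw [sum_congr rfl h1, ← card_eq_sum_card_fiberwise]
  · exact card_filter_le _ _
  · intro x hx
    rw [mem_coe, mem_filter] at hx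
    exact hx.2

/-- pairs with many bad constants -/
lemma e4 (Bad : ℕ → Finset (ℕ × ℕ × ℤ)) (A : ℕ) (G N θ : ℝ) (hG : 0 ≤ G) (hN : 0 ≤ N) (hθ : 0 < θ)
    (hB : ∀ g : ℕ, 1 ≤ g → g ≤ A → ((Bad g).card : ℝ) ≤ N) :
    (((Icc 1 A ×ˢ Icc 1 A).filter (fun t : ℕ × ℕ => (Nat.gcd t.1 t.2 : ℝ) ≤ G ∧ θ < ((Fib Bad t.1 t.2).card : ℝ))).card : ℝ) ≤
      G * N / θ := by
  obtain ⟨E, hE⟩ : ∃ E, E = (Icc 1 A ×ˢ Icc 1 A).filter (fun t : ℕ × ℕ => (Nat.gcd t.1 t.2 : ℝ) ≤ G ∧ θ < ((Fib Bad t.1 t.2).card : ℝ)) := ⟨_, rfl⟩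
  rw [← hE]
  have hmem : ∀ t ∈ E, (1 ≤ t.1 ∧ t.1 ≤ A) ∧ (Nat.gcd t.1 t.2 : ℝ) ≤ G ∧ θ < ((Fib Bad t.1 t.2).card : ℝ) := by
    intro t ht
    rw [hE, mem_filter, mem_product, mem_Icc] at ht
    exact ⟨ht.1.1, ht.2⟩
  have h1 : (E.card : ℝ) * θ ≤ ∑ t ∈ E, ((Fib Bad t.1 t.2).card : ℝ) := by
    rw [← nsmul_eq_mul, ← sum_const]
    exact sum_le_sum fun t ht => (hmem t ht).2.2.le
  have h2 : ∑ t ∈ E, ((Fib Bad t.1 t.2).card : ℝ) ≤ G * N := by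
    have h3 : ∑ t ∈ E, ((Fib Bad t.1 t.2).card : ℝ) =
        ∑ g ∈ Icc 1 ⌊G⌋₊, ∑ t ∈ E.filter (fun t => Nat.gcd t.1 t.2 = g), ((Fib Bad t.1 t.2).card : ℝ) := by
      rw [sum_fiberwise_of_maps_to]
      intro t ht
      rw [mem_Icc]
      have h4 := hmem t ht
      exact ⟨Nat.gcd_pos_of_pos_left _ (by omega), Nat.le_floor h4.2.1⟩
    rw [h3]
    calc ∑ g ∈ Icc 1 ⌊G⌋₊, ∑ t ∈ E.filter (fun t => Nat.gcd t.1 t.2 = g), ((Fib Bad t.1 t.2).card : ℝ) ≤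
        ∑ g ∈ Icc 1 ⌊G⌋₊, N := by
          refine sum_le_sum fun g hg => ?_
          rw [mem_Icc] at hg
          rcases (E.filter (fun t => Nat.gcd t.1 t.2 = g)).eq_empty_or_nonempty with h5 | ⟨t, ht⟩
          · rw [h5, sum_empty]
            exact hN
          · have h6 := fib_sum Bad g (E.filter (fun t => Nat.gcd t.1 t.2 = g)) (fun t ht => (mem_filter.1 ht).2)
            have h7 : g ≤ A := by
              rw [mem_filter] at ht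
              have h8 := hmem t ht.1
              rw [← ht.2]
              exact (Nat.le_of_dvd (by omega) (Nat.gcd_dvd_left _ _)).trans h8.1.2
            refine le_trans ?_ (hB g hg.1 h7)
            exact_mod_cast h6
      _ = (⌊G⌋₊ : ℝ) * N := by
          rw [sum_const, Nat.card_Icc, Nat.add_sub_cancel, nsmul_eq_mul]
      _ ≤ G * N := mul_le_mul_of_nonneg_right (Nat.floor_le hG) hN
  rw [le_div_iff₀ hθ]
  exact h1.trans h2

end Pool.Agent.Q236.BK
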