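import Pool.Agent.Q236.BK.Par

/-!
# One admissible equation
-/

set_option autoImplicit false

namespace Pool.Agent.Q236.BK

open Finset Filter

/-- the statement of `cnt` for one `R` -/
def Cnt (C R : ℕ) : Prop := ∀ Q u n w z : ℕ, ∀ c d : ℤ, 1 ≤ Q → (Q : ℝ) ≤ Real.log R ^ C →
    u.Coprime Q → n ≠ 0 → (n : ℝ) ≤ (R : ℝ) ^ 4 → sq w n ≤ 1 / 1000 → (∀ l : ℕ, l.Prime → l ∣ n → l ≤ w → l ∣ Q) →
    (∀ l : ℕ, l.Prime → l ∣ n → (l : ℤ) ∣ c → ¬ (l : ℤ) ∣ d) → 100 * (z : ℝ) * (Q * Real.log R) ≤ R →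
    (R : ℝ) / (8 * (Q * Real.log R)) ≤ (Gr R Q u z n c d).card

lemma good_c (X A U1 C R z w a b : ℕ) (θ M0 : ℝ) (Bad : ℕ → Finset (ℕ × ℕ × ℤ)) (c d : ℤ)
    (hL : 8 ≤ Real.log X) (hU : 2 ≤ U1) (hcnt : Cnt C R) (hlow : Low X (A / Nat.gcd a b) U1 (Bad (Nat.gcd a b)))
    (haA : a ≤ A) (hbA : b ≤ A) (hAX : 8 * (A : ℝ) ≤ X) (hRX : R ≤ X) (hR2 : 2 ≤ R) (hw : 2 ≤ w)
    (hM0 : ((Nat.gcd a b * (4 ^ w * Nat.gcd a b) : ℕ) : ℝ) ≤ M0) (hM1 : M0 ≤ Real.log R ^ C)
    (hM2 : 100 * (z : ℝ) * (M0 * Real.log R) ≤ R) (hM3 : θ + 1 ≤ R / (16 * (M0 * Real.log R)))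
    (hn : (A : ℝ) ^ 2 ≤ (R : ℝ) ^ 4) (hsa : sq w a ≤ 1 / 2000) (hsb : sq w b ≤ 1 / 2000)
    (hcA : |(c : ℝ)| ≤ A) (hd1 : 4 * (|(d : ℝ)| + A * R) * A ≤ X * (a * b)) (hd2 : 2 * (|(d : ℝ)| + A * R) ≤ A * X)
    (hadm : Adm a b c d) (hbad : ((BadR Bad R z a b c d).card : ℝ) ≤ θ) :
    (R : ℝ) / (16 * (M0 * Real.log R)) * (X / (16 * (A * Real.log X ^ 2))) ≤ (sols X a b c d).card := by
  classical
  obtain ⟨g, hg⟩ : ∃ g, g = Nat.gcd a b := ⟨_, rfl⟩
  have ha0 : 1 ≤ a := hadm.a0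
  have hb0 : 1 ≤ b := hadm.b0
  have hg0 : 1 ≤ g := by rw [hg]; exact Nat.gcd_pos_of_pos_left _ ha0
  obtain ⟨a1, ha1⟩ : ∃ a1, a1 = a / g := ⟨_, rfl⟩
  obtain ⟨b1, hb1⟩ : ∃ b1, b1 = b / g := ⟨_, rfl⟩
  have hga : g * a1 = a := by rw [ha1]; exact Nat.mul_div_cancel' (by rw [hg]; exact Nat.gcd_dvd_left _ _)
  have hgb : g * b1 = b := by rw [hb1]; exact Nat.mul_div_cancel' (by rw [hg]; exact Nat.gcd_dvd_right _ _)
  have hcop : a1.Coprime b1 := by
    rw [ha1, hb1, hg]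
    exact Nat.coprime_div_gcd_div_gcd (Nat.gcd_pos_of_pos_left _ ha0)
  have ha10 : 1 ≤ a1 := by
    rcases Nat.eq_zero_or_pos a1 with h | h
    · rw [h, mul_zero] at hga; omega
    · exact h
  have hb10 : 1 ≤ b1 := by
    rcases Nat.eq_zero_or_pos b1 with h | h
    · rw [h, mul_zero] at hgb; omega
    · exact h
  have hbadm : ∀ r : ℕ, r ∉ BadR Bad R z a b c d → (1 ≤ r ∧ r ≤ R) → r.Prime → z < r → ∀ y : ℤ,
      d - c * (r : ℤ) = (g : ℤ) * y → (a1, b1, y) ∉ Bad g := by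
    intro r h1 h2 h3 h4 y h5 h6
    apply h1
    rw [mem_BadR, ← hg, ← ha1, ← hb1]
    exact ⟨h2, h3, h4, y, h5, h6⟩
  rw [← hg] at hlow hM0
  -- the class
  have hadm' : Adm (g * a1) (g * b1) c d := by rw [hga, hgb]; exact hadm
  obtain ⟨u, hu, hloc⟩ := loc g a1 b1 c d hcop hadm' (SS w g) (SS_prime w g)
    (by unfold SS; rw [mem_union, mem_filter, mem_range]; exact Or.inl ⟨by omega, Nat.prime_two⟩)
    (by intro l hl hlg; unfold SS; rw [mem_union]; exact Or.inr (Nat.mem_primeFactors.2 ⟨hl, hlg, by omega⟩))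
  obtain ⟨Q, hQ⟩ : ∃ Q, Q = g * ∏ l ∈ SS w g, l := ⟨_, rfl⟩
  rw [← hQ] at hu hloc
  have hQ1 : 1 ≤ Q := by
    rw [hQ]
    apply Nat.mul_pos hg0
    exact prod_pos fun l hl => (SS_prime w g l hl).pos
  have hQM : (Q : ℝ) ≤ M0 := by
    refine le_trans ?_ hM0
    have : Q ≤ g * (4 ^ w * g) := by
      rw [hQ]
      exact Nat.mul_le_mul_left g (SS_prod w g hg0)
    exact_mod_cast this
  have hQr : (1 : ℝ) ≤ Q := by exact_mod_cast hQ1
  have hM00 : 0 < M0 := by linarith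
  have hRr : (2 : ℝ) ≤ R := by exact_mod_cast hR2
  have hLR : 0 < Real.log R := Real.log_pos (by linarith)
  have hSQ : ∀ l : ℕ, l.Prime → l ∣ Q → l ∈ SS w g := by
    intro l hl hlQ
    rw [hQ] at hlQ
    rcases (Nat.Prime.dvd_mul hl).1 hlQ with h | h
    · unfold SS
      rw [mem_union]
      exact Or.inr (Nat.mem_primeFactors.2 ⟨hl, h, by omega⟩)
    · obtain ⟨m, hm, hlm⟩ := (hl.prime.dvd_finsetProd_iff _).1 h
      have := (Nat.prime_dvd_prime_iff_eq hl (SS_prime w g m hm)).1 hlm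
      rw [this]
      exact hm
  have hab0 : a1 * b1 ≠ 0 := Nat.mul_ne_zero (by omega) (by omega)
  have ha1A : a1 ≤ A := le_trans (by rw [← hga]; exact Nat.le_mul_of_pos_left _ hg0) haA
  have hb1A : b1 ≤ A := le_trans (by rw [← hgb]; exact Nat.le_mul_of_pos_left _ hg0) hbA
  have hG := hcnt Q u (a1 * b1) w z c d hQ1 (hQM.trans hM1) hu hab0 (by
      refine le_trans ?_ hn
      rw [pow_two]
      push_cast
      exact mul_le_mul (by exact_mod_cast ha1A) (by exact_mod_cast hb1A) (Nat.cast_nonneg _) (Nat.cast_nonneg _)) (by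
      have h1 := sq_mul_le w a1 b1 g (by omega) (by omega)
      rw [hga, hgb] at h1
      linarith) (by
      intro l hl _ hlw
      rw [hQ]
      apply Dvd.dvd.mul_left
      apply dvd_prod_of_mem (fun m : ℕ => m)
      unfold SS
      rw [mem_union, mem_filter, mem_range]
      exact Or.inl ⟨by omega, hl⟩) (by
      intro l hl hlab hlc
      rcases (Nat.Prime.dvd_mul hl).1 hlab with h | h
      · exact hadm.dac l hl (by rw [← hga]; exact h.mul_left _) hlc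
      · exact hadm.dbc l hl (by rw [← hgb]; exact h.mul_left _) hlc) (by
      refine le_trans ?_ hM2
      apply mul_le_mul_of_nonneg_left _ (by positivity)
      exact mul_le_mul_of_nonneg_right hQM hLR.le)
  -- the good primes
  obtain ⟨Rs, hRs⟩ : ∃ Rs, Rs = (Gr R Q u z (a1 * b1) c d).filter (fun r => r ∉ BadR Bad R z a b c d ∧ d - c * (r : ℤ) ≠ 0) := ⟨_, rfl⟩
  have hRscard : (R : ℝ) / (16 * (M0 * Real.log R)) ≤ Rs.card := by
    have hsub : Gr R Q u z (a1 * b1) c d ⊆ Rs ∪ (BadR Bad R z a b c d ∪ (Icc 1 R).filter (fun r : ℕ => d - c * (r : ℤ) = 0)) := by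
      intro r hr
      rw [mem_union, mem_union, hRs, mem_filter, mem_filter, mem_Icc]
      by_cases h1 : r ∈ BadR Bad R z a b c d
      · exact Or.inr (Or.inl h1)
      · by_cases h2 : d - c * (r : ℤ) = 0
        · exact Or.inr (Or.inr ⟨(mem_Gr.1 hr).1, h2⟩)
        · exact Or.inl ⟨hr, h1, h2⟩
    have hone : ((Icc 1 R).filter (fun r : ℕ => d - c * (r : ℤ) = 0)).card ≤ 1 := by
      rw [card_le_one]
      intro r hr r' hr'
      rw [mem_filter] at hr hr'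
      have h1 : c * (r : ℤ) = c * (r' : ℤ) := by linarith [hr.2, hr'.2]
      exact_mod_cast mul_left_cancel₀ hadm.c0 h1
    have h1 := (card_le_card hsub).trans (card_union_le _ _)
    have h2 := card_union_le (BadR Bad R z a b c d) ((Icc 1 R).filter (fun r : ℕ => d - c * (r : ℤ) = 0))
    have h3 : ((Gr R Q u z (a1 * b1) c d).card : ℝ) ≤ Rs.card + ((BadR Bad R z a b c d).card + 1) := by
      exact_mod_cast (by omega : (Gr R Q u z (a1 * b1) c d).card ≤ Rs.card + ((BadR Bad R z a b c d).card + 1))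
    have h4 : (R : ℝ) / (8 * (M0 * Real.log R)) ≤ R / (8 * (Q * Real.log R)) := by
      apply div_le_div_of_nonneg_left (by linarith) (by positivity)
      apply mul_le_mul_of_nonneg_left _ (by norm_num)
      exact mul_le_mul_of_nonneg_right hQM hLR.le
    have h5 : (R : ℝ) / (8 * (M0 * Real.log R)) = 2 * (R / (16 * (M0 * Real.log R))) := by
      field_simp
      norm_num
    linarith
  have hsum := sols_ge X a b c d Rs (by
    intro r hr
    rw [hRs, mem_filter, mem_Gr] at hr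
    rw [mem_Icc]
    exact ⟨⟨hr.1.1.1, hr.1.1.2.trans hRX⟩, hr.1.2.1⟩) (X / (16 * (A * Real.log X ^ 2))) (by
    intro r hr
    rw [hRs, mem_filter, mem_Gr] at hr
    obtain ⟨⟨hr1, hrp, hrz, hru, hrl⟩, hrb, hr0⟩ := hr
    obtain ⟨y, hy, hyl, hy2⟩ := hloc r hru
    have hy0 : y ≠ 0 := by
      intro h
      apply hr0
      rw [hy, h, mul_zero]
    have hly : ∀ l : ℕ, l.Prime → l ∣ a1 * b1 → ¬ (l : ℤ) ∣ y := by
      intro l hl hlab
      by_cases hlQ : l ∣ Q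
      · exact hyl l (hSQ l hl hlQ) hlab
      · intro h
        apply hrl l hl hlab hlQ
        rw [hy]
        exact h.mul_left _
    have hcopr : ∀ x : ℕ, x ∣ a1 * b1 → x.Coprime y.natAbs := by
      intro x hx
      by_contra hcon
      obtain ⟨l, hl, hl1, hl2⟩ := Nat.Prime.not_coprime_iff_dvd.1 hcon
      exact hly l hl (hl1.trans hx) (Int.natCast_dvd.2 hl2)
    have hrR : (r : ℝ) ≤ R := by exact_mod_cast hr1.2
    have habs : |(d : ℝ) - c * r| ≤ |(d : ℝ)| + A * R := by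
      refine (abs_sub _ _).trans ?_
      rw [abs_mul, Nat.abs_cast]
      have : |(c : ℝ)| * r ≤ A * R := mul_le_mul hcA hrR (Nat.cast_nonneg _) (Nat.cast_nonneg _)
      linarith
    have h1 := per_r X A g a1 b1 U1 r (Bad g) c d y hL hU hlow hg0 ha10 hb10 hcop (by rw [hga]; exact haA) (by rw [hgb]; exact hbA)
      hAX hy hy0 (hcopr a1 (dvd_mul_right _ _)) (hcopr b1 (dvd_mul_left _ _)) hy2 (hbadm r hrb hr1 hrp hrz y hy) (by
        have e1 : (g : ℝ) * a1 = a := by exact_mod_cast hga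
        have e2 : (g : ℝ) * b1 = b := by exact_mod_cast hgb
        rw [e1, e2]
        refine le_trans ?_ hd1
        apply mul_le_mul_of_nonneg_right _ (Nat.cast_nonneg _)
        linarith) (by linarith)
    rw [hga, hgb] at h1
    exact h1)
  refine le_trans ?_ hsum
  exact mul_le_mul_of_nonneg_right hRscard (by positivity)

end Pool.Agent.Q236.BK
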