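import Mathlib

/-!
# The local conditions of the equation `a p - b q + c r = d`
-/

set_option autoImplicit false

namespace Pool.Agent.Q236.BK

open Finset

/-- the admissible equations `a p - b q + c r = d`, prime by prime -/
structure Adm (a b : ℕ) (c d : ℤ) : Prop where
  a0 : 1 ≤ a
  b0 : 1 ≤ b
  c0 : c ≠ 0
  par : (2 : ℤ) ∣ (a : ℤ) - b + c - d
  abc : ∀ l : ℕ, l.Prime → l ∣ a → l ∣ b → ¬ (l : ℤ) ∣ c
  dab : ∀ l : ℕ, l.Prime → l ∣ a → l ∣ b → ¬ (l : ℤ) ∣ d
  dac : ∀ l : ℕ, l.Prime → l ∣ a → (l : ℤ) ∣ c → ¬ (l : ℤ) ∣ d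
  dbc : ∀ l : ℕ, l.Prime → l ∣ b → (l : ℤ) ∣ c → ¬ (l : ℤ) ∣ d

lemma crt (S : Finset ℕ) (hS : ∀ l ∈ S, l.Prime) (T : ℕ → ℤ) : ∃ x : ℤ, ∀ l ∈ S, (l : ℤ) ∣ x - T l := by
  induction S using Finset.induction_on with
  | empty => exact ⟨0, by simp⟩
  | insert l S hl ih =>
    obtain ⟨x, hx⟩ := ih (fun m hm => hS m (mem_insert_of_mem hm))
    have hcop : IsCoprime (l : ℤ) (∏ m ∈ S, (m : ℤ)) := by
      apply IsCoprime.prod_right
      intro m hm
      rw [Nat.isCoprime_iff_coprime]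
      exact (Nat.coprime_primes (hS l (mem_insert_self _ _)) (hS m (mem_insert_of_mem hm))).2
        (by rintro rfl; exact hl hm)
    obtain ⟨y, z, hyz⟩ := hcop
    refine ⟨x * (y * l) + T l * (z * ∏ m ∈ S, (m : ℤ)), fun m hm => ?_⟩
    rcases mem_insert.1 hm with rfl | hm
    · have e : x * (y * m) + T m * (z * ∏ m ∈ S, (m : ℤ)) - T m = m * (x * y - T m * y) := by
        have : z * ∏ m ∈ S, (m : ℤ) = 1 - y * m := by linarith
        rw [this]
        ring
      rw [e]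
      exact dvd_mul_right _ _
    · have h1 : (m : ℤ) ∣ ∏ m ∈ S, (m : ℤ) := dvd_prod_of_mem (fun m : ℕ => (m : ℤ)) hm
      have e : x * (y * l) + T l * (z * ∏ m ∈ S, (m : ℤ)) - T m =
          (x - T m) + (∏ m ∈ S, (m : ℤ)) * (T l * z - x * z) := by
        have : y * (l : ℤ) = 1 - z * ∏ m ∈ S, (m : ℤ) := by linarith
        rw [this]
        ring
      rw [e]
      exact dvd_add (hx m hm) (h1.mul_right _)

lemma inv_mod (l : ℕ) (hl : l.Prime) (c : ℤ) (hc : ¬ (l : ℤ) ∣ c) : ∃ k : ℤ, (l : ℤ) ∣ c * k - 1 := by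
  have h1 : IsCoprime (l : ℤ) c := ((Nat.prime_iff_prime_int.1 hl).coprime_iff_not_dvd).2 hc
  obtain ⟨x, y, h⟩ := h1
  exact ⟨y, ⟨-x, by linarith⟩⟩

/-- one prime -/
lemma loc1 (g a1 b1 : ℕ) (c d u0 y0 : ℤ) (hcop : a1.Coprime b1) (h : Adm (g * a1) (g * b1) c d)
    (hy : d - c * u0 = g * y0) (l : ℕ) (hl : l.Prime) :
    ∃ t : ℤ, ¬ (l : ℤ) ∣ u0 + g * t ∧ (l ∣ a1 * b1 → ¬ (l : ℤ) ∣ y0 - c * t) ∧
      (l = 2 → ¬ l ∣ a1 * b1 → (l : ℤ) ∣ y0 - c * t) := by
  have hlp : Prime (l : ℤ) := Nat.prime_iff_prime_int.1 hl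
  by_cases hg : l ∣ g
  · have hgz : (l : ℤ) ∣ g := Int.natCast_dvd_natCast.2 hg
    have hc : ¬ (l : ℤ) ∣ c := h.abc l hl (hg.mul_right _) (hg.mul_right _)
    have hd : ¬ (l : ℤ) ∣ d := h.dab l hl (hg.mul_right _) (hg.mul_right _)
    have hu : ∀ t : ℤ, ¬ (l : ℤ) ∣ u0 + g * t := by
      intro t ht
      have h1 : (l : ℤ) ∣ u0 := by
        have := dvd_sub ht (hgz.mul_right t)
        rwa [add_sub_cancel_right] at this
      apply hd
      have e : d = c * u0 + g * y0 := by linarith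
      rw [e]
      exact dvd_add (h1.mul_left _) (hgz.mul_right _)
    obtain ⟨k, hk⟩ := inv_mod l hl c hc
    by_cases hab : l ∣ a1 * b1
    · refine ⟨(y0 - 1) * k, hu _, fun _ hcon => ?_, fun _ hn => absurd hab hn⟩
      have h1 : (l : ℤ) ∣ 1 := by
        have e : (1 : ℤ) = (y0 - c * ((y0 - 1) * k)) + (c * k - 1) * (y0 - 1) := by ring
        rw [e]
        exact dvd_add hcon (hk.mul_right _)
      exact hlp.not_dvd_one h1
    · refine ⟨y0 * k, hu _, fun hn => absurd hn hab, fun _ _ => ?_⟩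
      have e : y0 - c * (y0 * k) = (c * k - 1) * (-y0) := by ring
      rw [e]
      exact hk.mul_right _
  · have hgz : ¬ (l : ℤ) ∣ g := fun hn => hg (Int.natCast_dvd_natCast.1 hn)
    obtain ⟨k, hk⟩ := inv_mod l hl g hgz
    -- any value of `u` modulo `l` is possible
    have key : ∀ v : ℤ, ∃ t : ℤ, (l : ℤ) ∣ (u0 + g * t) - v ∧ ((l : ℤ) ∣ y0 - c * t ↔ (l : ℤ) ∣ d - c * v) := by
      intro v
      have h1 : (l : ℤ) ∣ (u0 + g * ((v - u0) * k)) - v := by
        have e : (u0 + g * ((v - u0) * k)) - v = (g * k - 1) * (v - u0) := by ring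
        rw [e]
        exact hk.mul_right _
      refine ⟨(v - u0) * k, h1, ?_⟩
      have e : (g : ℤ) * (y0 - c * ((v - u0) * k)) = (d - c * v) - c * ((u0 + g * ((v - u0) * k)) - v) := by
        have : (g : ℤ) * y0 = d - c * u0 := hy.symm
        linear_combination this
      constructor
      · intro h2
        have h3 := h2.mul_left (g : ℤ)
        rw [e] at h3
        have := dvd_add h3 (h1.mul_left c)
        rwa [sub_add_cancel] at this
      · intro h2
        have h3 : (l : ℤ) ∣ g * (y0 - c * ((v - u0) * k)) := by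
          rw [e]
          exact dvd_sub h2 (h1.mul_left c)
        exact (hlp.dvd_or_dvd h3).resolve_left hgz
    have hne : ∀ v t : ℤ, ¬ (l : ℤ) ∣ v → (l : ℤ) ∣ (u0 + g * t) - v → ¬ (l : ℤ) ∣ u0 + g * t := by
      intro v t hv h1 h2
      apply hv
      have := dvd_sub h2 h1
      rwa [sub_sub_cancel] at this
    have h1n : ¬ (l : ℤ) ∣ 1 := hlp.not_dvd_one
    by_cases hdc : (l : ℤ) ∣ d - c
    · by_cases hl2 : l = 2
      · subst hl2
        obtain ⟨t, ht1, ht2⟩ := key 1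
        rw [mul_one] at ht2
        refine ⟨t, hne 1 t h1n ht1, fun hab => ?_, fun _ _ => ht2.2 hdc⟩
        exfalso
        have hpar := h.par
        have h3 : (2 : ℤ) ∣ ((g * a1 : ℕ) : ℤ) - ((g * b1 : ℕ) : ℤ) := by
          have h4 : (2 : ℤ) ∣ d - c := hdc
          have e : ((g * a1 : ℕ) : ℤ) - ((g * b1 : ℕ) : ℤ) = (((g * a1 : ℕ) : ℤ) - ((g * b1 : ℕ) : ℤ) + c - d) + (d - c) := by ring
          rw [e]
          exact dvd_add hpar h4
        have h5 : (2 : ℤ) ∣ (a1 : ℤ) - b1 := by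
          have e : ((g * a1 : ℕ) : ℤ) - ((g * b1 : ℕ) : ℤ) = (g : ℤ) * ((a1 : ℤ) - b1) := by push_cast; ring
          rw [e] at h3
          exact (hlp.dvd_or_dvd (by exact_mod_cast h3)).resolve_left hgz
        rcases (Nat.Prime.dvd_mul hl).1 hab with h6 | h6
        · have h7 : 2 ∣ b1 := by
            have h6z : (2 : ℤ) ∣ a1 := by exact_mod_cast h6
            have : (2 : ℤ) ∣ (b1 : ℤ) := by
              have := dvd_sub h6z h5
              rwa [sub_sub_cancel] at this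
            exact_mod_cast this
          exact Nat.not_coprime_of_dvd_of_dvd (by norm_num) h6 h7 hcop
        · have h7 : 2 ∣ a1 := by
            have h6z : (2 : ℤ) ∣ b1 := by exact_mod_cast h6
            have : (2 : ℤ) ∣ (a1 : ℤ) := by
              have := dvd_add h5 h6z
              rwa [sub_add_cancel] at this
            exact_mod_cast this
          exact Nat.not_coprime_of_dvd_of_dvd (by norm_num) h7 h6 hcop
      · by_cases hab : l ∣ a1 * b1
        · obtain ⟨t, ht1, ht2⟩ := key 2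
          have h2n : ¬ (l : ℤ) ∣ 2 := by
            intro h2
            have h3 : l ∣ 2 := by exact_mod_cast h2
            exact hl2 ((Nat.prime_dvd_prime_iff_eq hl Nat.prime_two).1 h3)
          refine ⟨t, hne 2 t h2n ht1, fun _ hcon => ?_, fun h2 => absurd h2 hl2⟩
          have h3 := ht2.1 hcon
          have h4 : (l : ℤ) ∣ c := by
            have := dvd_sub hdc h3
            have e : d - c - (d - c * 2) = c := by ring
            rwa [e] at this
          have h5 : (l : ℤ) ∣ d := by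
            have := dvd_add hdc h4
            rwa [sub_add_cancel] at this
          rcases (Nat.Prime.dvd_mul hl).1 hab with h6 | h6
          · exact h.dac l hl (h6.mul_left _) h4 h5
          · exact h.dbc l hl (h6.mul_left _) h4 h5
        · obtain ⟨t, ht1, _⟩ := key 1
          exact ⟨t, hne 1 t h1n ht1, fun h2 => absurd h2 hab, fun h2 => absurd h2 hl2⟩
    · obtain ⟨t, ht1, ht2⟩ := key 1
      rw [mul_one] at ht2
      refine ⟨t, hne 1 t h1n ht1, fun _ hcon => hdc (ht2.1 hcon), fun hl2 hab => ?_⟩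
      exfalso
      subst hl2
      apply hdc
      have ho : ∀ x : ℕ, ¬ 2 ∣ x → (2 : ℤ) ∣ (x : ℤ) - 1 := by intro x hx; omega
      have hab' : ¬ 2 ∣ a1 ∧ ¬ 2 ∣ b1 := ⟨fun h3 => hab (h3.mul_right _), fun h3 => hab (h3.mul_left _)⟩
      have hga : ¬ 2 ∣ g * a1 := fun h3 => ((Nat.Prime.dvd_mul hl).1 h3).elim hg hab'.1
      have hgb : ¬ 2 ∣ g * b1 := fun h3 => ((Nat.Prime.dvd_mul hl).1 h3).elim hg hab'.2
      have h3 := ho _ hga
      have h4 := ho _ hgb
      have h5 := h.par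
      have e : d - c = (((g * a1 : ℕ) : ℤ) - 1) - (((g * b1 : ℕ) : ℤ) - 1) -
          (((g * a1 : ℕ) : ℤ) - ((g * b1 : ℕ) : ℤ) + c - d) := by ring
      rw [e]
      exact_mod_cast dvd_sub (dvd_sub h3 h4) h5

/-- the good residue classes -/
lemma loc (g a1 b1 : ℕ) (c d : ℤ) (hcop : a1.Coprime b1) (h : Adm (g * a1) (g * b1) c d)
    (S : Finset ℕ) (hS : ∀ l ∈ S, l.Prime) (h2 : 2 ∈ S) (hg : ∀ l : ℕ, l.Prime → l ∣ g → l ∈ S) :
    ∃ u : ℕ, u.Coprime (g * ∏ l ∈ S, l) ∧ ∀ r : ℕ, r ≡ u [MOD g * ∏ l ∈ S, l] →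
      ∃ y : ℤ, d - c * r = g * y ∧ (∀ l ∈ S, l ∣ a1 * b1 → ¬ (l : ℤ) ∣ y) ∧ (2 : ℤ) ∣ a1 * b1 * y := by
  have hg0 : 0 < g := by
    have := h.a0
    exact Nat.pos_of_mul_pos_right (by omega : 0 < g * a1)
  have hgc : IsCoprime (g : ℤ) c := by
    rw [Int.isCoprime_iff_gcd_eq_one]
    by_contra hcon
    obtain ⟨l, hl, hld⟩ := Nat.exists_prime_and_dvd hcon
    have h3 : (l : ℤ) ∣ g := (Int.natCast_dvd_natCast.2 hld).trans (Int.gcd_dvd_left ..)
    have h4 : (l : ℤ) ∣ c := (Int.natCast_dvd_natCast.2 hld).trans (Int.gcd_dvd_right ..)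
    have h5 : l ∣ g := Int.natCast_dvd_natCast.1 h3
    exact h.abc l hl (h5.mul_right _) (h5.mul_right _) h4
  obtain ⟨x, y, hxy⟩ := hgc
  have hy0 : d - c * (d * y) = g * (d * x) := by linear_combination (-d) * hxy
  have h1 : ∀ l : ℕ, ∃ t : ℤ, l ∈ S → ¬ (l : ℤ) ∣ d * y + g * t ∧ (l ∣ a1 * b1 → ¬ (l : ℤ) ∣ d * x - c * t) ∧
      (l = 2 → ¬ l ∣ a1 * b1 → (l : ℤ) ∣ d * x - c * t) := by
    intro l
    by_cases hl : l ∈ S
    · obtain ⟨t, ht⟩ := loc1 g a1 b1 c d (d * y) (d * x) hcop h hy0 l (hS l hl)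
      exact ⟨t, fun _ => ht⟩
    · exact ⟨0, fun h3 => absurd h3 hl⟩
  choose T hT using h1
  obtain ⟨t, ht⟩ := crt S hS T
  obtain ⟨M, hM⟩ : ∃ M, M = ∏ l ∈ S, l := ⟨_, rfl⟩
  have hM0 : 0 < M := by rw [hM]; exact prod_pos fun l hl => (hS l hl).pos
  rw [← hM]
  have hQ0 : (0 : ℤ) < (g * M : ℕ) := by exact_mod_cast Nat.mul_pos hg0 hM0
  obtain ⟨u, hu⟩ : ∃ u : ℕ, u = ((d * y + g * t) % ((g * M : ℕ) : ℤ)).toNat := ⟨_, rfl⟩
  have huz : (u : ℤ) = (d * y + g * t) % ((g * M : ℕ) : ℤ) := by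
    rw [hu]
    exact Int.toNat_of_nonneg (Int.emod_nonneg _ hQ0.ne')
  have hlM : ∀ l ∈ S, (l : ℤ) ∣ (M : ℤ) := by
    intro l hl
    rw [hM]
    exact_mod_cast dvd_prod_of_mem (fun m : ℕ => m) hl
  -- every member of the class
  have hcl : ∀ r : ℕ, r ≡ u [MOD g * M] → ∃ k : ℤ, (r : ℤ) = d * y + g * t + (g * M : ℕ) * k := by
    intro r hr
    have h3 : ((g * M : ℕ) : ℤ) ∣ (r : ℤ) - u := (Nat.modEq_iff_dvd.1 hr.symm)
    obtain ⟨k1, hk1⟩ := h3
    have h4 := Int.emod_add_mul_ediv (d * y + g * t) ((g * M : ℕ) : ℤ)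
    rw [← huz] at h4
    exact ⟨k1 - (d * y + g * t) / ((g * M : ℕ) : ℤ), by linear_combination hk1 + h4⟩
  refine ⟨u, ?_, fun r hr => ?_⟩
  · by_contra hcon
    obtain ⟨l, hl, hld1, hld2⟩ := Nat.Prime.not_coprime_iff_dvd.1 hcon
    obtain ⟨k, hk⟩ := hcl u rfl
    have hlS : l ∈ S := by
      rcases (Nat.Prime.dvd_mul hl).1 hld2 with h3 | h3
      · exact hg l hl h3
      · rw [hM] at h3
        obtain ⟨m, hm, hlm⟩ := (hl.prime.dvd_finsetProd_iff _).1 h3
        have := (Nat.prime_dvd_prime_iff_eq hl (hS m hm)).1 hlm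
        rw [this]
        exact hm
    apply (hT l hlS).1
    have h3 : (l : ℤ) ∣ u := Int.natCast_dvd_natCast.2 hld1
    have h4 : (l : ℤ) ∣ (g * M : ℕ) := Int.natCast_dvd_natCast.2 hld2
    have h5 := ht l hlS
    have e : d * y + g * T l = (u : ℤ) - (g * M : ℕ) * k - g * (t - T l) := by linear_combination -hk
    rw [e]
    exact dvd_sub (dvd_sub h3 (h4.mul_right _)) (h5.mul_left _)
  · obtain ⟨k, hk⟩ := hcl r hr
    refine ⟨d * x - c * t - c * M * k, ?_, ?_, ?_⟩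
    · rw [hk]
      push_cast
      linear_combination hy0
    · intro l hl hab hcon
      apply (hT l hl).2.1 hab
      have e : d * x - c * T l = (d * x - c * t - c * M * k) + c * (t - T l) + M * (c * k) := by ring
      rw [e]
      exact dvd_add (dvd_add hcon ((ht l hl).mul_left _)) ((hlM l hl).mul_right _)
    · by_cases hab : 2 ∣ a1 * b1
      · have : (2 : ℤ) ∣ (a1 : ℤ) * b1 := by exact_mod_cast hab
        exact this.mul_right _
      · apply Dvd.dvd.mul_left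
        have h3 := (hT 2 h2).2.2 rfl hab
        have e : d * x - c * t - c * M * k = (d * x - c * T 2) - c * (t - T 2) - M * (c * k) := by ring
        rw [e]
        exact dvd_sub (dvd_sub (by exact_mod_cast h3) (by exact_mod_cast (ht 2 h2).mul_left c)) (by exact_mod_cast (hlM 2 h2).mul_right (c * k))

end Pool.Agent.Q236.BK
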