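import Pool.Agent.Q236.BK.Good

/-!
# Every constant `d`, almost all coefficients
-/

set_option autoImplicit false

namespace Pool.Agent.Q236.BK

open Finset Filter
open Pool.Agent.Q236.RP

open Classical in
theorem main (U : ℕ) : ∃ B X0 : ℕ, ∀ X : ℕ, X0 ≤ X → ∀ A : ℕ, 1 ≤ A → (A : ℝ) * Real.log X ^ B ≤ X →
    ∃ E ⊆ Icc 1 A ×ˢ Icc 1 A, (E.card : ℝ) ≤ (A : ℝ) ^ 2 / Real.log X ^ U ∧
      ∀ a b : ℕ, (a, b) ∈ Icc 1 A ×ˢ Icc 1 A → (a, b) ∉ E → ∀ d : ℤ, |(d : ℝ)| * Real.log X ^ B ≤ A * X →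
        (((Icc (-(A : ℤ)) A).filter (fun c : ℤ => Adm a b c d ∧
          ((sols X a b c d).card : ℝ) < (X : ℝ) ^ 2 / (A * Real.log X ^ B))).card : ℝ) ≤ A / Real.log X ^ U := by
  obtain ⟨h, hh⟩ : ∃ h : ℕ, h = U + 2 := ⟨_, rfl⟩
  obtain ⟨C1, hC1⟩ : ∃ C1 : ℕ, C1 = 3000 * (U + 2) := ⟨_, rfl⟩
  obtain ⟨K1, hK1⟩ : ∃ K1 : ℕ, K1 = 2 * h + 2 := ⟨_, rfl⟩
  obtain ⟨K0, hK0⟩ : ∃ K0 : ℕ, K0 = 2 * h + C1 := ⟨_, rfl⟩
  obtain ⟨U3, hU3⟩ : ∃ U3 : ℕ, U3 = K1 + K0 + 4 := ⟨_, rfl⟩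
  obtain ⟨U2, hU2⟩ : ∃ U2 : ℕ, U2 = U3 + U + 1 := ⟨_, rfl⟩
  obtain ⟨U1, hU1⟩ : ∃ U1 : ℕ, U1 = U2 + 2 * h := ⟨_, rfl⟩
  obtain ⟨B0, κ, X1, _, htri⟩ := Pool.Agent.Results.MP_bf63dc_nt.AlmostAllTriples.result U1 (by omega)
  obtain ⟨R0, hR04, hcnt⟩ := cnt (K0 + 1)
  obtain ⟨B, hB⟩ : ∃ B : ℕ, B = B0 + K1 + K0 + 10 := ⟨_, rfl⟩
  have hll : ∀ᶠ X : ℕ in atTop, 200 ≤ Real.log (Real.log X) :=
    (Real.tendsto_log_atTop.comp (Real.tendsto_log_atTop.comp (tendsto_natCast_atTop_atTop (R := ℝ)))).eventually_ge_atTop 200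
  have hev := (ev_log_ge (max (1000 : ℝ) (max (2 * 2 ^ K0) (R0 + 1)))).and ((ev_pow_log (2 * (2 * K1 + K0 + 10))).and
    (hll.and (eventually_ge_atTop X1)))
  obtain ⟨X0, hX0⟩ := eventually_atTop.1 hev
  refine ⟨B, X0, ?_⟩
  intro X hX A hA hAX
  obtain ⟨hLmax, hLX, hll, hXX1⟩ := hX0 X hX
  obtain ⟨L, hLd⟩ : ∃ L, L = Real.log (X : ℝ) := ⟨_, rfl⟩
  rw [← hLd] at hLmax hLX hll hAX
  have hL1000 : 1000 ≤ L := (le_max_left _ _).trans hLmax
  have hL2K : 2 * 2 ^ K0 ≤ L := ((le_max_left _ _).trans (le_max_right _ _)).trans hLmax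
  have hLR0 : (R0 : ℝ) + 1 ≤ L := ((le_max_right _ _).trans (le_max_right _ _)).trans hLmax
  have hL0 : 0 < L := by linarith
  have hL1 : 1 ≤ L := by linarith
  have hpow : ∀ i j : ℕ, i ≤ j → L ^ i ≤ L ^ j := fun i j hij => pow_le_pow_right₀ hL1 hij
  have hp1 : ∀ i : ℕ, 1 ≤ L ^ i := fun i => one_le_pow₀ hL1
  have hA1 : (1 : ℝ) ≤ A := by exact_mod_cast hA
  have hA0 : (0 : ℝ) < A := by linarith
  have hXr : L ≤ X := by
    refine le_trans ?_ hAX
    have h1 : L ≤ L ^ B := by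
      calc L = L ^ 1 := (pow_one L).symm
        _ ≤ L ^ B := hpow _ _ (by omega)
    nlinarith [hp1 B]
  have hX0r : (0 : ℝ) < X := by linarith
  have hAXr : (A : ℝ) ≤ X := by
    refine le_trans ?_ hAX
    nlinarith [hp1 B]
  -- the square root of `X`
  obtain ⟨s, hs⟩ : ∃ s, s = Real.sqrt X := ⟨_, rfl⟩
  have hs2 : s * s = X := by rw [hs]; exact Real.mul_self_sqrt hX0r.le
  have hsL : L ^ (2 * K1 + K0 + 10) ≤ s := by
    rw [hs]
    apply Real.le_sqrt_of_sq_le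
    rw [← pow_mul, mul_comm (2 * K1 + K0 + 10) 2]
    exact hLX
  have hs0 : 0 < s := by
    have := hp1 (2 * K1 + K0 + 10)
    linarith
  -- the length of the third variable
  obtain ⟨R, hR⟩ : ∃ R : ℕ, R = ⌊(X : ℝ) / L ^ K1⌋₊ := ⟨_, rfl⟩
  have hRup : (R : ℝ) ≤ X / L ^ K1 := by rw [hR]; exact Nat.floor_le (by positivity)
  have hXK : 2 * s ≤ X / L ^ K1 := by
    rw [le_div_iff₀ (by positivity), ← hs2]
    have h1 : 2 * L ^ K1 ≤ s := by
      calc 2 * L ^ K1 ≤ L * L ^ K1 := mul_le_mul_of_nonneg_right (by linarith) (by positivity)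
        _ = L ^ (K1 + 1) := by ring
        _ ≤ L ^ (2 * K1 + K0 + 10) := hpow _ _ (by omega)
        _ ≤ s := hsL
    nlinarith
  have hRlow : X / (2 * L ^ K1) ≤ R := by
    have h1 : (X : ℝ) / L ^ K1 < R + 1 := by rw [hR]; exact Nat.lt_floor_add_one _
    have h2 : (X : ℝ) / (2 * L ^ K1) = (X / L ^ K1) / 2 := by field_simp
    have h3 : 1 ≤ s := by
      have := hp1 (2 * K1 + K0 + 10)
      linarith
    rw [h2]
    linarith
  have hsR : s ≤ R := by
    refine le_trans ?_ hRlow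
    have h2 : (X : ℝ) / (2 * L ^ K1) = (X / L ^ K1) / 2 := by field_simp
    rw [h2]
    linarith
  have hLs : L ≤ s := by
    refine le_trans ?_ hsL
    calc L = L ^ 1 := (pow_one L).symm
      _ ≤ _ := hpow _ _ (by omega)
  have hRR0 : R0 ≤ R := by
    have : (R0 : ℝ) ≤ R := by linarith
    exact_mod_cast this
  have hRX : R ≤ X := by
    have : (R : ℝ) ≤ X := hRup.trans (div_le_self hX0r.le (hp1 K1))
    exact_mod_cast this
  have hR2 : 2 ≤ R := by omega
  have hLRlow : L / 2 ≤ Real.log R := by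
    have h1 : Real.log s ≤ Real.log R := Real.log_le_log hs0 hsR
    have h2 : Real.log s = L / 2 := by rw [hs, Real.log_sqrt hX0r.le, hLd]
    linarith
  have hLRup : Real.log R ≤ L := by
    rw [hLd]
    exact Real.log_le_log (by exact_mod_cast (by omega : 0 < R)) (by exact_mod_cast hRX)
  have hLR0' : 0 < Real.log R := by linarith
  -- the number `w`
  obtain ⟨w, hw2, hw4, hwe⟩ := wpar (U + 2) L hL0 hll (by omega)
  rw [← hC1] at hw4
  rw [← hh] at hwe
  obtain ⟨z, hz⟩ : ∃ z : ℕ, z = Nat.sqrt X := ⟨_, rfl⟩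
  have hzs : (z : ℝ) ≤ s := by
    rw [hs, hz]
    exact Real.nat_sqrt_le_real_sqrt
  have hz4 : A * R < (z + 1) ^ 4 := by
    have h1 : X < (z + 1) ^ 2 := by rw [hz]; exact Nat.lt_succ_sqrt' X
    have h2 : A ≤ X := by exact_mod_cast hAXr
    calc A * R ≤ X * X := Nat.mul_le_mul h2 hRX
      _ < (z + 1) ^ 2 * (z + 1) ^ 2 := Nat.mul_self_lt_mul_self h1
      _ = (z + 1) ^ 4 := by ring
  -- the bad triples
  have hBadex : ∀ g : ℕ, ∃ Bd : Finset (ℕ × ℕ × ℤ), 1 ≤ g → g ≤ A → (Bd.card : ℝ) ≤ (A : ℝ) ^ 3 * X / L ^ U1 ∧ Low X (A / g) U1 Bd := by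
    intro g
    by_cases hg : 1 ≤ g ∧ g ≤ A
    · have h1 : 1 ≤ A / g := Nat.div_pos hg.2 hg.1
      have h2 : ((A / g : ℕ) : ℝ) ≤ A := by exact_mod_cast Nat.div_le_self A g
      have h3 : ((A / g : ℕ) : ℝ) * L ^ B0 ≤ X := by
        refine le_trans ?_ hAX
        exact mul_le_mul h2 (hpow _ _ (by omega)) (by positivity) (by linarith)
      rw [hLd] at h3
      obtain ⟨Bd, _, hB1, hB2⟩ := htri X hXX1 (A / g) h1 h3
      refine ⟨Bd, fun _ _ => ⟨?_, ?_⟩⟩
      · rw [hLd]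
        refine hB1.trans ?_
        apply div_le_div_of_nonneg_right _ (by rw [← hLd]; positivity)
        apply mul_le_mul_of_nonneg_right _ hX0r.le
        exact pow_le_pow_left₀ (Nat.cast_nonneg _) h2 3
      · intro a b c k1 k2 k3
        exact (hB2 a b c k1 k2 k3).2.2
    · exact ⟨∅, fun k1 k2 => absurd ⟨k1, k2⟩ hg⟩
  choose Bad hBad using hBadex
  obtain ⟨θ, hθ⟩ : ∃ θ : ℝ, θ = A * X / L ^ U2 := ⟨_, rfl⟩
  have hθ0 : 0 < θ := by rw [hθ]; positivity
  obtain ⟨θ', hθ'⟩ : ∃ θ' : ℝ, θ' = X / L ^ U3 := ⟨_, rfl⟩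
  have hθ'0 : 0 < θ' := by rw [hθ']; positivity
  -- the exceptional pairs
  obtain ⟨E1, hE1⟩ : ∃ E1, E1 = (Icc 1 A ×ˢ Icc 1 A).filter (fun t : ℕ × ℕ => L ^ h < (Nat.gcd t.1 t.2 : ℝ)) := ⟨_, rfl⟩
  obtain ⟨E2, hE2⟩ : ∃ E2, E2 = (Icc 1 A ×ˢ Icc 1 A).filter (fun t : ℕ × ℕ => (t.1 : ℝ) < A / L ^ h ∨ (t.2 : ℝ) < A / L ^ h) := ⟨_, rfl⟩
  obtain ⟨E3, hE3⟩ : ∃ E3, E3 = (Icc 1 A ×ˢ Icc 1 A).filter (fun t : ℕ × ℕ => 1 / 2000 < sq w t.1 ∨ 1 / 2000 < sq w t.2) := ⟨_, rfl⟩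
  obtain ⟨E4, hE4⟩ : ∃ E4, E4 = (Icc 1 A ×ˢ Icc 1 A).filter (fun t : ℕ × ℕ => (Nat.gcd t.1 t.2 : ℝ) ≤ L ^ h ∧ θ < ((Fib Bad t.1 t.2).card : ℝ)) := ⟨_, rfl⟩
  have hE1c : (E1.card : ℝ) ≤ 2 * (A : ℝ) ^ 2 / L ^ h := by
    rw [hE1]
    exact e1 A (L ^ h) (by positivity)
  have hE2c : (E2.card : ℝ) ≤ 2 * (A : ℝ) ^ 2 / L ^ h := by
    rw [hE2]
    have h1 := pair_card A (fun a : ℕ => (a : ℝ) < A / L ^ h) (A / L ^ h) (e2 A _ (by positivity))
    refine h1.trans (le_of_eq ?_)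
    ring
  have hE3c : (E3.card : ℝ) ≤ 2 * (A : ℝ) ^ 2 / L ^ h := by
    rw [hE3]
    have h2 := e3 A w (by omega) (1 / 2000)
    have h3 : (A : ℝ) * (Real.exp 2 * Real.exp (-(w * (1 / 2000)))) ≤ A * (1 / L ^ h) := mul_le_mul_of_nonneg_left hwe hA0.le
    have h1 := pair_card A (fun a : ℕ => 1 / 2000 < sq w a) (A * (1 / L ^ h)) (h2.trans h3)
    refine h1.trans (le_of_eq ?_)
    ring
  have hE4c : (E4.card : ℝ) ≤ (A : ℝ) ^ 2 / L ^ h := by
    rw [hE4]
    have h1 := e4 Bad A (L ^ h) ((A : ℝ) ^ 3 * X / L ^ U1) θ (by positivity) (by positivity) hθ0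
      (fun g hg1 hg2 => (hBad g hg1 hg2).1)
    refine h1.trans (le_of_eq ?_)
    rw [hθ, hU1, pow_add, two_mul, pow_add]
    field_simp
  refine ⟨E1 ∪ (E2 ∪ (E3 ∪ E4)), ?_, ?_, ?_⟩
  · rw [hE1, hE2, hE3, hE4]
    exact union_subset (filter_subset _ _) (union_subset (filter_subset _ _) (union_subset (filter_subset _ _) (filter_subset _ _)))
  · rw [← hLd]
    have h1 := card_union_le E1 (E2 ∪ (E3 ∪ E4))
    have h2 := card_union_le E2 (E3 ∪ E4)
    have h3 := card_union_le E3 E4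
    have h4 : ((E1 ∪ (E2 ∪ (E3 ∪ E4))).card : ℝ) ≤ E1.card + (E2.card + (E3.card + E4.card)) := by
      exact_mod_cast (by omega : (E1 ∪ (E2 ∪ (E3 ∪ E4))).card ≤ E1.card + (E2.card + (E3.card + E4.card)))
    have h5 : (E1.card : ℝ) + (E2.card + (E3.card + E4.card)) ≤ 7 * ((A : ℝ) ^ 2 / L ^ h) := by
      have e : 2 * (A : ℝ) ^ 2 / L ^ h = 2 * ((A : ℝ) ^ 2 / L ^ h) := by ring
      rw [e] at hE1c hE2c hE3c
      linarith
    refine (h4.trans h5).trans ?_
    have h6 : 7 * L ^ U ≤ L ^ h := by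
      have e : L ^ h = L ^ U * (L * L) := by rw [hh]; ring
      rw [e, mul_comm (L ^ U)]
      apply mul_le_mul_of_nonneg_right _ (by positivity)
      nlinarith
    rw [mul_div_assoc', div_le_div_iff₀ (by positivity) (by positivity)]
    calc 7 * (A : ℝ) ^ 2 * L ^ U = (A : ℝ) ^ 2 * (7 * L ^ U) := by ring
      _ ≤ (A : ℝ) ^ 2 * L ^ h := mul_le_mul_of_nonneg_left h6 (by positivity)
  · intro a b hab hE d hd
    rw [← hLd] at hd ⊢
    rw [mem_union, mem_union, mem_union, hE1, hE2, hE3, hE4, mem_filter, mem_filter, mem_filter, mem_filter] at hE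
    simp only [hab, true_and] at hE
    push Not at hE
    obtain ⟨hg1, ⟨ha2, hb2⟩, ⟨ha3, hb3⟩, hfib⟩ := hE
    have hfib := hfib hg1
    rw [mem_product, mem_Icc, mem_Icc] at hab
    simp only at hab
    obtain ⟨⟨ha1, haA⟩, hb1, hbA⟩ := hab
    have hgp : 1 ≤ Nat.gcd a b := Nat.gcd_pos_of_pos_left _ ha1
    have hgA : Nat.gcd a b ≤ A := (Nat.le_of_dvd (by omega) (Nat.gcd_dvd_left _ _)).trans haA
    -- the constants with many bad primes
    have hfew := rep_few Bad A R z a b d ha1 hz4 θ θ' hfib hθ'0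
    have hfew2 : 3 * θ / θ' ≤ A / L ^ U := by
      have e : 3 * θ / θ' = 3 * A / L ^ (U + 1) := by
        rw [hθ, hθ', hU2, show U3 + U + 1 = U3 + (U + 1) by ring, pow_add]
        field_simp
      rw [e, div_le_div_iff₀ (by positivity) (by positivity), pow_succ]
      have := hp1 U
      nlinarith [mul_nonneg hA0.le (by linarith : (0 : ℝ) ≤ L ^ U)]
    refine le_trans ?_ (hfew.trans hfew2)
    have hsubc : (Icc (-(A : ℤ)) A).filter (fun c : ℤ => Adm a b c d ∧ ((sols X a b c d).card : ℝ) < (X : ℝ) ^ 2 / (A * L ^ B)) ⊆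
        (Icc (-(A : ℤ)) A).filter (fun c : ℤ => c ≠ 0 ∧ θ' < ((BadR Bad R z a b c d).card : ℝ)) := by
      intro c hc
      rw [mem_filter] at hc ⊢
      obtain ⟨hcA, hadm, hlt⟩ := hc
      refine ⟨hcA, hadm.c0, ?_⟩
      by_contra hcon
      push Not at hcon
      have hcA' : |(c : ℝ)| ≤ A := by
        rw [mem_Icc] at hcA
        rw [abs_le]
        constructor
        · have : ((-(A : ℤ) : ℤ) : ℝ) ≤ c := by exact_mod_cast hcA.1
          push_cast at this
          exact this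
        · exact_mod_cast hcA.2
      -- the parameters
      have hM0 : ((Nat.gcd a b * (4 ^ w * Nat.gcd a b) : ℕ) : ℝ) ≤ L ^ K0 := by
        push_cast
        have e : L ^ K0 = L ^ h * (L ^ C1 * L ^ h) := by rw [hK0, pow_add, two_mul, pow_add]; ring
        rw [e]
        apply mul_le_mul hg1 _ (by positivity) (by positivity)
        exact mul_le_mul hw4 hg1 (Nat.cast_nonneg _) (by positivity)
      have hM1 : L ^ K0 ≤ Real.log R ^ (K0 + 1) := by
        have h1 : (L / 2) ^ (K0 + 1) ≤ Real.log R ^ (K0 + 1) := pow_le_pow_left₀ (by linarith) hLRlow _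
        refine le_trans ?_ h1
        rw [pow_succ, div_pow]
        have h2 : 0 < L ^ K0 := by positivity
        have h3 : (0 : ℝ) < 2 ^ K0 := by positivity
        rw [div_mul_div_comm, le_div_iff₀ (by positivity)]
        calc L ^ K0 * (2 ^ K0 * 2) = L ^ K0 * (2 * 2 ^ K0) := by ring
          _ ≤ L ^ K0 * L := mul_le_mul_of_nonneg_left hL2K h2.le
      have hKR : (0 : ℝ) < L ^ K0 * Real.log R := by positivity
      have hKRup : L ^ K0 * Real.log R ≤ L ^ (K0 + 1) := by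
        rw [pow_succ]
        exact mul_le_mul_of_nonneg_left hLRup (by positivity)
      have hM2 : 100 * (z : ℝ) * (L ^ K0 * Real.log R) ≤ R := by
        refine le_trans ?_ hRlow
        rw [le_div_iff₀ (by positivity), ← hs2]
        have h1 : 200 * L ^ (K1 + K0 + 1) ≤ s := by
          calc 200 * L ^ (K1 + K0 + 1) ≤ L * L ^ (K1 + K0 + 1) := mul_le_mul_of_nonneg_right (by linarith) (by positivity)
            _ = L ^ (K1 + K0 + 2) := by ring
            _ ≤ L ^ (2 * K1 + K0 + 10) := hpow _ _ (by omega)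
            _ ≤ s := hsL
        have h2 : (z : ℝ) * (L ^ K0 * Real.log R) ≤ s * L ^ (K0 + 1) := mul_le_mul hzs hKRup hKR.le hs0.le
        calc 100 * (z : ℝ) * (L ^ K0 * Real.log R) * (2 * L ^ K1) = ((z : ℝ) * (L ^ K0 * Real.log R)) * (200 * L ^ K1) := by ring
          _ ≤ (s * L ^ (K0 + 1)) * (200 * L ^ K1) := mul_le_mul_of_nonneg_right h2 (by positivity)
          _ = s * (200 * L ^ (K1 + K0 + 1)) := by rw [show K1 + K0 + 1 = K1 + (K0 + 1) by ring, pow_add L K1]; ring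
          _ ≤ s * s := mul_le_mul_of_nonneg_left h1 hs0.le
      have hbase : (X : ℝ) / (32 * L ^ (K1 + K0 + 1)) ≤ R / (16 * (L ^ K0 * Real.log R)) := by
        have h1 : (R : ℝ) / (16 * L ^ (K0 + 1)) ≤ R / (16 * (L ^ K0 * Real.log R)) := by
          apply div_le_div_of_nonneg_left (Nat.cast_nonneg _) (by positivity)
          linarith
        refine le_trans ?_ h1
        rw [le_div_iff₀ (by positivity)]
        refine le_trans (le_of_eq ?_) hRlow
        rw [show K1 + K0 + 1 = K1 + (K0 + 1) by ring, pow_add L K1]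
        field_simp
        norm_num
      have hM3 : θ' + 1 ≤ R / (16 * (L ^ K0 * Real.log R)) := by
        refine le_trans ?_ hbase
        have h1 : 1 ≤ θ' := by
          rw [hθ', one_le_div (by positivity), ← hs2]
          have h2 : L ^ U3 ≤ s := (hpow _ _ (by omega)).trans hsL
          have h3 : 1 ≤ s := by linarith
          nlinarith
        have h2 : 2 * θ' ≤ (X : ℝ) / (32 * L ^ (K1 + K0 + 1)) := by
          rw [hθ', mul_div_assoc', div_le_div_iff₀ (by positivity) (by positivity), hU3]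
          have e : L ^ (K1 + K0 + 4) = L ^ (K1 + K0 + 1) * (L * (L * L)) := by
            rw [show K1 + K0 + 4 = (K1 + K0 + 1) + 3 by ring, pow_add]; ring
          rw [e]
          have h3 : 64 ≤ L * (L * L) := by nlinarith
          have h4 : 0 ≤ X * L ^ (K1 + K0 + 1) := by positivity
          nlinarith
        linarith
      have hn : (A : ℝ) ^ 2 ≤ (R : ℝ) ^ 4 := by
        have h1 : (X : ℝ) ≤ (R : ℝ) ^ 2 := by
          rw [← hs2, pow_two]
          exact mul_le_mul hsR hsR hs0.le (by linarith)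
        calc (A : ℝ) ^ 2 ≤ (X : ℝ) ^ 2 := pow_le_pow_left₀ hA0.le hAXr 2
          _ ≤ ((R : ℝ) ^ 2) ^ 2 := pow_le_pow_left₀ hX0r.le h1 2
          _ = (R : ℝ) ^ 4 := by ring
      have hsum : |(d : ℝ)| + A * R ≤ 2 * (A * X / L ^ K1) := by
        have h1 : |(d : ℝ)| ≤ A * X / L ^ K1 := by
          rw [le_div_iff₀ (by positivity)]
          refine le_trans ?_ hd
          exact mul_le_mul_of_nonneg_left (hpow _ _ (by omega)) (abs_nonneg _)
        have h2 : (A : ℝ) * R ≤ A * X / L ^ K1 := by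
          rw [mul_div_assoc]
          exact mul_le_mul_of_nonneg_left hRup hA0.le
        linarith
      have hd1 : 4 * (|(d : ℝ)| + A * R) * A ≤ X * (a * b) := by
        have h1 : (A / L ^ h) * (A / L ^ h) ≤ (a : ℝ) * b := mul_le_mul ha2 hb2 (by positivity) (Nat.cast_nonneg _)
        calc 4 * (|(d : ℝ)| + A * R) * A ≤ 4 * (2 * (A * X / L ^ K1)) * A := by
              apply mul_le_mul_of_nonneg_right _ hA0.le
              linarith
          _ = 8 / (L * L) * (X * ((A / L ^ h) * (A / L ^ h))) := by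
              rw [hK1, show 2 * h + 2 = h + h + 2 by ring, pow_add, pow_add]
              field_simp
              norm_num
          _ ≤ 1 * (X * ((A / L ^ h) * (A / L ^ h))) := by
              apply mul_le_mul_of_nonneg_right _ (by positivity)
              rw [div_le_one (by positivity)]
              nlinarith
          _ ≤ X * (a * b) := by
              rw [one_mul]
              exact mul_le_mul_of_nonneg_left h1 hX0r.le
      have hd2 : 2 * (|(d : ℝ)| + A * R) ≤ A * X := by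
        have h1 : (A : ℝ) * X / L ^ K1 ≤ A * X / 4 := by
          apply div_le_div_of_nonneg_left (by positivity) (by norm_num)
          calc (4 : ℝ) ≤ L := by linarith
            _ = L ^ 1 := (pow_one L).symm
            _ ≤ L ^ K1 := hpow _ _ (by omega)
        linarith
      have h8A : 8 * (A : ℝ) ≤ X := by
        refine le_trans ?_ hAX
        have h1 : L ≤ L ^ B := by
          calc L = L ^ 1 := (pow_one L).symm
            _ ≤ L ^ B := hpow _ _ (by omega)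
        nlinarith
      have hfin := good_c X A U1 (K0 + 1) R z w a b θ' (L ^ K0) Bad c d (by rw [← hLd]; linarith) (by omega)
        (hcnt R hRR0) (hBad _ hgp hgA).2 haA hbA h8A hRX hR2 hw2 hM0 hM1 hM2 hM3 hn ha3 hb3 hcA' hd1 hd2 hadm hcon
      rw [← hLd] at hfin
      have hlast : (X : ℝ) ^ 2 / (A * L ^ B) ≤ (R : ℝ) / (16 * (L ^ K0 * Real.log R)) * (X / (16 * (A * L ^ 2))) := by
        have h1 : (X : ℝ) / (32 * L ^ (K1 + K0 + 1)) * (X / (16 * (A * L ^ 2))) ≤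
            (R : ℝ) / (16 * (L ^ K0 * Real.log R)) * (X / (16 * (A * L ^ 2))) :=
          mul_le_mul_of_nonneg_right hbase (by positivity)
        refine le_trans ?_ h1
        have h2 : 512 * L ^ (K1 + K0 + 3) ≤ L ^ B := by
          calc 512 * L ^ (K1 + K0 + 3) ≤ L * L ^ (K1 + K0 + 3) := mul_le_mul_of_nonneg_right (by linarith) (by positivity)
            _ = L ^ (K1 + K0 + 4) := by ring
            _ ≤ L ^ B := hpow _ _ (by omega)
        have e : (X : ℝ) / (32 * L ^ (K1 + K0 + 1)) * (X / (16 * (A * L ^ 2))) = (X : ℝ) ^ 2 / (A * (512 * L ^ (K1 + K0 + 3))) := by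
          rw [show K1 + K0 + 3 = (K1 + K0 + 1) + 2 by ring, pow_add L (K1 + K0 + 1)]
          field_simp
          norm_num
        rw [e]
        apply div_le_div_of_nonneg_left (by positivity) (by positivity)
        exact mul_le_mul_of_nonneg_left h2 hA0.le
      linarith
    exact_mod_cast card_le_card hsubc

end Pool.Agent.Q236.BK
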