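import Pool.Agent.Q236.BK.Tri4

/-!
# The choice of the length
-/

set_option autoImplicit false

namespace Pool.Agent.Q236.BK

open Finset Filter
open Pool.Agent.Q236.RP

/-- a length for the constant `d` -/
lemma len (B1 X0 : ℕ) : ∃ A0 : ℕ, ∀ A : ℕ, A0 ≤ A → ∀ d : ℤ, |(d : ℝ)| ≤ (A : ℝ) ^ 5 →
    ∃ X : ℕ, X0 ≤ X ∧ A ≤ X ∧ (A : ℝ) * Real.log X ^ B1 ≤ X ∧ |(d : ℝ)| * Real.log X ^ B1 ≤ A * X ∧
      (X : ℝ) ≤ (|(d : ℝ)| / A + A) * Real.log A ^ (B1 + 1) + 1 := by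
  have hev := (ev_log_ge (max (2 : ℝ) (6 ^ B1))).and ((ev_pow_log (B1 + 1)).and (eventually_ge_atTop (max X0 4)))
  obtain ⟨A0, hA0⟩ := eventually_atTop.1 hev
  refine ⟨A0, fun A hA d hd => ?_⟩
  obtain ⟨h1, h2, h3⟩ := hA0 A hA
  obtain ⟨l, hl⟩ : ∃ l, l = Real.log (A : ℝ) := ⟨_, rfl⟩
  rw [← hl] at h1 h2 ⊢
  have hl2 : 2 ≤ l := (le_max_left _ _).trans h1
  have hl3 : (6 : ℝ) ^ B1 ≤ l := (le_max_right _ _).trans h1
  have hAX0 : X0 ≤ A := (le_max_left _ _).trans h3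
  have hA4 : 4 ≤ A := (le_max_right _ _).trans h3
  have hAr : (4 : ℝ) ≤ A := by exact_mod_cast hA4
  have hl0 : 0 < l := by linarith
  have hlp : 1 ≤ l ^ (B1 + 1) := one_le_pow₀ (by linarith)
  have hd0 : 0 ≤ |(d : ℝ)| := abs_nonneg _
  obtain ⟨Y, hY⟩ : ∃ Y : ℝ, Y = |(d : ℝ)| / A + A := ⟨_, rfl⟩
  have hYA : (A : ℝ) ≤ Y := by
    rw [hY]
    have : 0 ≤ |(d : ℝ)| / A := by positivity
    linarith
  have hYd : |(d : ℝ)| ≤ A * Y := by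
    rw [hY, mul_add, mul_div_cancel₀ _ (by linarith : (A : ℝ) ≠ 0)]
    nlinarith
  have hYup : Y ≤ (A : ℝ) ^ 4 + A := by
    rw [hY]
    have : |(d : ℝ)| / A ≤ (A : ℝ) ^ 4 := by
      rw [div_le_iff₀ (by linarith)]
      calc |(d : ℝ)| ≤ (A : ℝ) ^ 5 := hd
        _ = (A : ℝ) ^ 4 * A := by ring
    linarith
  rw [← hY]
  obtain ⟨N, hN⟩ : ∃ N : ℕ, N = ⌈Y * l ^ (B1 + 1)⌉₊ := ⟨_, rfl⟩
  have hN1 : Y * l ^ (B1 + 1) ≤ N := by rw [hN]; exact Nat.le_ceil _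
  have hY0 : 0 < Y := by linarith
  have hN2 : (N : ℝ) < Y * l ^ (B1 + 1) + 1 := by rw [hN]; exact Nat.ceil_lt_add_one (by positivity)
  have hYN : Y ≤ N := by
    refine le_trans ?_ hN1
    nlinarith
  have hAN : A ≤ N := by
    have : (A : ℝ) ≤ N := hYA.trans hYN
    exact_mod_cast this
  have hN6 : (N : ℝ) ≤ (A : ℝ) ^ 6 := by
    have k1 : Y * l ^ (B1 + 1) ≤ ((A : ℝ) ^ 4 + A) * A := mul_le_mul hYup h2 (by positivity) (by positivity)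
    have k2 : ((A : ℝ) ^ 4 + A) * A + 1 ≤ (A : ℝ) ^ 6 := by
      have k3 : (A : ℝ) ^ 2 ≤ (A : ℝ) ^ 5 := pow_le_pow_right₀ (by linarith) (by norm_num)
      have k4 : (1 : ℝ) ≤ (A : ℝ) ^ 5 := one_le_pow₀ (by linarith)
      have k5 : 4 * (A : ℝ) ^ 5 ≤ (A : ℝ) ^ 6 := by
        calc 4 * (A : ℝ) ^ 5 ≤ A * (A : ℝ) ^ 5 := mul_le_mul_of_nonneg_right hAr (by positivity)
          _ = (A : ℝ) ^ 6 := by ring
      calc ((A : ℝ) ^ 4 + A) * A + 1 = (A : ℝ) ^ 5 + (A : ℝ) ^ 2 + 1 := by ring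
        _ ≤ (A : ℝ) ^ 6 := by linarith
    linarith
  have hN0 : (0 : ℝ) < N := by linarith
  have hlogN : Real.log N ≤ 6 * l := by
    have k3 := Real.log_le_log hN0 hN6
    rw [Real.log_pow, ← hl] at k3
    exact_mod_cast k3
  have hpow : Real.log N ^ B1 ≤ l ^ (B1 + 1) := by
    calc Real.log N ^ B1 ≤ (6 * l) ^ B1 := pow_le_pow_left₀ (Real.log_natCast_nonneg _) hlogN _
      _ = 6 ^ B1 * l ^ B1 := mul_pow _ _ _
      _ ≤ l * l ^ B1 := mul_le_mul_of_nonneg_right hl3 (by positivity)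
      _ = l ^ (B1 + 1) := by ring
  refine ⟨N, by omega, hAN, ?_, ?_, hN2.le⟩
  · calc (A : ℝ) * Real.log N ^ B1 ≤ Y * l ^ (B1 + 1) := mul_le_mul hYA hpow (by positivity) hY0.le
      _ ≤ N := hN1
  · calc |(d : ℝ)| * Real.log N ^ B1 ≤ (A * Y) * l ^ (B1 + 1) := mul_le_mul hYd hpow (by positivity) (by positivity)
      _ = A * (Y * l ^ (B1 + 1)) := by ring
      _ ≤ A * N := mul_le_mul_of_nonneg_left hN1 (by linarith)

/-- comparison of `A` and `m` -/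
lemma cmp (k U : ℕ) : ∃ A0 : ℕ, ∀ A : ℕ, A0 ≤ A → ∀ m : ℝ, (A : ℝ) / Real.log A ^ (U + 1) ≤ m →
    (A : ℝ) * Real.log A ^ k + 1 ≤ m * Real.log m ^ (k + U + 3) := by
  have hev := (ev_log_ge (max (4 : ℝ) (4 * 2 ^ (k + U + 3)))).and (ev_pow_log (2 * (U + 1)))
  obtain ⟨A0, hA0⟩ := eventually_atTop.1 hev
  refine ⟨A0, fun A hA m hm => ?_⟩
  obtain ⟨h1, h2⟩ := hA0 A hA
  obtain ⟨l, hl⟩ : ∃ l, l = Real.log (A : ℝ) := ⟨_, rfl⟩
  rw [← hl] at h1 h2 hm ⊢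
  have hl4 : 4 ≤ l := (le_max_left _ _).trans h1
  have hl5 : 4 * 2 ^ (k + U + 3) ≤ l := (le_max_right _ _).trans h1
  have hl0 : 0 < l := by linarith
  have hp : ∀ i : ℕ, 1 ≤ l ^ i := fun i => one_le_pow₀ (by linarith)
  have hA1 : (1 : ℝ) ≤ A := (hp _).trans h2
  have hA0r : (0 : ℝ) < A := by linarith
  have hm1 : (A : ℝ) ≤ m * l ^ (U + 1) := by
    rwa [div_le_iff₀ (by positivity)] at hm
  have hm0 : 0 < m := lt_of_lt_of_le (by positivity) hm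
  have hmA : (A : ℝ) ≤ m ^ 2 := by
    have k1 : (A : ℝ) ^ 2 ≤ (m * l ^ (U + 1)) ^ 2 := pow_le_pow_left₀ hA0r.le hm1 2
    have k2 : (m * l ^ (U + 1)) ^ 2 = m ^ 2 * l ^ (2 * (U + 1)) := by ring
    rw [k2] at k1
    have k3 : m ^ 2 * l ^ (2 * (U + 1)) ≤ m ^ 2 * A := mul_le_mul_of_nonneg_left h2 (by positivity)
    have k4 : (A : ℝ) * A ≤ m ^ 2 * A := by nlinarith
    exact le_of_mul_le_mul_right k4 hA0r
  have hlm : l ≤ 2 * Real.log m := by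
    have := Real.log_le_log hA0r hmA
    rw [Real.log_pow, ← hl] at this
    exact_mod_cast this
  have h5 : l ^ (k + U + 2) * 2 ≤ Real.log m ^ (k + U + 3) := by
    have k1 : l ^ (k + U + 3) ≤ (2 * Real.log m) ^ (k + U + 3) := pow_le_pow_left₀ hl0.le hlm _
    rw [mul_pow] at k1
    have k2 : l ^ (k + U + 2) * (4 * 2 ^ (k + U + 3)) ≤ l ^ (k + U + 3) := by
      calc l ^ (k + U + 2) * (4 * 2 ^ (k + U + 3)) ≤ l ^ (k + U + 2) * l := mul_le_mul_of_nonneg_left hl5 (by positivity)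
        _ = l ^ (k + U + 3) := by ring
    have k3 : (0 : ℝ) < 2 ^ (k + U + 3) := by positivity
    have k4 : (2 : ℝ) ^ (k + U + 3) * (l ^ (k + U + 2) * 4) ≤ 2 ^ (k + U + 3) * Real.log m ^ (k + U + 3) := by linarith
    have k5 := le_of_mul_le_mul_left k4 k3
    have k6 : 0 < l ^ (k + U + 2) := by positivity
    linarith
  have h6 : (A : ℝ) * l ^ k + 1 ≤ 2 * (A * l ^ k) := by
    have k1 : 1 ≤ (A : ℝ) * l ^ k := by nlinarith [hp k]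
    linarith
  calc (A : ℝ) * l ^ k + 1 ≤ 2 * (A * l ^ k) := h6
    _ ≤ 2 * ((m * l ^ (U + 1)) * l ^ k) := by
        have := mul_le_mul_of_nonneg_right hm1 (by positivity : 0 ≤ l ^ k)
        linarith
    _ = m * (l ^ (k + U + 1) * 2) := by ring
    _ ≤ m * (l ^ (k + U + 2) * 2) := by
        apply mul_le_mul_of_nonneg_left _ hm0.le
        have : l ^ (k + U + 1) ≤ l ^ (k + U + 2) := pow_le_pow_right₀ (by linarith) (by omega)
        linarith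
    _ ≤ m * Real.log m ^ (k + U + 3) := mul_le_mul_of_nonneg_left h5 hm0.le

end Pool.Agent.Q236.BK
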