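import Pool.Agent.Q236.BK.Per

/-!
# Parameters
-/

set_option autoImplicit false

namespace Pool.Agent.Q236.BK

open Finset Filter

lemma wpar (V : ℕ) (L : ℝ) (hL0 : 0 < L) (hL : 200 ≤ Real.log L) (hV : 1 ≤ V) : ∃ w : ℕ, 2 ≤ w ∧
    (4 : ℝ) ^ w ≤ L ^ (3000 * V) ∧ Real.exp 2 * Real.exp (-(w * (1 / 2000))) ≤ 1 / L ^ V := by
  obtain ⟨l, hl⟩ : ∃ l, l = Real.log L := ⟨_, rfl⟩
  rw [← hl] at hL
  have hVr : (1 : ℝ) ≤ V := by exact_mod_cast hV
  obtain ⟨W, hW⟩ : ∃ W : ℝ, W = 2000 * (V * l + 10) := ⟨_, rfl⟩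
  have hVl : 200 ≤ V * l := by nlinarith
  have hW0 : 0 ≤ W := by rw [hW]; linarith
  have hw1 : W ≤ (⌈W⌉₊ : ℝ) := Nat.le_ceil W
  have hw2 : (⌈W⌉₊ : ℝ) < W + 1 := Nat.ceil_lt_add_one hW0
  refine ⟨⌈W⌉₊, ?_, ?_, ?_⟩
  · have : (2 : ℝ) ≤ (⌈W⌉₊ : ℝ) := by linarith
    exact_mod_cast this
  · have h4 : Real.log 4 ≤ 14 / 10 := by
      have h5 : Real.log 4 = 2 * Real.log 2 := by
        rw [show (4 : ℝ) = 2 ^ 2 by norm_num, Real.log_pow]
        push_cast
        ring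
      have := Real.log_two_lt_d9
      linarith
    have h40 : 0 ≤ Real.log 4 := Real.log_nonneg (by norm_num)
    have e1 : (4 : ℝ) ^ ⌈W⌉₊ = Real.exp (⌈W⌉₊ * Real.log 4) := by
      rw [Real.exp_nat_mul, Real.exp_log (by norm_num)]
    have e2 : L ^ (3000 * V) = Real.exp ((3000 * V : ℕ) * l) := by
      rw [hl, Real.exp_nat_mul, Real.exp_log hL0]
    rw [e1, e2]
    apply Real.exp_le_exp.2
    push_cast
    have h6 : (⌈W⌉₊ : ℝ) * Real.log 4 ≤ (W + 1) * (14 / 10) := mul_le_mul hw2.le h4 h40 (by linarith)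
    rw [hW] at h6
    nlinarith
  · rw [← Real.exp_add]
    have e2 : 1 / L ^ V = Real.exp (-(V * l)) := by
      rw [Real.exp_neg, hl, Real.exp_nat_mul, Real.exp_log hL0, one_div]
    rw [e2]
    apply Real.exp_le_exp.2
    have h3 : W * (1 / 2000) = V * l + 10 := by rw [hW]; ring
    have h4 : W * (1 / 2000) ≤ (⌈W⌉₊ : ℝ) * (1 / 2000) := by linarith
    linarith

/-- the small primes and the prime factors of `g` -/
def SS (w g : ℕ) : Finset ℕ := (range (w + 1)).filter Nat.Prime ∪ g.primeFactors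

lemma SS_prime (w g : ℕ) : ∀ l ∈ SS w g, l.Prime := by
  intro l hl
  unfold SS at hl
  rw [mem_union, mem_filter] at hl
  rcases hl with h | h
  · exact h.2
  · exact Nat.prime_of_mem_primeFactors h

lemma SS_prod (w g : ℕ) (hg : 1 ≤ g) : ∏ l ∈ SS w g, l ≤ 4 ^ w * g := by
  unfold SS
  have h1 := prod_union_inter (s₁ := (range (w + 1)).filter Nat.Prime) (s₂ := g.primeFactors) (f := fun l : ℕ => l)
  have h2 : 1 ≤ ∏ l ∈ (range (w + 1)).filter Nat.Prime ∩ g.primeFactors, l := by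
    apply Nat.one_le_iff_ne_zero.2
    rw [prod_ne_zero_iff]
    intro l hl
    rw [mem_inter] at hl
    exact (Nat.prime_of_mem_primeFactors hl.2).ne_zero
  have h3 : ∏ l ∈ (range (w + 1)).filter Nat.Prime, l ≤ 4 ^ w := primorial_le_four_pow w
  have h4 : ∏ l ∈ g.primeFactors, l ≤ g := Nat.le_of_dvd (by omega) (Nat.prod_primeFactors_dvd g)
  calc ∏ l ∈ (range (w + 1)).filter Nat.Prime ∪ g.primeFactors, l ≤
      (∏ l ∈ (range (w + 1)).filter Nat.Prime ∪ g.primeFactors, l) * ∏ l ∈ (range (w + 1)).filter Nat.Prime ∩ g.primeFactors, l :=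
        Nat.le_mul_of_pos_right _ h2
    _ = (∏ l ∈ (range (w + 1)).filter Nat.Prime, l) * ∏ l ∈ g.primeFactors, l := h1
    _ ≤ 4 ^ w * g := Nat.mul_le_mul h3 h4

lemma sq_mul_le (w a1 b1 g : ℕ) (ha : g * a1 ≠ 0) (hb : g * b1 ≠ 0) :
    sq w (a1 * b1) ≤ sq w (g * a1) + sq w (g * b1) := by
  unfold sq
  have ha1 : a1 ≠ 0 := fun h => ha (by rw [h, mul_zero])
  have hb1 : b1 ≠ 0 := fun h => hb (by rw [h, mul_zero])
  have hsub : (a1 * b1).primeFactors.filter (fun p => w < p) ⊆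
      (g * a1).primeFactors.filter (fun p => w < p) ∪ (g * b1).primeFactors.filter (fun p => w < p) := by
    intro p hp
    rw [mem_filter, Nat.primeFactors_mul ha1 hb1, mem_union] at hp
    rw [mem_union, mem_filter, mem_filter]
    rcases hp.1 with h | h
    · left
      exact ⟨Nat.primeFactors_mono (dvd_mul_left _ _) ha h, hp.2⟩
    · right
      exact ⟨Nat.primeFactors_mono (dvd_mul_left _ _) hb h, hp.2⟩
  calc ∑ p ∈ (a1 * b1).primeFactors.filter (fun p => w < p), 1 / (p : ℝ) ≤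
      ∑ p ∈ (g * a1).primeFactors.filter (fun p => w < p) ∪ (g * b1).primeFactors.filter (fun p => w < p), 1 / (p : ℝ) :=
        sum_le_sum_of_subset_of_nonneg hsub (fun p _ _ => by positivity)
    _ ≤ _ := by
        rw [← sum_union_inter]
        have : 0 ≤ ∑ p ∈ (g * a1).primeFactors.filter (fun p => w < p) ∩ (g * b1).primeFactors.filter (fun p => w < p), 1 / (p : ℝ) :=
          sum_nonneg fun p _ => by positivity
        linarith

end Pool.Agent.Q236.BK
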