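import Pool.Agent.Q236.BK.Exc

/-!
# Few pairs `(c, r)` lead to a bad constant
-/

set_option autoImplicit false

namespace Pool.Agent.Q236.BK

open Finset Filter

lemma few_big (n z : ℕ) (hn : n ≠ 0) (h : n < (z + 1) ^ 4) : (n.primeFactors.filter (fun p => z < p)).card ≤ 3 := by
  by_contra hcon
  push Not at hcon
  have h1 : (z + 1) ^ (n.primeFactors.filter (fun p => z < p)).card ≤ n := by
    calc (z + 1) ^ (n.primeFactors.filter (fun p => z < p)).card ≤ ∏ p ∈ n.primeFactors.filter (fun p => z < p), p := by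
          apply pow_card_le_prod
          intro p hp
          exact (mem_filter.1 hp).2
      _ ≤ ∏ p ∈ n.primeFactors, p := by
          apply prod_le_prod_of_subset_of_one_le' (filter_subset _ _)
          intro p hp _
          exact (Nat.prime_of_mem_primeFactors hp).one_lt.le
      _ ≤ n := Nat.le_of_dvd (Nat.pos_of_ne_zero hn) (Nat.prod_primeFactors_dvd n)
  have h2 : (z + 1) ^ 4 ≤ (z + 1) ^ (n.primeFactors.filter (fun p => z < p)).card :=
    Nat.pow_le_pow_right (by omega) hcon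
  omega

open Classical in
/-- the bad primes `r` for `c` -/
noncomputable def BadR (Bad : ℕ → Finset (ℕ × ℕ × ℤ)) (R z a b : ℕ) (c d : ℤ) : Finset ℕ :=
  (Icc 1 R).filter (fun r => r.Prime ∧ z < r ∧
    ∃ y : ℤ, d - c * (r : ℤ) = (Nat.gcd a b : ℤ) * y ∧ (a / Nat.gcd a b, b / Nat.gcd a b, y) ∈ Bad (Nat.gcd a b))

open Classical in
lemma mem_BadR {Bad : ℕ → Finset (ℕ × ℕ × ℤ)} {R z a b : ℕ} {c d : ℤ} {r : ℕ} :
    r ∈ BadR Bad R z a b c d ↔ (1 ≤ r ∧ r ≤ R) ∧ r.Prime ∧ z < r ∧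
      ∃ y : ℤ, d - c * (r : ℤ) = (Nat.gcd a b : ℤ) * y ∧ (a / Nat.gcd a b, b / Nat.gcd a b, y) ∈ Bad (Nat.gcd a b) := by
  unfold BadR
  rw [mem_filter, mem_Icc]

open Classical in
lemma rep_sum (Bad : ℕ → Finset (ℕ × ℕ × ℤ)) (A R z a b : ℕ) (d : ℤ) (ha : 1 ≤ a) (hz : A * R < (z + 1) ^ 4) :
    ∑ c ∈ (Icc (-(A : ℤ)) A).filter (fun c => c ≠ 0), (BadR Bad R z a b c d).card ≤ 3 * (Fib Bad a b).card := by
  obtain ⟨g, hg⟩ : ∃ g, g = Nat.gcd a b := ⟨_, rfl⟩
  have hg0 : 0 < g := by rw [hg]; exact Nat.gcd_pos_of_pos_left _ ha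
  have hga : g * (a / g) = a := Nat.mul_div_cancel' (by rw [hg]; exact Nat.gcd_dvd_left _ _)
  have hgb : g * (b / g) = b := Nat.mul_div_cancel' (by rw [hg]; exact Nat.gcd_dvd_right _ _)
  obtain ⟨s, hs⟩ : ∃ s, s = (((Icc (-(A : ℤ)) A).filter (fun c => c ≠ 0)) ×ˢ Icc 1 R).filter
      (fun x : ℤ × ℕ => x.2 ∈ BadR Bad R z a b x.1 d) := ⟨_, rfl⟩
  have h1 : ∑ c ∈ (Icc (-(A : ℤ)) A).filter (fun c => c ≠ 0), (BadR Bad R z a b c d).card ≤ s.card := by
    rw [card_eq_sum_card_fiberwise (f := Prod.fst) (t := (Icc (-(A : ℤ)) A).filter (fun c => c ≠ 0))]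
    · refine sum_le_sum fun c hc => ?_
      apply card_le_card_of_injOn (fun r => (c, r))
      · intro r hr
        rw [mem_coe] at hr
        rw [mem_coe, mem_filter, hs, mem_filter, mem_product]
        have h2 := mem_BadR.1 hr
        exact ⟨⟨⟨hc, mem_Icc.2 h2.1⟩, hr⟩, rfl⟩
      · intro r _ r' _ h
        simp only [Prod.mk.injEq, true_and] at h
        exact h
    · intro x hx
      rw [mem_coe, hs, mem_filter, mem_product] at hx
      exact hx.1.1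
  refine h1.trans ?_
  have hmem : ∀ x ∈ s, (x.1 ∈ Icc (-(A : ℤ)) A ∧ x.1 ≠ 0) ∧ (1 ≤ x.2 ∧ x.2 ≤ R) ∧ x.2.Prime ∧ z < x.2 ∧
      ∃ y : ℤ, d - x.1 * (x.2 : ℤ) = (g : ℤ) * y ∧ (a / g, b / g, y) ∈ Bad g := by
    intro x hx
    rw [hs, mem_filter, mem_product, mem_filter, mem_BadR, ← hg] at hx
    exact ⟨hx.1.1, hx.2⟩
  obtain ⟨f, hf⟩ : ∃ f : ℤ × ℕ → ℕ × ℕ × ℤ, f = fun x => (a / g, b / g, (d - x.1 * (x.2 : ℤ)) / g) := ⟨_, rfl⟩
  have hfy : ∀ x ∈ s, ∃ y : ℤ, d - x.1 * (x.2 : ℤ) = (g : ℤ) * y ∧ (a / g, b / g, y) ∈ Bad g ∧ f x = (a / g, b / g, y) := by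
    intro x hx
    obtain ⟨_, _, _, _, y, hy, hyB⟩ := hmem x hx
    refine ⟨y, hy, hyB, ?_⟩
    rw [hf]
    simp only
    rw [hy, Int.mul_ediv_cancel_left _ (by exact_mod_cast hg0.ne')]
  have h2 : s.card ≤ 3 * (s.image f).card := by
    apply card_le_mul_card_image
    intro t ht
    rw [mem_image] at ht
    obtain ⟨x0, hx0, hx0t⟩ := ht
    obtain ⟨y, hy, _, hfx⟩ := hfy x0 hx0
    rw [hfx] at hx0t
    obtain ⟨n, hn⟩ : ∃ n : ℕ, n = (d - g * y).natAbs := ⟨_, rfl⟩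
    have hall : ∀ x ∈ s.filter (fun x => f x = t), x.1 * (x.2 : ℤ) = d - g * y ∧ x ∈ s := by
      intro x hx
      rw [mem_filter] at hx
      obtain ⟨y', hy', _, hfx'⟩ := hfy x hx.1
      rw [hfx', ← hx0t] at hx
      have e : y' = y := by
        have := hx.2
        simp only [Prod.mk.injEq, true_and] at this
        exact this
      rw [e] at hy'
      exact ⟨by linarith, hx.1⟩
    have hx0m := hmem x0 hx0
    have hne : d - g * y ≠ 0 := by
      have e : d - g * y = x0.1 * (x0.2 : ℤ) := by linarith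
      rw [e]
      apply mul_ne_zero hx0m.1.2
      have := hx0m.2.1.1
      exact_mod_cast (by omega : x0.2 ≠ 0)
    have hn0 : n ≠ 0 := by rw [hn]; exact Int.natAbs_ne_zero.2 hne
    have hnlt : n < (z + 1) ^ 4 := by
      refine lt_of_le_of_lt ?_ hz
      have e : d - g * y = x0.1 * (x0.2 : ℤ) := by linarith
      rw [hn, e, Int.natAbs_mul, Int.natAbs_natCast]
      apply Nat.mul_le_mul _ hx0m.2.1.2
      have := mem_Icc.1 hx0m.1.1
      omega
    refine le_trans ?_ (few_big n z hn0 hnlt)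
    apply card_le_card_of_injOn (fun x => x.2)
    · intro x hx
      rw [mem_coe] at hx
      obtain ⟨h3, h4⟩ := hall x hx
      have h5 := hmem x h4
      rw [mem_coe, mem_filter]
      refine ⟨Nat.mem_primeFactors.2 ⟨h5.2.2.1, ?_, hn0⟩, h5.2.2.2.1⟩
      rw [hn, ← h3, Int.natAbs_mul, Int.natAbs_natCast]
      exact dvd_mul_left _ _
    · intro x hx x' hx' h
      rw [mem_coe] at hx hx'
      simp only at h
      obtain ⟨h3, h4⟩ := hall x hx
      obtain ⟨h3', h4'⟩ := hall x' hx'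
      have h5 := hmem x h4
      have h6 : x.1 * (x.2 : ℤ) = x'.1 * (x.2 : ℤ) := by
        rw [h3]
        rw [← h] at h3'
        exact h3'.symm
      have h7 : (x.2 : ℤ) ≠ 0 := by
        have := h5.2.1.1
        exact_mod_cast (by omega : x.2 ≠ 0)
      exact Prod.ext (mul_right_cancel₀ h7 h6) h
  refine h2.trans (Nat.mul_le_mul_left 3 (card_le_card ?_))
  intro t ht
  rw [mem_image] at ht
  obtain ⟨x, hx, rfl⟩ := ht
  obtain ⟨y, hy, hyB, hfx⟩ := hfy x hx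
  rw [hfx]
  unfold Fib
  rw [mem_filter, ← hg]
  exact ⟨hyB, hga, hgb⟩

open Classical in
/-- few constants `c` have many bad primes -/
lemma rep_few (Bad : ℕ → Finset (ℕ × ℕ × ℤ)) (A R z a b : ℕ) (d : ℤ) (ha : 1 ≤ a) (hz : A * R < (z + 1) ^ 4)
    (θ θ' : ℝ) (hθ : ((Fib Bad a b).card : ℝ) ≤ θ) (hθ' : 0 < θ') :
    (((Icc (-(A : ℤ)) A).filter (fun c : ℤ => c ≠ 0 ∧ θ' < ((BadR Bad R z a b c d).card : ℝ))).card : ℝ) ≤ 3 * θ / θ' := by
  have h1 := rep_sum Bad A R z a b d ha hz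
  have h2 : (∑ c ∈ (Icc (-(A : ℤ)) A).filter (fun c => c ≠ 0), ((BadR Bad R z a b c d).card : ℝ)) ≤ 3 * (Fib Bad a b).card := by
    exact_mod_cast h1
  rw [le_div_iff₀ hθ']
  calc (((Icc (-(A : ℤ)) A).filter (fun c : ℤ => c ≠ 0 ∧ θ' < ((BadR Bad R z a b c d).card : ℝ))).card : ℝ) * θ' =
      ∑ c ∈ (Icc (-(A : ℤ)) A).filter (fun c : ℤ => c ≠ 0 ∧ θ' < ((BadR Bad R z a b c d).card : ℝ)), θ' := by
        rw [sum_const, nsmul_eq_mul]
    _ ≤ ∑ c ∈ (Icc (-(A : ℤ)) A).filter (fun c : ℤ => c ≠ 0 ∧ θ' < ((BadR Bad R z a b c d).card : ℝ)),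
        ((BadR Bad R z a b c d).card : ℝ) := by
        refine sum_le_sum fun c hc => ?_
        rw [mem_filter] at hc
        exact hc.2.2.le
    _ ≤ ∑ c ∈ (Icc (-(A : ℤ)) A).filter (fun c => c ≠ 0), ((BadR Bad R z a b c d).card : ℝ) := by
        apply sum_le_sum_of_subset_of_nonneg
        · intro c hc
          rw [mem_filter] at hc ⊢
          exact ⟨hc.1, hc.2.1⟩
        · intro c _ _
          exact Nat.cast_nonneg _
    _ ≤ 3 * (Fib Bad a b).card := h2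
    _ ≤ 3 * θ := by linarith

end Pool.Agent.Q236.BK
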