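import Pool.Agent.Q236.BK.Pts
import Pool.Agent.Q236.BK.Rep
import Pool.Agent.Q236.BK.Loc

/-!
# The solutions with a given prime `r`
-/

set_option autoImplicit false

namespace Pool.Agent.Q236.BK

open Finset Filter
open Pool.Agent.Results.MP_bf63dc_nt.AlmostAllTriples (Points Triples Admissible)

/-- the solutions of `a p - b q + c r = d` in primes `p, q, r ≤ X` -/
def sols (X a b : ℕ) (c d : ℤ) : Finset (ℕ × ℕ × ℕ) :=
  (Icc 1 X ×ˢ (Icc 1 X ×ˢ Icc 1 X)).filter (fun t => t.1.Prime ∧ t.2.1.Prime ∧ t.2.2.Prime ∧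
    (a : ℤ) * t.1 - b * t.2.1 + c * t.2.2 = d)

/-- the lower bound for prime points, from the theorem for almost all triples -/
def Low (X A1 U1 : ℕ) (Bad : Finset (ℕ × ℕ × ℤ)) : Prop :=
  ∀ a b : ℕ, ∀ c : ℤ, (a, b, c) ∈ Triples A1 X → (a, b, c) ∉ Bad → Admissible a b c →
    ((X : ℝ) / A1) / Real.log X ^ (U1 - 1) ≤ (Points X a b c).card →
      ((Points X a b c).card : ℝ) / (4 * Real.log X ^ 2) ≤
        ((Points X a b c).filter (fun t => t.1.Prime ∧ t.2.Prime)).card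

lemma per_r (X A g a1 b1 U1 r : ℕ) (Bad : Finset (ℕ × ℕ × ℤ)) (c d y : ℤ) (hL : 8 ≤ Real.log X) (hU : 2 ≤ U1)
    (hB : Low X (A / g) U1 Bad) (hg : 1 ≤ g) (ha1 : 1 ≤ a1) (hb1 : 1 ≤ b1) (hcop : a1.Coprime b1) (ha : g * a1 ≤ A) (hb : g * b1 ≤ A)
    (hAX : 8 * (A : ℝ) ≤ X) (hy : d - c * (r : ℤ) = g * y) (hy0 : y ≠ 0) (hac : a1.Coprime y.natAbs) (hbc : b1.Coprime y.natAbs)
    (h2 : (2 : ℤ) ∣ a1 * b1 * y) (hbad : (a1, b1, y) ∉ Bad)
    (hd1 : 4 * |(d : ℝ) - c * r| * A ≤ X * ((g * a1) * (g * b1))) (hd2 : 2 * |(d : ℝ) - c * r| ≤ A * X) :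
    (X : ℝ) / (16 * (A * Real.log X ^ 2)) ≤
      (((Icc 1 X ×ˢ Icc 1 X).filter (fun t : ℕ × ℕ => t.1.Prime ∧ t.2.Prime ∧
        ((g * a1 : ℕ) : ℤ) * t.1 - (g * b1 : ℕ) * t.2 = d - c * (r : ℤ))).card : ℝ) := by
  obtain ⟨L, hLd⟩ : ∃ L, L = Real.log (X : ℝ) := ⟨_, rfl⟩
  have hL0 : 0 < L := by rw [hLd]; linarith
  have hgr : (1 : ℝ) ≤ g := by exact_mod_cast hg
  have hg0 : (0 : ℝ) < g := by linarith
  have har : (1 : ℝ) ≤ a1 := by exact_mod_cast ha1
  have hbr : (1 : ℝ) ≤ b1 := by exact_mod_cast hb1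
  have haA : (g : ℝ) * a1 ≤ A := by exact_mod_cast ha
  have hbA : (g : ℝ) * b1 ≤ A := by exact_mod_cast hb
  have hgA : g ≤ A := le_trans (Nat.le_mul_of_pos_right g ha1) ha
  have hA0 : (0 : ℝ) < A := by nlinarith
  have hX0 : (0 : ℝ) < X := by linarith
  -- the quotient
  obtain ⟨A1, hA1⟩ : ∃ A1, A1 = A / g := ⟨_, rfl⟩
  rw [← hA1] at hB
  have hA11 : 1 ≤ A1 := by rw [hA1]; exact Nat.div_pos hgA hg
  have hA1r : (1 : ℝ) ≤ A1 := by exact_mod_cast hA11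
  have hA1lt : (A : ℝ) ≤ 2 * (g * A1) := by
    have h3 : A < g * A1 + g := by
      have := Nat.lt_mul_div_succ A hg
      rw [hA1]
      linarith
    have h4 : g * A1 + g ≤ 2 * (g * A1) := by nlinarith
    have h5 : A ≤ 2 * (g * A1) := by omega
    exact_mod_cast h5
  have hyr : (d : ℝ) - c * r = g * y := by exact_mod_cast hy
  have hyabs : |(d : ℝ) - c * r| = g * |(y : ℝ)| := by rw [hyr, abs_mul, abs_of_pos hg0]
  rw [hyabs] at hd1 hd2
  -- membership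
  have htr : (a1, b1, y) ∈ Triples A1 X := by
    unfold Triples
    rw [mem_product, mem_product, mem_Icc, mem_Icc, mem_Icc]
    have h3 : a1 ≤ A1 := by
      rw [hA1, Nat.le_div_iff_mul_le hg, mul_comm]
      exact ha
    have h4 : b1 ≤ A1 := by
      rw [hA1, Nat.le_div_iff_mul_le hg, mul_comm]
      exact hb
    have h5 : |(y : ℝ)| ≤ A1 * X := by
      have h6 : 2 * (g * |(y : ℝ)|) ≤ 2 * (g * A1) * X := hd2.trans (mul_le_mul_of_nonneg_right hA1lt hX0.le)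
      have h7 : (g : ℝ) * |(y : ℝ)| ≤ g * (A1 * X) := by nlinarith
      exact le_of_mul_le_mul_left h7 hg0
    have h6 : |y| ≤ (A1 : ℤ) * X := by
      have : ((|y| : ℤ) : ℝ) ≤ A1 * X := by push_cast; exact h5
      exact_mod_cast this
    exact ⟨⟨ha1, h3⟩, ⟨hb1, h4⟩, (abs_le.1 h6).1, (abs_le.1 h6).2⟩
  have hadm : Admissible a1 b1 y := by
    refine ⟨hy0, hcop, hac, hbc, ?_⟩
    have h3 := Int.natAbs_dvd_natAbs.2 h2
    rw [Int.natAbs_mul, Int.natAbs_mul] at h3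
    simpa using h3
  -- the number of points
  obtain ⟨Y, hY⟩ : ∃ Y : ℝ, Y = g * X / A := ⟨_, rfl⟩
  have hYle : ∀ x : ℝ, 0 ≤ x → g * x ≤ A → Y * x ≤ X := by
    intro x _ hx
    rw [hY, div_mul_eq_mul_div, div_le_iff₀ hA0]
    nlinarith
  have hY8 : 8 ≤ Y := by
    rw [hY, le_div_iff₀ hA0]
    nlinarith
  have hpts := pts X a1 b1 y Y ha1 hb1 hcop (hYle _ (by linarith) haA) (hYle _ (by linarith) hbA) (by
    rw [hY, div_mul_eq_mul_div, le_div_iff₀ hA0]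
    have h3 : 4 * (g * |(y : ℝ)|) * A ≤ g * (g * X * (a1 * b1)) := by
      refine hd1.trans (le_of_eq ?_)
      ring
    have h4 : (g : ℝ) * (4 * |(y : ℝ)| * A) ≤ g * (g * X * (a1 * b1)) := by
      refine le_trans (le_of_eq ?_) h3
      ring
    exact le_of_mul_le_mul_left h4 hg0) hY8
  have hthr : ((X : ℝ) / A1) / Real.log X ^ (U1 - 1) ≤ (Points X a1 b1 y).card := by
    refine le_trans ?_ hpts
    rw [← hLd]
    have h3 : (X : ℝ) / A1 ≤ 2 * Y := by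
      rw [hY, div_le_iff₀ (by linarith : (0 : ℝ) < A1), mul_div_assoc']
      rw [div_mul_eq_mul_div, le_div_iff₀ hA0]
      nlinarith
    have h4 : 8 ≤ L ^ (U1 - 1) := by
      calc (8 : ℝ) ≤ L := by rw [hLd]; exact hL
        _ = L ^ 1 := (pow_one L).symm
        _ ≤ L ^ (U1 - 1) := pow_le_pow_right₀ (by rw [hLd]; linarith) (by omega)
    rw [div_le_iff₀ (by positivity)]
    nlinarith
  have hlow := hB a1 b1 y htr hbad hadm hthr
  rw [← hLd] at hlow ⊢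
  have hsub : (Points X a1 b1 y).filter (fun t => t.1.Prime ∧ t.2.Prime) ⊆ (Icc 1 X ×ˢ Icc 1 X).filter
      (fun t : ℕ × ℕ => t.1.Prime ∧ t.2.Prime ∧ ((g * a1 : ℕ) : ℤ) * t.1 - (g * b1 : ℕ) * t.2 = d - c * (r : ℤ)) := by
    intro t ht
    rw [mem_filter] at ht
    unfold Points at ht
    rw [mem_filter] at ht
    rw [mem_filter]
    refine ⟨ht.1.1, ht.2.1, ht.2.2, ?_⟩
    rw [hy]
    push_cast
    linear_combination (g : ℤ) * ht.1.2
  have hcard : (((Points X a1 b1 y).filter (fun t => t.1.Prime ∧ t.2.Prime)).card : ℝ) ≤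
      (((Icc 1 X ×ˢ Icc 1 X).filter (fun t : ℕ × ℕ => t.1.Prime ∧ t.2.Prime ∧
        ((g * a1 : ℕ) : ℤ) * t.1 - (g * b1 : ℕ) * t.2 = d - c * (r : ℤ))).card : ℝ) := by
    exact_mod_cast card_le_card hsub
  refine le_trans ?_ (hlow.trans hcard)
  have h3 : (X : ℝ) / A ≤ Y := by
    rw [hY]
    apply div_le_div_of_nonneg_right _ hA0.le
    nlinarith
  calc (X : ℝ) / (16 * (A * L ^ 2)) = (X / A / 4) / (4 * L ^ 2) := by
        field_simp
        norm_num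
    _ ≤ ((Points X a1 b1 y).card : ℝ) / (4 * L ^ 2) := by
        apply div_le_div_of_nonneg_right _ (by positivity)
        linarith

/-- summation over the primes `r` -/
lemma sols_ge (X a b : ℕ) (c d : ℤ) (Rs : Finset ℕ) (hRs : ∀ r ∈ Rs, r ∈ Icc 1 X ∧ r.Prime) (N : ℝ)
    (hN : ∀ r ∈ Rs, N ≤ (((Icc 1 X ×ˢ Icc 1 X).filter (fun t : ℕ × ℕ => t.1.Prime ∧ t.2.Prime ∧
        (a : ℤ) * t.1 - b * t.2 = d - c * (r : ℤ))).card : ℝ)) :
    (Rs.card : ℝ) * N ≤ (sols X a b c d).card := by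
  have h1 : ∀ r ∈ Rs, ((Icc 1 X ×ˢ Icc 1 X).filter (fun t : ℕ × ℕ => t.1.Prime ∧ t.2.Prime ∧
        (a : ℤ) * t.1 - b * t.2 = d - c * (r : ℤ))).card ≤
      (((sols X a b c d).filter (fun t => t.2.2 ∈ Rs)).filter (fun t => t.2.2 = r)).card := by
    intro r hr
    apply card_le_card_of_injOn (fun t : ℕ × ℕ => (t.1, t.2, r))
    · intro t ht
      rw [mem_coe, mem_filter, mem_product] at ht
      rw [mem_coe, mem_filter, mem_filter]
      refine ⟨⟨?_, hr⟩, rfl⟩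
      unfold sols
      rw [mem_filter, mem_product, mem_product]
      refine ⟨⟨ht.1.1, ht.1.2, (hRs r hr).1⟩, ht.2.1, ht.2.2.1, (hRs r hr).2, ?_⟩
      simp only
      have := ht.2.2.2
      linear_combination this
    · intro t _ t' _ h
      simp only [Prod.mk.injEq, and_true] at h
      exact Prod.ext h.1 h.2
  calc (Rs.card : ℝ) * N = ∑ r ∈ Rs, N := by rw [sum_const, nsmul_eq_mul]
    _ ≤ ∑ r ∈ Rs, ((((sols X a b c d).filter (fun t => t.2.2 ∈ Rs)).filter (fun t => t.2.2 = r)).card : ℝ) := by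
        refine sum_le_sum fun r hr => (hN r hr).trans ?_
        exact_mod_cast h1 r hr
    _ = (((sols X a b c d).filter (fun t => t.2.2 ∈ Rs)).card : ℝ) := by
        rw [card_eq_sum_card_fiberwise (f := fun t : ℕ × ℕ × ℕ => t.2.2) (t := Rs)]
        · push_cast
          rfl
        · intro t ht
          rw [mem_coe, mem_filter] at ht
          exact ht.2
    _ ≤ (sols X a b c d).card := by exact_mod_cast card_filter_le _ _

end Pool.Agent.Q236.BK
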