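import Pool.Agent.Results.MP_bf63dc_nt.AlmostAllTriples

/-!
# The number of the integral points of a line in a square
-/

set_option autoImplicit false

namespace Pool.Agent.Q236.BK

open Finset
open Pool.Agent.Results.MP_bf63dc_nt.AlmostAllTriples (Points)

lemma pts (X a b : ℕ) (c : ℤ) (Y : ℝ) (ha : 1 ≤ a) (hb : 1 ≤ b) (hcop : a.Coprime b) (hYa : Y * a ≤ X) (hYb : Y * b ≤ X)
    (hc : 4 * |(c : ℝ)| ≤ Y * (a * b)) (hY : 8 ≤ Y) : Y / 4 ≤ (Points X a b c).card := by
  have har : (1 : ℝ) ≤ a := by exact_mod_cast ha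
  have hbr : (1 : ℝ) ≤ b := by exact_mod_cast hb
  have ha0 : (0 : ℝ) < a := by linarith
  have hb0 : (0 : ℝ) < b := by linarith
  -- an integral point of the line
  obtain ⟨m0, n0, h0⟩ : ∃ m0 n0 : ℤ, (a : ℤ) * m0 - b * n0 = c := by
    obtain ⟨x, y, hxy⟩ := Nat.isCoprime_iff_coprime.2 hcop
    exact ⟨c * x, -(c * y), by linear_combination c * hxy⟩
  have h0r : (a : ℝ) * m0 - b * n0 = c := by exact_mod_cast h0
  obtain ⟨lo, hlo⟩ : ∃ lo : ℝ, lo = max ((1 - (m0 : ℝ)) / (b : ℝ)) ((1 - (n0 : ℝ)) / (a : ℝ)) := ⟨_, rfl⟩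
  obtain ⟨hi, hhi⟩ : ∃ hi : ℝ, hi = min (((X : ℝ) - (m0 : ℝ)) / (b : ℝ)) (((X : ℝ) - (n0 : ℝ)) / (a : ℝ)) := ⟨_, rfl⟩
  have hc1 : |(c : ℝ) / (a * b)| ≤ Y / 4 := by
    rw [abs_div, abs_of_pos (by positivity : (0 : ℝ) < a * b), div_le_iff₀ (by positivity)]
    linarith
  have hc2 := abs_le.1 hc1
  have hXa : Y ≤ X / a := by rw [le_div_iff₀ ha0]; exact hYa
  have hXb : Y ≤ X / b := by rw [le_div_iff₀ hb0]; exact hYb
  have h1a : 1 / (a : ℝ) ≤ 1 := by rw [div_le_one ha0]; exact har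
  have h1b : 1 / (b : ℝ) ≤ 1 := by rw [div_le_one hb0]; exact hbr
  have hlen : 3 / 4 * Y - 1 ≤ hi - lo := by
    have e : (m0 : ℝ) / b - n0 / a = c / (a * b) := by
      rw [← h0r]
      field_simp
    have k1 : ((X : ℝ) - (m0 : ℝ)) / (b : ℝ) = X / b - m0 / b := sub_div _ _ _
    have k2 : ((X : ℝ) - (n0 : ℝ)) / (a : ℝ) = X / a - n0 / a := sub_div _ _ _
    have k3 : (1 - (m0 : ℝ)) / (b : ℝ) = 1 / b - m0 / b := sub_div _ _ _
    have k4 : (1 - (n0 : ℝ)) / (a : ℝ) = 1 / a - n0 / a := sub_div _ _ _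
    rw [hhi, hlo, k1, k2, k3, k4]
    rcases min_choice ((X : ℝ) / b - m0 / b) (X / a - n0 / a) with h1 | h1 <;>
    rcases max_choice ((1 : ℝ) / b - m0 / b) (1 / a - n0 / a) with h2 | h2 <;>
    rw [h1, h2] <;> linarith [hc2.1, hc2.2]
  have hsub : (Icc ⌈lo⌉ ⌊hi⌋).card ≤ (Points X a b c).card := by
    apply card_le_card_of_injOn (fun t : ℤ => ((m0 + b * t).toNat, (n0 + a * t).toNat))
    · intro t ht
      rw [mem_coe, mem_Icc] at ht
      have h1 : lo ≤ t := Int.ceil_le.1 ht.1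
      have h2 : (t : ℝ) ≤ hi := Int.le_floor.1 ht.2
      rw [hlo] at h1
      rw [hhi] at h2
      have h3 := (le_max_left _ _).trans h1
      have h4 := (le_max_right _ _).trans h1
      have h5 := h2.trans (min_le_left _ _)
      have h6 := h2.trans (min_le_right _ _)
      rw [div_le_iff₀ hb0] at h3
      rw [div_le_iff₀ ha0] at h4
      rw [le_div_iff₀ hb0] at h5
      rw [le_div_iff₀ ha0] at h6
      have g1 : (1 : ℤ) ≤ m0 + b * t := by
        have : (1 : ℝ) ≤ m0 + b * t := by linarith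
        exact_mod_cast this
      have g2 : (1 : ℤ) ≤ n0 + a * t := by
        have : (1 : ℝ) ≤ n0 + a * t := by linarith
        exact_mod_cast this
      have g3 : m0 + b * t ≤ X := by
        have : (m0 : ℝ) + b * t ≤ X := by linarith
        exact_mod_cast this
      have g4 : n0 + a * t ≤ X := by
        have : (n0 : ℝ) + a * t ≤ X := by linarith
        exact_mod_cast this
      rw [mem_coe]
      unfold Points
      rw [mem_filter, mem_product, mem_Icc, mem_Icc]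
      simp only
      refine ⟨⟨⟨by omega, by omega⟩, ⟨by omega, by omega⟩⟩, ?_⟩
      rw [Int.toNat_of_nonneg (by omega), Int.toNat_of_nonneg (by omega)]
      linear_combination h0
    · intro t ht t' ht' h
      rw [mem_coe, mem_Icc] at ht ht'
      have key : ∀ t : ℤ, ⌈lo⌉ ≤ t → 0 ≤ m0 + b * t := by
        intro t ht
        have h1 : lo ≤ t := Int.ceil_le.1 ht
        rw [hlo] at h1
        have h3 := (le_max_left _ _).trans h1
        rw [div_le_iff₀ hb0] at h3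
        have : (0 : ℝ) ≤ m0 + b * t := by linarith
        exact_mod_cast this
      have h1 := key t ht.1
      have h2 := key t' ht'.1
      simp only [Prod.mk.injEq] at h
      have h3 : m0 + b * t = m0 + b * t' := by
        have := h.1
        omega
      have h4 : (b : ℤ) * (t - t') = 0 := by linear_combination h3
      rcases mul_eq_zero.1 h4 with h5 | h5
      · have : b = 0 := by exact_mod_cast h5
        omega
      · omega
  have hcard : hi - lo - 1 ≤ ((Icc ⌈lo⌉ ⌊hi⌋).card : ℝ) := by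
    rw [Int.card_Icc]
    have h1 : ((⌊hi⌋ + 1 - ⌈lo⌉ : ℤ) : ℝ) ≤ (((⌊hi⌋ + 1 - ⌈lo⌉).toNat : ℕ) : ℝ) := by
      have : (⌊hi⌋ + 1 - ⌈lo⌉ : ℤ) ≤ ((⌊hi⌋ + 1 - ⌈lo⌉).toNat : ℤ) := Int.self_le_toNat _
      exact_mod_cast this
    refine le_trans ?_ h1
    push_cast
    have h2 := Int.sub_one_lt_floor hi
    have h3 := Int.ceil_lt_add_one lo
    linarith
  have h5 : ((Icc ⌈lo⌉ ⌊hi⌋).card : ℝ) ≤ (Points X a b c).card := by exact_mod_cast hsub
  linarith

end Pool.Agent.Q236.BK
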