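import Pool.Agent.Q236.BK.Main
import Pool.Agent.Y883.T5.Baker

/-!
# All sign patterns
-/

set_option autoImplicit false

namespace Pool.Agent.Q236.BK

open Finset Filter
open Pool.Agent.Y883.T5 (Admissible no_common)

/-- the conditions, prime by prime, symmetric in the coefficients -/
structure PW (a b c d : ℤ) : Prop where
  an : a ≠ 0
  bn : b ≠ 0
  cn : c ≠ 0
  par : (2 : ℤ) ∣ a + b + c - d
  abc : ∀ l : ℕ, l.Prime → (l : ℤ) ∣ a → (l : ℤ) ∣ b → ¬ (l : ℤ) ∣ c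
  dab : ∀ l : ℕ, l.Prime → (l : ℤ) ∣ a → (l : ℤ) ∣ b → ¬ (l : ℤ) ∣ d
  dac : ∀ l : ℕ, l.Prime → (l : ℤ) ∣ a → (l : ℤ) ∣ c → ¬ (l : ℤ) ∣ d
  dbc : ∀ l : ℕ, l.Prime → (l : ℤ) ∣ b → (l : ℤ) ∣ c → ¬ (l : ℤ) ∣ d

lemma PW.of {a b c d : ℤ} (h : Admissible a b c d) : PW a b c d where
  an := h.a_ne
  bn := h.b_ne
  cn := h.c_ne
  par := h.even.two_dvd
  abc l hl h1 h2 h3 := no_common h.gcd_abc l hl ⟨h1, h2, h3⟩
  dab l hl h1 h2 h3 := no_common h.gcd_dab l hl ⟨h3, h1, h2⟩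
  dac l hl h1 h2 h3 := no_common h.gcd_dac l hl ⟨h3, h1, h2⟩
  dbc l hl h1 h2 h3 := no_common h.gcd_dbc l hl ⟨h3, h1, h2⟩

lemma PW.swap12 {a b c d : ℤ} (h : PW a b c d) : PW b a c d where
  an := h.bn
  bn := h.an
  cn := h.cn
  par := by
    have := h.par
    rwa [add_comm a b] at this
  abc l hl h1 h2 := h.abc l hl h2 h1
  dab l hl h1 h2 := h.dab l hl h2 h1
  dac l hl h1 h2 := h.dbc l hl h1 h2
  dbc l hl h1 h2 := h.dac l hl h1 h2

lemma PW.swap23 {a b c d : ℤ} (h : PW a b c d) : PW a c b d where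
  an := h.an
  bn := h.cn
  cn := h.bn
  par := by
    have := h.par
    have e : a + c + b - d = a + b + c - d := by ring
    rwa [e]
  abc l hl h1 h2 h3 := h.abc l hl h1 h3 h2
  dab l hl h1 h2 := h.dac l hl h1 h2
  dac l hl h1 h2 := h.dab l hl h1 h2
  dbc l hl h1 h2 := h.dbc l hl h2 h1

lemma PW.adm {a b c d : ℤ} (h : PW a b c d) (ha : 0 < a) (hb : b < 0) : Adm a.natAbs b.natAbs c d where
  a0 := Int.natAbs_pos.2 h.an
  b0 := Int.natAbs_pos.2 h.bn
  c0 := h.cn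
  par := by
    have e1 : (a.natAbs : ℤ) = a := by omega
    have e2 : (b.natAbs : ℤ) = -b := by omega
    rw [e1, e2, sub_neg_eq_add]
    exact h.par
  abc l hl h1 h2 := h.abc l hl (Int.natCast_dvd.2 h1) (Int.natCast_dvd.2 h2)
  dab l hl h1 h2 := h.dab l hl (Int.natCast_dvd.2 h1) (Int.natCast_dvd.2 h2)
  dac l hl h1 h2 := h.dac l hl (Int.natCast_dvd.2 h1) h2
  dbc l hl h1 h2 := h.dbc l hl (Int.natCast_dvd.2 h1) h2

open Classical in
/-- the admissible triples `(x, y, z)` for which `x p - y q + z r = d` has no solution in primes up to `X` -/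
noncomputable def BT (X A : ℕ) (d : ℤ) : Finset (ℕ × ℕ × ℤ) :=
  (Icc 1 A ×ˢ (Icc 1 A ×ˢ Icc (-(A : ℤ)) A)).filter (fun t => Adm t.1 t.2.1 t.2.2 d ∧ sols X t.1 t.2.1 t.2.2 d = ∅)

open Classical in
lemma mem_BT {X A : ℕ} {d : ℤ} {x y : ℕ} {z : ℤ} : (x, y, z) ∈ BT X A d ↔
    ((1 ≤ x ∧ x ≤ A) ∧ (1 ≤ y ∧ y ≤ A) ∧ (-(A : ℤ) ≤ z ∧ z ≤ A)) ∧ Adm x y z d ∧ sols X x y z d = ∅ := by
  unfold BT
  rw [mem_filter, mem_product, mem_product, mem_Icc, mem_Icc, mem_Icc]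

open Classical in
lemma BT_card (X A : ℕ) (d : ℤ) (E : Finset (ℕ × ℕ)) (v m0 : ℝ) (hA : 1 ≤ A) (hv : 0 ≤ v) (hm0 : 0 < m0)
    (hE : E ⊆ Icc 1 A ×ˢ Icc 1 A) (hEc : (E.card : ℝ) ≤ (A : ℝ) ^ 2 * v)
    (h : ∀ a b : ℕ, (a, b) ∈ Icc 1 A ×ˢ Icc 1 A → (a, b) ∉ E →
      (((Icc (-(A : ℤ)) A).filter (fun c : ℤ => Adm a b c d ∧ ((sols X a b c d).card : ℝ) < m0)).card : ℝ) ≤ A * v) :
    ((BT X A d).card : ℝ) ≤ 4 * ((A : ℝ) ^ 3 * v) := by
  have hAr : (1 : ℝ) ≤ A := by exact_mod_cast hA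
  have h1 : (BT X A d).card = ∑ x ∈ Icc 1 A ×ˢ Icc 1 A, ((BT X A d).filter (fun t => (t.1, t.2.1) = x)).card := by
    apply card_eq_sum_card_fiberwise
    intro t ht
    rw [mem_coe] at ht
    have := mem_BT.1 (show (t.1, t.2.1, t.2.2) ∈ BT X A d from ht)
    rw [mem_coe, mem_product, mem_Icc, mem_Icc]
    exact ⟨this.1.1, this.1.2.1⟩
  have h2 : ∀ x ∈ E, (((BT X A d).filter (fun t => (t.1, t.2.1) = x)).card : ℝ) ≤ 3 * A := by
    intro x _
    have h3 : ((BT X A d).filter (fun t => (t.1, t.2.1) = x)).card ≤ (Icc (-(A : ℤ)) A).card := by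
      apply card_le_card_of_injOn (fun t => t.2.2)
      · intro t ht
        rw [mem_coe, mem_filter] at ht
        have := mem_BT.1 (show (t.1, t.2.1, t.2.2) ∈ BT X A d from ht.1)
        rw [mem_coe, mem_Icc]
        exact this.1.2.2
      · intro t ht t' ht' hh
        rw [mem_coe, mem_filter] at ht ht'
        have e := ht.2.trans ht'.2.symm
        simp only [Prod.mk.injEq] at e
        exact Prod.ext e.1 (Prod.ext e.2 hh)
    rw [Int.card_Icc] at h3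
    have h4 : ((BT X A d).filter (fun t => (t.1, t.2.1) = x)).card ≤ 3 * A := by omega
    exact_mod_cast h4
  have h3 : ∀ x ∈ (Icc 1 A ×ˢ Icc 1 A) \ E, (((BT X A d).filter (fun t => (t.1, t.2.1) = x)).card : ℝ) ≤ A * v := by
    intro x hx
    rw [Finset.mem_sdiff] at hx
    refine le_trans ?_ (h x.1 x.2 hx.1 hx.2)
    have h4 : ((BT X A d).filter (fun t => (t.1, t.2.1) = x)).card ≤
        ((Icc (-(A : ℤ)) A).filter (fun c : ℤ => Adm x.1 x.2 c d ∧ ((sols X x.1 x.2 c d).card : ℝ) < m0)).card := by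
      apply card_le_card_of_injOn (fun t => t.2.2)
      · intro t ht
        rw [mem_coe, mem_filter] at ht
        have h5 := mem_BT.1 (show (t.1, t.2.1, t.2.2) ∈ BT X A d from ht.1)
        have e1 : t.1 = x.1 := by rw [← ht.2]
        have e2 : t.2.1 = x.2 := by rw [← ht.2]
        rw [e1, e2] at h5
        rw [mem_coe, mem_filter, mem_Icc]
        refine ⟨h5.1.2.2, h5.2.1, ?_⟩
        rw [h5.2.2, card_empty]
        push_cast
        exact hm0
      · intro t ht t' ht' hh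
        rw [mem_coe, mem_filter] at ht ht'
        have e := ht.2.trans ht'.2.symm
        simp only [Prod.mk.injEq] at e
        exact Prod.ext e.1 (Prod.ext e.2 hh)
    exact_mod_cast h4
  have h4 : ((BT X A d).card : ℝ) = ∑ x ∈ (Icc 1 A ×ˢ Icc 1 A) \ E, (((BT X A d).filter (fun t => (t.1, t.2.1) = x)).card : ℝ) +
      ∑ x ∈ E, (((BT X A d).filter (fun t => (t.1, t.2.1) = x)).card : ℝ) := by
    rw [sum_sdiff hE, h1]
    push_cast
    rfl
  rw [h4]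
  have h5 : ∑ x ∈ E, (((BT X A d).filter (fun t => (t.1, t.2.1) = x)).card : ℝ) ≤ (A : ℝ) ^ 2 * v * (3 * A) := by
    calc ∑ x ∈ E, (((BT X A d).filter (fun t => (t.1, t.2.1) = x)).card : ℝ) ≤ ∑ x ∈ E, (3 * (A : ℝ)) := sum_le_sum h2
      _ = E.card * (3 * A) := by rw [sum_const, nsmul_eq_mul]
      _ ≤ (A : ℝ) ^ 2 * v * (3 * A) := mul_le_mul_of_nonneg_right hEc (by positivity)
  have h6 : ∑ x ∈ (Icc 1 A ×ˢ Icc 1 A) \ E, (((BT X A d).filter (fun t => (t.1, t.2.1) = x)).card : ℝ) ≤ (A : ℝ) ^ 2 * (A * v) := by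
    calc ∑ x ∈ (Icc 1 A ×ˢ Icc 1 A) \ E, (((BT X A d).filter (fun t => (t.1, t.2.1) = x)).card : ℝ) ≤
        ∑ x ∈ (Icc 1 A ×ˢ Icc 1 A) \ E, (A * v) := sum_le_sum h3
      _ = ((Icc 1 A ×ˢ Icc 1 A) \ E).card * (A * v) := by rw [sum_const, nsmul_eq_mul]
      _ ≤ (A : ℝ) ^ 2 * (A * v) := by
          apply mul_le_mul_of_nonneg_right _ (by positivity)
          have h7 := card_le_card (sdiff_subset (s := Icc 1 A ×ˢ Icc 1 A) (t := E))
          rw [card_product, Nat.card_Icc, Nat.add_sub_cancel] at h7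
          rw [pow_two]
          exact_mod_cast h7
  calc _ ≤ (A : ℝ) ^ 2 * (A * v) + (A : ℝ) ^ 2 * v * (3 * A) := add_le_add h6 h5
    _ = 4 * ((A : ℝ) ^ 3 * v) := by ring

/-- the triples of integers of absolute values at most `A` -/
noncomputable def Cube (A : ℕ) : Finset (ℤ × ℤ × ℤ) := Icc (-(A : ℤ)) A ×ˢ (Icc (-(A : ℤ)) A ×ˢ Icc (-(A : ℤ)) A)

/-- a solution in primes up to `X` -/
def SolX (X : ℕ) (a b c d : ℤ) : Prop :=
  ∃ p q r : ℕ, p.Prime ∧ q.Prime ∧ r.Prime ∧ a * p + b * q + c * r = d ∧ p ≤ X ∧ q ≤ X ∧ r ≤ X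

lemma solX_of {X : ℕ} {a b c d : ℤ} (ha : 0 < a) (hb : b < 0) (h : sols X a.natAbs b.natAbs c d ≠ ∅) : SolX X a b c d := by
  obtain ⟨t, ht⟩ := nonempty_of_ne_empty h
  unfold sols at ht
  rw [mem_filter, mem_product, mem_product, mem_Icc, mem_Icc, mem_Icc] at ht
  refine ⟨t.1, t.2.1, t.2.2, ht.2.1, ht.2.2.1, ht.2.2.2.1, ?_, ht.1.1.2, ht.1.2.1.2, ht.1.2.2.2⟩
  have e1 : (a.natAbs : ℤ) = a := by omega
  have e2 : (b.natAbs : ℤ) = -b := by omega
  have := ht.2.2.2.2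
  rw [e1, e2] at this
  linarith

open Classical in
/-- the exceptional triples for one `d` -/
lemma ex_card (X A : ℕ) (d : ℤ) :
    ((Cube A).filter (fun t => Admissible t.1 t.2.1 t.2.2 d ∧ ¬ SolX X t.1 t.2.1 t.2.2 d)).card ≤ 4 * (BT X A d).card := by
  obtain ⟨F1, hF1⟩ : ∃ F1, F1 = (Cube A).filter (fun t => (0 < t.1 ∧ t.2.1 < 0) ∧ (t.1.natAbs, t.2.1.natAbs, t.2.2) ∈ BT X A d) := ⟨_, rfl⟩
  obtain ⟨F2, hF2⟩ : ∃ F2, F2 = (Cube A).filter (fun t => (t.1 < 0 ∧ 0 < t.2.1) ∧ (t.2.1.natAbs, t.1.natAbs, t.2.2) ∈ BT X A d) := ⟨_, rfl⟩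
  obtain ⟨F3, hF3⟩ : ∃ F3, F3 = (Cube A).filter (fun t => (0 < t.1 ∧ t.2.2 < 0) ∧ (t.1.natAbs, t.2.2.natAbs, t.2.1) ∈ BT X A d) := ⟨_, rfl⟩
  obtain ⟨F4, hF4⟩ : ∃ F4, F4 = (Cube A).filter (fun t => (t.1 < 0 ∧ 0 < t.2.2) ∧ (t.2.2.natAbs, t.1.natAbs, t.2.1) ∈ BT X A d) := ⟨_, rfl⟩
  have h1 : F1.card ≤ (BT X A d).card := by
    apply card_le_card_of_injOn (fun t => (t.1.natAbs, t.2.1.natAbs, t.2.2))
    · intro t ht
      rw [mem_coe, hF1, mem_filter] at ht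
      exact ht.2.2
    · intro t ht t' ht' h
      rw [mem_coe, hF1, mem_filter] at ht ht'
      simp only [Prod.mk.injEq] at h
      obtain ⟨k1, k2, k3⟩ := h
      have k4 := ht.2.1
      have k5 := ht'.2.1
      exact Prod.ext (by omega) (Prod.ext (by omega) k3)
  have h2 : F2.card ≤ (BT X A d).card := by
    apply card_le_card_of_injOn (fun t => (t.2.1.natAbs, t.1.natAbs, t.2.2))
    · intro t ht
      rw [mem_coe, hF2, mem_filter] at ht
      exact ht.2.2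
    · intro t ht t' ht' h
      rw [mem_coe, hF2, mem_filter] at ht ht'
      simp only [Prod.mk.injEq] at h
      obtain ⟨k1, k2, k3⟩ := h
      have k4 := ht.2.1
      have k5 := ht'.2.1
      exact Prod.ext (by omega) (Prod.ext (by omega) k3)
  have h3 : F3.card ≤ (BT X A d).card := by
    apply card_le_card_of_injOn (fun t => (t.1.natAbs, t.2.2.natAbs, t.2.1))
    · intro t ht
      rw [mem_coe, hF3, mem_filter] at ht
      exact ht.2.2
    · intro t ht t' ht' h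
      rw [mem_coe, hF3, mem_filter] at ht ht'
      simp only [Prod.mk.injEq] at h
      obtain ⟨k1, k2, k3⟩ := h
      have k4 := ht.2.1
      have k5 := ht'.2.1
      exact Prod.ext (by omega) (Prod.ext k3 (by omega))
  have h4 : F4.card ≤ (BT X A d).card := by
    apply card_le_card_of_injOn (fun t => (t.2.2.natAbs, t.1.natAbs, t.2.1))
    · intro t ht
      rw [mem_coe, hF4, mem_filter] at ht
      exact ht.2.2
    · intro t ht t' ht' h
      rw [mem_coe, hF4, mem_filter] at ht ht'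
      simp only [Prod.mk.injEq] at h
      obtain ⟨k1, k2, k3⟩ := h
      have k4 := ht.2.1
      have k5 := ht'.2.1
      exact Prod.ext (by omega) (Prod.ext k3 (by omega))
  have hsub : (Cube A).filter (fun t => Admissible t.1 t.2.1 t.2.2 d ∧ ¬ SolX X t.1 t.2.1 t.2.2 d) ⊆ F1 ∪ (F2 ∪ (F3 ∪ F4)) := by
    intro t ht
    rw [mem_filter] at ht
    obtain ⟨htc, hadm, hno⟩ := ht
    have htc' := htc
    unfold Cube at htc'
    rw [mem_product, mem_product, mem_Icc, mem_Icc, mem_Icc] at htc'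
    obtain ⟨⟨a1, a2⟩, ⟨b1, b2⟩, c1, c2⟩ := htc'
    have hpw := PW.of hadm
    have han := hadm.a_ne
    have hbn := hadm.b_ne
    have hcn := hadm.c_ne
    have hpos := hadm.not_pos
    have hneg := hadm.not_neg
    rw [mem_union, mem_union, mem_union, hF1, hF2, hF3, hF4, mem_filter, mem_filter, mem_filter, mem_filter]
    by_cases ha : 0 < t.1
    · by_cases hb : t.2.1 < 0
      · left
        refine ⟨htc, ⟨ha, hb⟩, mem_BT.2 ⟨⟨⟨by omega, by omega⟩, ⟨by omega, by omega⟩, c1, c2⟩, hpw.adm ha hb, ?_⟩⟩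
        by_contra hcon
        exact hno (solX_of ha hb hcon)
      · right; right; left
        have hc : t.2.2 < 0 := by omega
        refine ⟨htc, ⟨ha, hc⟩, mem_BT.2 ⟨⟨⟨by omega, by omega⟩, ⟨by omega, by omega⟩, b1, b2⟩, hpw.swap23.adm ha hc, ?_⟩⟩
        by_contra hcon
        obtain ⟨p, q, r, k1, k2, k3, k4, k5, k6, k7⟩ := solX_of ha hc hcon
        exact hno ⟨p, r, q, k1, k3, k2, by linarith, k5, k7, k6⟩
    · by_cases hb : 0 < t.2.1
      · right; left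
        have ha' : t.1 < 0 := by omega
        refine ⟨htc, ⟨ha', hb⟩, mem_BT.2 ⟨⟨⟨by omega, by omega⟩, ⟨by omega, by omega⟩, c1, c2⟩, hpw.swap12.adm hb ha', ?_⟩⟩
        by_contra hcon
        obtain ⟨p, q, r, k1, k2, k3, k4, k5, k6, k7⟩ := solX_of hb ha' hcon
        exact hno ⟨q, p, r, k2, k1, k3, by linarith, k6, k5, k7⟩
      · right; right; right
        have ha' : t.1 < 0 := by omega
        have hc : 0 < t.2.2 := by omega
        refine ⟨htc, ⟨ha', hc⟩, mem_BT.2 ⟨⟨⟨by omega, by omega⟩, ⟨by omega, by omega⟩, b1, b2⟩,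
          hpw.swap23.swap12.adm hc ha', ?_⟩⟩
        by_contra hcon
        obtain ⟨p, q, r, k1, k2, k3, k4, k5, k6, k7⟩ := solX_of hc ha' hcon
        exact hno ⟨q, r, p, k2, k3, k1, by linarith, k6, k7, k5⟩
  have h5 := (card_le_card hsub).trans (card_union_le _ _)
  have h6 := card_union_le F2 (F3 ∪ F4)
  have h7 := card_union_le F3 F4
  omega

end Pool.Agent.Q236.BK
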